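import Pool.Agent.U157.CC.Trans3

/-!
# From the odd constituents to the CM types, and the restriction to the maximal real subfield
-/

set_option autoImplicit false
set_option linter.unusedSectionVars false

open NumberField
open scoped Classical

namespace Pool.Agent.U157.CC

open Pool.Agent.H541R3.ART Pool.Agent.W446.AS Pool.Agent.R389 Pool.Agent.Helper606_LC
open Pool.Agent.Results.MP_a2beea_nt.AveragedAndAbelian

variable {E K : Type} [Field E] [NumberField E] [Field K] [NumberField K] [IsCMField K]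

lemma f_one_mem : (fun _ => 1 : (K ≃ₐ[ℚ] K) → ℚ) ∈ avgSpan K :=
  Submodule.subset_span (Or.inl rfl)

variable [IsCMField E] [IsGalois ℚ K]

lemma f_free (ψ : E →ₐ[ℚ] K) : conjugation K • ψ ≠ ψ := by
  intro h
  have h1 : Pool.Agent.N770.CP.rr (conjugation E) ψ = ψ :=
    (Pool.Agent.N770.CP.rr_conj ψ).trans h
  have h2 : (conjugation E)⁻¹ = 1 := by
    apply AlgEquiv.ext
    intro x
    exact ψ.injective (congrArg (fun f : E →ₐ[ℚ] K => f x) h1)
  exact Pool.Agent.N770.CP.conj_ne_one (inv_eq_one.mp h2)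

lemma f_dq_cm (ψ θ : E →ₐ[ℚ] K) :
    IsCMFunction (dq (conjugation K) ψ θ : (K ≃ₐ[ℚ] K) → ℚ) := by
  refine ⟨fun g h => ?_, 0, fun g => ?_⟩
  · have h1 := dl_conj (conjugation K) ψ θ g h⁻¹
    rw [inv_inv, dl_dq] at h1
    beta_reduce at h1
    exact_mod_cast h1
  · have hcc : conjugation K • (conjugation K • θ) = θ := by
      rw [← mul_smul, show conjugation K * conjugation K = 1 from
        Pool.Agent.Q11.CZ.conj_mul_self, one_smul]
    have e1 : ∀ θ : E →ₐ[ℚ] K, Pool.Agent.N770.CP.cnt ψ θ (conjugation K * g) =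
        Pool.Agent.N770.CP.cnt ψ (conjugation K • θ) g := fun θ =>
      Pool.Agent.N770.CP.cnt_c Pool.Agent.Q11.CZ.conj_comm ψ θ Pool.Agent.Q11.CZ.conj_mul_self g
    unfold dq
    rw [e1, e1, hcc]
    ring

lemma f_cm_add {f f' : (K ≃ₐ[ℚ] K) → ℚ} (hf : IsCMFunction f) (hf' : IsCMFunction f') :
    IsCMFunction (f + f') := by
  obtain ⟨h1, s, h2⟩ := hf
  obtain ⟨h1', s', h2'⟩ := hf'
  refine ⟨fun g h => by rw [Pi.add_apply, Pi.add_apply, h1, h1'], s + s', fun g => ?_⟩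
  rw [Pi.add_apply, Pi.add_apply, ← h2 g, ← h2' g]
  ring

lemma f_hc (g : K ≃ₐ[ℚ] K) : conjugation K * g = g * conjugation K :=
  Pool.Agent.Q11.CZ.conj_comm (K := K) g

lemma f_hc2 : conjugation K * conjugation K = 1 := Pool.Agent.Q11.CZ.conj_mul_self (K := K)

lemma f_hc1 : conjugation K ≠ 1 := Pool.Agent.N770.CP.conj_ne_one

/-- all `a⁰` -/
theorem base_one (ψ₀ : E →ₐ[ℚ] K)
    (h : ∀ χ : (K ≃ₐ[ℚ] K) → ℂ, OC (conjugation K) ψ₀ χ →
      ∀ k : (ZMod (Nat.card (K ≃ₐ[ℚ] K)))ˣ, pw k χ = χ)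
    {Φ : Finset (E →ₐ[ℚ] K)} (hΦ : IsCMType Φ) (ψ : E →ₐ[ℚ] K) : a0 ψ Φ ∈ avgSpan K := by
  obtain ⟨r1, -, -, -, -⟩ := Pool.Agent.Results.MP_a2beea_nt.AveragedAndAbelian.result K
  rw [a0_eq]
  have key := span_one (X := E →ₐ[ℚ] K) (G := K ≃ₐ[ℚ] K) (c := conjugation K) f_hc f_hc2 f_free
    (V := avgSpan K) f_one_mem
  refine key.mpr ?_ Φ hΦ ψ
  intro x y
  rw [r1]
  refine ⟨f_dq_cm x y, ?_⟩
  rw [zinv_iff]
  have h3 := inv_iff (G := K ≃ₐ[ℚ] K) (f := dl (conjugation K) x y)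
    (fun g u => dl_conj (conjugation K) x y g u)
  have h4 := (crit_one (G := K ≃ₐ[ℚ] K) (X := E →ₐ[ℚ] K) (c := conjugation K) f_hc f_hc2 f_hc1 ψ₀
    (fun _ => True)).mpr (fun χ hχ _ ho h0 k => h χ ⟨hχ, ho, h0⟩ k)
  have h5 := h3.mpr (fun k χ hχ => h4 x y k χ hχ trivial)
  rw [dl_dq] at h5
  exact h5

/-- all heights -/
theorem base_two (ψ₀ : E →ₐ[ℚ] K)
    (h : ∀ χ : (K ≃ₐ[ℚ] K) → ℂ, OC (conjugation K) ψ₀ χ →
      ∀ k : (ZMod (Nat.card (K ≃ₐ[ℚ] K)))ˣ, pw k χ = χ ∨ pw k χ = fun g => χ g⁻¹)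
    {Φ : Finset (E →ₐ[ℚ] K)} (hΦ : IsCMType Φ) : heightFn Φ ∈ avgSpan K := by
  obtain ⟨r1, -, -, -, -⟩ := Pool.Agent.Results.MP_a2beea_nt.AveragedAndAbelian.result K
  rw [heightFn_eq]
  have hzero : ∀ ψ : E →ₐ[ℚ] K, (dq (conjugation K) ψ ψ : (K ≃ₐ[ℚ] K) → ℚ) ∈ avgSpan K :=
    fun ψ => (r1 _).mpr ⟨f_dq_cm ψ ψ, fun g g' hgg => dq_self f_hc f_hc2 f_hc1 ψ hgg⟩
  have key := span_two (X := E →ₐ[ℚ] K) (G := K ≃ₐ[ℚ] K) (c := conjugation K) f_hc f_hc2 f_free
    (V := avgSpan K) f_one_mem hzero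
  refine key.mpr ?_ Φ hΦ
  intro x y
  rw [r1]
  refine ⟨f_cm_add (f_dq_cm x y) (f_dq_cm y x), ?_⟩
  rw [zinv_iff]
  have h3 := inv_iff (G := K ≃ₐ[ℚ] K) (f := ds (conjugation K) x y)
    (fun g u => ds_conj (conjugation K) x y g u)
  have h4 := (crit_two (G := K ≃ₐ[ℚ] K) (X := E →ₐ[ℚ] K) (c := conjugation K) f_hc f_hc2 f_hc1 ψ₀
    (fun _ => True)).mpr (fun χ hχ _ ho h0 k => h χ ⟨hχ, ho, h0⟩ k)
  have h5 := h3.mpr (fun k χ hχ => h4 x y k χ hχ trivial)
  rw [ds_dq] at h5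
  exact h5

/-- the restriction to the maximal real subfield -/
noncomputable def restr (ψ : E →ₐ[ℚ] K) : maximalRealSubfield E →ₐ[ℚ] K :=
  ψ.comp (IsScalarTower.toAlgHom ℚ (maximalRealSubfield E) E)

lemma restr_smul (g : K ≃ₐ[ℚ] K) (ψ : E →ₐ[ℚ] K) : restr (g • ψ) = g • restr ψ := rfl

lemma restr_conj (ψ : E →ₐ[ℚ] K) : restr (conjugation K • ψ) = restr ψ := by
  refine AlgHom.ext fun x => ?_
  change conjugation K (ψ x) = ψ x
  rw [← Pool.Agent.N770.CP.emb_conj', (Pool.Agent.N770.CP.conj_fix_iff (x : E)).mpr x.2]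

lemma restr_eq {ψ θ : E →ₐ[ℚ] K} (h : restr θ = restr ψ) : θ = ψ ∨ θ = conjugation K • ψ := by
  have hb : ∀ x : E, x ∈ maximalRealSubfield E → θ x = ψ x := fun x hx =>
    congrArg (fun f : maximalRealSubfield E →ₐ[ℚ] K => f ⟨x, hx⟩) h
  have hcc : ∀ x, conjugation E (conjugation E x) = x := Pool.Agent.N770.CP.conj_conj
  have hci : ∀ x : E, conjugation E x = x ↔ x ∈ maximalRealSubfield E :=
    Pool.Agent.N770.CP.conj_fix_iff
  have htwo : ∀ x : E, θ x = ψ x ∨ θ x = ψ (conjugation E x) := by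
    intro x
    have h1 : θ (x + conjugation E x) = ψ (x + conjugation E x) := by
      refine hb _ ((hci _).mp ?_)
      rw [map_add, hcc, add_comm]
    have h2 : θ (x * conjugation E x) = ψ (x * conjugation E x) := by
      refine hb _ ((hci _).mp ?_)
      rw [map_mul, hcc, mul_comm]
    rw [map_add, map_add] at h1
    rw [map_mul, map_mul] at h2
    have h3 : (θ x - ψ x) * (θ x - ψ (conjugation E x)) = 0 := by
      have h4 : θ (conjugation E x) = ψ x + ψ (conjugation E x) - θ x := by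
        rw [← h1]; ring
      rw [h4] at h2
      linear_combination -h2
    rcases mul_eq_zero.mp h3 with h | h
    · exact Or.inl (sub_eq_zero.mp h)
    · exact Or.inr (sub_eq_zero.mp h)
  have hact : ∀ x : E, (conjugation K • ψ) x = ψ (conjugation E x) := fun x =>
    (Pool.Agent.N770.CP.emb_conj' ψ x).symm
  by_cases h : ∀ x, θ x = ψ x
  · left
    exact AlgHom.ext h
  · right
    push Not at h
    obtain ⟨x0, hx0⟩ := h
    have h0 : θ x0 = ψ (conjugation E x0) := (htwo x0).resolve_left hx0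
    refine AlgHom.ext fun x => ?_
    rw [hact]
    rcases htwo x with h1 | h1
    · rcases htwo (x + x0) with h2 | h2
      · exfalso
        apply hx0
        rw [map_add, map_add, h1] at h2
        exact add_left_cancel h2
      · rw [map_add, map_add, map_add, h0] at h2
        exact add_right_cancel h2
    · exact h1

lemma far_restr {ψ θ : E →ₐ[ℚ] K} (h : Far (conjugation K) ψ θ) : restr ψ ≠ restr θ := by
  intro h1
  rcases restr_eq h1.symm with h2 | h2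
  · exact h.1 h2
  · exact h.2 h2

lemma card_emb (ψ₀ : E →ₐ[ℚ] K) :
    Fintype.card (E →ₐ[ℚ] K) = 2 * Module.finrank ℚ (maximalRealSubfield E) := by
  have h1 := Module.finrank_mul_finrank ℚ (maximalRealSubfield E) E
  rw [Algebra.IsQuadraticExtension.finrank_eq_two (maximalRealSubfield E) E] at h1
  rw [AlgHom.card_of_splits ℚ E K, ← h1, mul_comm]
  intro x
  have h2 : minpoly ℚ x = minpoly ℚ (ψ₀ x) := (minpoly.algHom_eq ψ₀ ψ₀.injective x).symm
  rw [h2]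
  exact Normal.splits inferInstance _

end Pool.Agent.U157.CC
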