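import Mathlib
import Pool.Agent.N770.CP.Sharp2
import Pool.Agent.R389.Compl
import Pool.Agent.Helper606_LC.Aut

/-!
# Colmez's class functions and the irreducible representations of the Galois group: pairings
-/

set_option autoImplicit false
set_option linter.unusedSectionVars false

open scoped Classical

namespace Pool.Agent.U157.CC

open Pool.Agent.N770.CP Pool.Agent.H541R3.ART Pool.Agent.W446.AS Pool.Agent.R389
  Pool.Agent.Helper606_LC

variable {G : Type} [Group G] [Fintype G] {X : Type} [MulAction G X]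

/-- `∑ χ(g⁻¹)` over the `g` with `g x = y`. -/
noncomputable def S (χ : G → ℂ) (x y : X) : ℂ := ∑ g : G, if g • x = y then χ g⁻¹ else 0

/-- the number of conjugates mapping `x` to `y`, as a complex function -/
noncomputable def cn (x y : X) (g : G) : ℂ := (cnt x y g : ℂ)

/-- the difference of the numbers for `y` and `c y` -/
noncomputable def dl (c : G) (x y : X) (g : G) : ℂ := cn x y g - cn x (c • y) g

lemma irr_cyc {χ : G → ℂ} (hχ : χ ∈ Irr G) (a b : G) : χ (a * b) = χ (b * a) := by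
  have := Irr.conj hχ (b * a) a
  rw [← this]
  congr 1
  group

lemma cn_conj (x y : X) (g u : G) : cn x y (u * g * u⁻¹) = cn x y g := by
  unfold cn cnt
  congr 1
  refine Finset.card_bijective (fun h => u⁻¹ * h) (Group.mulLeft_bijective u⁻¹) (fun h => ?_)
  simp only [Finset.mem_filter, Finset.mem_univ, true_and]
  have h1 : (u⁻¹ * h)⁻¹ * g * (u⁻¹ * h) = h⁻¹ * (u * g * u⁻¹) * h := by group
  rw [h1]

lemma dl_conj (c : G) (x y : X) (g u : G) : dl c x y (u * g * u⁻¹) = dl c x y g := by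
  unfold dl
  rw [cn_conj, cn_conj]

lemma pr_cn {χ : G → ℂ} (hχ : χ ∈ Irr G) (x y : X) : pr (cn x y) χ = S χ x y := by
  rw [pr_eq]
  have h1 : ∀ g : G, cn x y g * χ g⁻¹ =
      ∑ h : G, if (h⁻¹ * g * h) • x = y then χ g⁻¹ else 0 := by
    intro g
    unfold cn cnt
    rw [Finset.card_filter, Nat.cast_sum, Finset.sum_mul]
    refine Finset.sum_congr rfl fun h _ => ?_
    split_ifs <;> simp
  rw [Finset.sum_congr rfl fun g _ => h1 g, Finset.sum_comm]
  have h2 : ∀ h : G, (∑ g : G, if (h⁻¹ * g * h) • x = y then χ g⁻¹ else 0) = S χ x y := by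
    intro h
    unfold S
    rw [← Equiv.sum_comp (MulAut.conj h).toEquiv]
    refine Finset.sum_congr rfl fun g _ => ?_
    change (if (h⁻¹ * (h * g * h⁻¹) * h) • x = y then χ (h * g * h⁻¹)⁻¹ else 0) = _
    have e1 : h⁻¹ * (h * g * h⁻¹) * h = g := by group
    have e2 : (h * g * h⁻¹)⁻¹ = h * g⁻¹ * h⁻¹ := by group
    rw [e1, e2, Irr.conj hχ]
  rw [Finset.sum_congr rfl fun h _ => h2 h, Finset.sum_const, Finset.card_univ, nsmul_eq_mul,
    ← mul_assoc, ← Nat.card_eq_fintype_card, inv_mul_cancel₀ card_ne, one_mul]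

/-- the irreducible characters on which `c` acts as `-1` -/
def IsOdd (c : G) (χ : G → ℂ) : Prop := ∀ g, χ (c * g) = - χ g

lemma even_or_odd {c : G} (hc : ∀ g, c * g = g * c) (hc2 : c * c = 1) {χ : G → ℂ}
    (hχ : χ ∈ Irr G) : (∀ g, χ (c * g) = χ g) ∨ IsOdd c χ := by
  obtain ⟨n, ρ, hρ, rfl⟩ := hχ
  have hI := (irred_iff ρ).mpr hρ
  obtain ⟨s, hs⟩ := hI.scalar (ρ c) (by
    intro g v
    rw [← Module.End.mul_apply, ← Module.End.mul_apply, ← map_mul, ← map_mul, hc])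
  have hn := hI.1
  obtain ⟨v, hv⟩ := exists_ne (0 : Fin n → ℂ)
  have h1 : s * s = 1 := by
    have h2 : ρ (c * c) v = v := by rw [hc2, map_one]; rfl
    rw [map_mul, Module.End.mul_apply, hs, hs, smul_smul] at h2
    have h3 : (s * s - 1) • v = 0 := by rw [sub_smul, h2, one_smul, sub_self]
    rcases smul_eq_zero.mp h3 with h4 | h4
    · exact sub_eq_zero.mp h4
    · exact absurd h4 hv
  have h2 : ∀ g, ρ.character (c * g) = s * ρ.character g := by
    intro g
    change LinearMap.trace ℂ _ (ρ (c * g)) = s * LinearMap.trace ℂ _ (ρ g)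
    have h3 : ρ (c * g) = s • ρ g := by
      refine LinearMap.ext fun v => ?_
      rw [map_mul, Module.End.mul_apply, hs]
      rfl
    rw [h3, map_smul, smul_eq_mul]
  rcases mul_self_eq_one_iff.mp h1 with h | h
  · left
    intro g
    rw [h2, h, one_mul]
  · right
    intro g
    rw [h2, h, neg_one_mul]

lemma S_c {c : G} (hc : ∀ g, c * g = g * c) (hc2 : c * c = 1) (χ : G → ℂ) (x y : X) :
    S χ x (c • y) = S (fun g => χ (c * g)) x y := by
  have hci : c⁻¹ = c := by rw [inv_eq_iff_mul_eq_one, hc2]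
  unfold S
  rw [← Equiv.sum_comp (Equiv.mulLeft c)]
  refine Finset.sum_congr rfl fun g _ => ?_
  change (if (c * g) • x = c • y then χ (c * g)⁻¹ else 0) = if g • x = y then χ (c * g⁻¹) else 0
  have e1 : (c * g)⁻¹ = c * g⁻¹ := by rw [mul_inv_rev, hci, ← hc]
  rw [e1, mul_smul]
  by_cases h : g • x = y
  · rw [if_pos h, if_pos (by rw [h])]
  · rw [if_neg h, if_neg (fun h' => h (MulAction.injective c h'))]

lemma pr_sub' (a b χ : G → ℂ) : pr (fun g => a g - b g) χ = pr a χ - pr b χ := pr_sub a b χ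

lemma pr_dl_even {c : G} (hc : ∀ g, c * g = g * c) (hc2 : c * c = 1) {χ : G → ℂ}
    (hχ : χ ∈ Irr G) (he : ∀ g, χ (c * g) = χ g) (x y : X) : pr (dl c x y) χ = 0 := by
  have h1 : pr (dl c x y) χ = pr (cn x y) χ - pr (cn x (c • y)) χ := pr_sub _ _ _
  rw [h1, pr_cn hχ, pr_cn hχ, S_c hc hc2]
  have : (fun g => χ (c * g)) = χ := funext he
  rw [this, sub_self]

lemma pr_dl_odd {c : G} (hc : ∀ g, c * g = g * c) (hc2 : c * c = 1) {χ : G → ℂ}
    (hχ : χ ∈ Irr G) (ho : IsOdd c χ) (x y : X) : pr (dl c x y) χ = 2 * S χ x y := by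
  have h1 : pr (dl c x y) χ = pr (cn x y) χ - pr (cn x (c • y)) χ := pr_sub _ _ _
  rw [h1, pr_cn hχ, pr_cn hχ, S_c hc hc2]
  have h2 : (fun g => χ (c * g)) = fun g => - χ g := funext ho
  have h3 : S (fun g => - χ g) x y = - S χ x y := by
    unfold S
    rw [← Finset.sum_neg_distrib]
    refine Finset.sum_congr rfl fun g _ => ?_
    split_ifs <;> simp
  rw [h2, h3]
  ring

/-- Schur orthogonality in the form of a convolution -/
lemma conv {χ χ' : G → ℂ} (hχ : χ ∈ Irr G) (hχ' : χ' ∈ Irr G) : ∃ s : ℂ,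
    (∀ w, ∑ g : G, χ g * χ' (g⁻¹ * w) = s * χ' w) ∧ (χ ≠ χ' → s = 0) ∧ (χ = χ' → s ≠ 0) := by
  obtain ⟨n, ρ, hρ, h'⟩ := hχ'
  have hI := (irred_iff ρ).mpr hρ
  obtain ⟨s, hs, hs1⟩ := hI.class_op (θ := χ) (fun g x => Irr.conj hχ g x)
  have hn := hI.1
  have hpos : (Module.finrank ℂ (Fin n → ℂ) : ℂ) ≠ 0 := by
    exact_mod_cast (Module.finrank_pos (R := ℂ) (M := Fin n → ℂ)).ne'
  refine ⟨s, fun w => ?_, fun h => ?_, fun h => ?_⟩
  · have h1 : (∑ g : G, χ g • ρ g⁻¹) * ρ w = s • ρ w := by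
      refine LinearMap.ext fun v => ?_
      rw [Module.End.mul_apply, LinearMap.sum_apply, LinearMap.smul_apply, ← hs]
      rfl
    have h2 := congrArg (LinearMap.trace ℂ (Fin n → ℂ)) h1
    rw [Finset.sum_mul, map_sum, map_smul] at h2
    rw [h']
    change _ = s * LinearMap.trace ℂ _ (ρ w)
    rw [← smul_eq_mul, ← h2]
    refine Finset.sum_congr rfl fun g _ => ?_
    rw [smul_mul_assoc, map_smul, ← map_mul]
    rfl
  · have h1 : ∑ g : G, χ g * ρ.character g⁻¹ = 0 := by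
      rw [← h']
      exact pair_ne hχ ⟨n, ρ, hρ, h'⟩ h
    rw [h1] at hs1
    rcases mul_eq_zero.mp hs1.symm with h2 | h2
    · exact h2
    · exact absurd h2 hpos
  · intro h0
    have h1 : ∑ g : G, χ g * ρ.character g⁻¹ = (Nat.card G : ℂ) := by
      rw [← h', h]
      exact pair_self ⟨n, ρ, hρ, h'⟩
    rw [h1, h0, zero_mul] at hs1
    exact card_ne hs1

lemma S_conv {χ χ' : G → ℂ} (hχ' : χ' ∈ Irr G) {s : ℂ}
    (hs : ∀ w, ∑ g : G, χ g * χ' (g⁻¹ * w) = s * χ' w) (x y : X) :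
    ∑ g : G, χ g * S χ' x (g • y) = s * S χ' x y := by
  have h1 : ∀ g : G, S χ' x (g • y) = ∑ k : G, if k • x = y then χ' (g⁻¹ * k⁻¹) else 0 := by
    intro g
    unfold S
    rw [← Equiv.sum_comp (Equiv.mulLeft g)]
    refine Finset.sum_congr rfl fun k _ => ?_
    change (if (g * k) • x = g • y then χ' (g * k)⁻¹ else 0) = _
    rw [mul_smul, mul_inv_rev, irr_cyc hχ']
    by_cases h : k • x = y
    · rw [if_pos h, if_pos (by rw [h])]
    · rw [if_neg h, if_neg (fun h' => h (MulAction.injective g h'))]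
  simp_rw [h1, Finset.mul_sum]
  rw [Finset.sum_comm, S, Finset.mul_sum]
  refine Finset.sum_congr rfl fun k _ => ?_
  by_cases h : k • x = y
  · simp only [if_pos h]
    exact hs _
  · simp only [if_neg h, mul_zero, Finset.sum_const_zero]

lemma indep {χ χ' : G → ℂ} (hχ : χ ∈ Irr G) (hχ' : χ' ∈ Irr G) (x : X)
    (h0 : S χ x x ≠ 0) (h : ∀ y, S χ x y = S χ' x y) : χ = χ' := by
  by_contra hne
  obtain ⟨s, hs, -, hs1⟩ := conv hχ hχ
  obtain ⟨s', hs', hs2, -⟩ := conv hχ hχ'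
  have e1 := S_conv hχ hs x x
  have e2 := S_conv hχ' hs' x x
  rw [hs2 hne, zero_mul] at e2
  rw [Finset.sum_congr rfl fun g _ => by rw [h (g • x)], e2] at e1
  rcases mul_eq_zero.mp e1.symm with h2 | h2
  · exact hs1 rfl h2
  · exact h0 h2

lemma S_inv (χ : G → ℂ) (x : X) : S (fun g => χ g⁻¹) x x = S χ x x := by
  unfold S
  rw [← Equiv.sum_comp (Equiv.inv G)]
  refine Finset.sum_congr rfl fun g _ => ?_
  change (if g⁻¹ • x = x then χ g⁻¹⁻¹⁻¹ else 0) = _
  rw [inv_inv]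
  by_cases h : g • x = x
  · rw [if_pos h, if_pos (by rw [inv_smul_eq_iff, h])]
  · rw [if_neg h, if_neg (fun h' => h (by rw [inv_smul_eq_iff] at h'; exact h'.symm))]

lemma indep2 {χ χ₁ χ' χ₁' : G → ℂ} (hχ : χ ∈ Irr G) (hχ₁ : χ₁ ∈ Irr G) (hχ' : χ' ∈ Irr G)
    (hχ₁' : χ₁' ∈ Irr G) (x : X) (h0 : S χ x x ≠ 0)
    (h : ∀ y, S χ x y + S χ₁ x y = S χ' x y + S χ₁' x y) : χ = χ' ∨ χ = χ₁' := by
  by_contra hne
  push Not at hne
  obtain ⟨hne, hne1⟩ := hne
  obtain ⟨s, hs, -, hs1⟩ := conv hχ hχ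
  obtain ⟨t, ht, ht1, -⟩ := conv hχ hχ₁
  obtain ⟨s', hs', hs2, -⟩ := conv hχ hχ'
  obtain ⟨t', ht', ht2, -⟩ := conv hχ hχ₁'
  have e1 := S_conv hχ hs x x
  have e2 := S_conv hχ₁ ht x x
  have e3 := S_conv hχ' hs' x x
  have e4 := S_conv hχ₁' ht' x x
  rw [hs2 hne, zero_mul] at e3
  rw [ht2 hne1, zero_mul] at e4
  have e5 : s * S χ x x + t * S χ₁ x x = 0 := by
    rw [← e1, ← e2, ← Finset.sum_add_distrib]
    have : ∀ g : G, χ g * S χ x (g • x) + χ g * S χ₁ x (g • x) =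
        χ g * S χ' x (g • x) + χ g * S χ₁' x (g • x) := by
      intro g
      rw [← mul_add, h, mul_add]
    rw [Finset.sum_congr rfl fun g _ => this g, Finset.sum_add_distrib, e3, e4, add_zero]
  by_cases h1 : χ = χ₁
  · subst h1
    have h2 : s = t := by
      obtain ⟨n, ρ, hρ, hρ'⟩ := hχ
      have hI := (irred_iff ρ).mpr hρ
      have hn := hI.1
      have h3 : χ 1 ≠ 0 := by
        rw [hρ']
        change LinearMap.trace ℂ _ (ρ 1) ≠ 0
        rw [map_one, LinearMap.trace_one]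
        exact_mod_cast (Module.finrank_pos (R := ℂ) (M := Fin n → ℂ)).ne'
      have h4 := hs 1
      rw [ht 1] at h4
      exact (mul_right_cancel₀ h3 h4).symm
    rw [← h2, ← mul_add, ← two_mul] at e5
    rcases mul_eq_zero.mp e5 with h3 | h3
    · exact hs1 rfl h3
    · rcases mul_eq_zero.mp h3 with h4 | h4
      · norm_num at h4
      · exact h0 h4
  · rw [ht1 h1, zero_mul, add_zero] at e5
    rcases mul_eq_zero.mp e5 with h3 | h3
    · exact hs1 rfl h3
    · exact h0 h3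

end Pool.Agent.U157.CC
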