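import Pool.Agent.U157.CC.Core

/-!
# The invariance under power maps in terms of the irreducible characters
-/

set_option autoImplicit false
set_option linter.unusedSectionVars false

open scoped Classical commutatorElement

namespace Pool.Agent.U157.CC

open Pool.Agent.N770.CP Pool.Agent.H541R3.ART Pool.Agent.W446.AS Pool.Agent.R389
  Pool.Agent.Helper606_LC

variable {G : Type} [Group G] [Fintype G]


lemma hN0 : 0 < Nat.card G := Nat.card_pos

lemma pr_add_left (a b χ : G → ℂ) : pr (fun g => a g + b g) χ = pr a χ + pr b χ := pr_add a b χ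

/-- a function on the group, twisted -/
lemma pr_twist (k : (ZMod (Nat.card G))ˣ) (f χ : G → ℂ) :
    pr (pw k f) χ = pr f (pw k⁻¹ χ) := by
  have h1 := pr_pw (G := G) (dvd_refl _) k f (pw k⁻¹ χ)
  rw [← pw_mul hN0 (dvd_refl _), mul_inv_cancel, pw_one hN0 (dvd_refl _)] at h1
  exact h1

lemma pw_class {f : G → ℂ} (hf : ∀ g u : G, f (u * g * u⁻¹) = f g) (k : (ZMod (Nat.card G))ˣ)
    (g u : G) : pw k f (u * g * u⁻¹) = pw k f g := by
  unfold pw
  rw [conj_pow, hf]

/-- invariance under all power maps -/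
lemma inv_iff {f : G → ℂ} (hf : ∀ g u : G, f (u * g * u⁻¹) = f g) :
    (∀ (k : (ZMod (Nat.card G))ˣ) (g : G), f (g ^ (k : ZMod (Nat.card G)).val) = f g) ↔
      ∀ (k : (ZMod (Nat.card G))ˣ), ∀ χ ∈ Irr G, pr f (pw k χ) = pr f χ := by
  constructor
  · intro h k χ hχ
    have h1 : pw k⁻¹ f = f := funext fun g => h k⁻¹ g
    have h2 := pr_twist k⁻¹ f χ
    rw [h1, inv_inv] at h2
    exact h2.symm
  · intro h k g
    have h1 : pw k f - f = 0 := by
      apply class_zero
      · intro g u
        rw [Pi.sub_apply, Pi.sub_apply, pw_class hf, hf]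
      · intro χ hχ
        rw [pr_sub, pr_twist, h _ χ hχ, sub_self]
    have h2 := congrFun h1 g
    rw [Pi.sub_apply] at h2
    exact sub_eq_zero.mp h2

/-- an irreducible character which is not linear has no invariants of the commutator subgroup -/
lemma comm_sum {χ : G → ℂ} (hχ : χ ∈ Irr G) (h1 : χ 1 ≠ 1) (g : G) :
    ∑ z : commutator G, χ (g * z) = 0 := by
  obtain ⟨n, ρ, hρ, rfl⟩ := hχ
  have hI := (irred_iff ρ).mpr hρ
  have hn := hI.1
  let T : (Fin n → ℂ) →ₗ[ℂ] (Fin n → ℂ) := ∑ z : commutator G, ρ z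
  have hTv : ∀ v, T v = ∑ z : commutator G, ρ z v := fun v => by
    simp only [T, LinearMap.sum_apply]
  have hkT : ∀ (k : commutator G) (v), ρ k (T v) = T v := by
    intro k v
    rw [hTv, map_sum, ← Equiv.sum_comp (Equiv.mulLeft k) (fun z : commutator G => ρ z v)]
    refine Finset.sum_congr rfl fun z _ => ?_
    rw [← Module.End.mul_apply, ← map_mul]
    rfl
  have hcomm : ∀ g v, T (ρ g v) = ρ g (T v) := by
    intro g v
    rw [hTv, hTv, map_sum]
    let e : commutator G ≃ commutator G := (MulAut.conjNormal g : commutator G ≃* commutator G).toEquiv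
    rw [← Equiv.sum_comp e]
    refine Finset.sum_congr rfl fun z _ => ?_
    rw [← Module.End.mul_apply, ← Module.End.mul_apply, ← map_mul, ← map_mul]
    have h2 : ((e z : commutator G) : G) = g * z * g⁻¹ := MulAut.conjNormal_apply g z
    rw [h2]
    congr 2
    group
  obtain ⟨s, hs⟩ := hI.scalar T hcomm
  by_cases hs0 : s = 0
  · have hT0 : T = 0 := by
      refine LinearMap.ext fun v => ?_
      rw [hs, hs0, zero_smul]
      rfl
    have h2 : ∑ z : commutator G, ρ.character (g * z) = LinearMap.trace ℂ _ (ρ g * T) := by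
      simp only [T, Finset.mul_sum, map_sum]
      refine Finset.sum_congr rfl fun z _ => ?_
      rw [← map_mul]
      rfl
    rw [h2, hT0, mul_zero, map_zero]
  · exfalso
    -- the commutator subgroup acts trivially
    have htriv : ∀ (k : commutator G) v, ρ k v = v := by
      intro k v
      have h2 := hkT k v
      rw [hs, map_smul] at h2
      exact smul_right_injective _ hs0 h2
    have hcom : ∀ a b v, ρ a (ρ b v) = ρ b (ρ a v) := by
      intro a b v
      have h2 := htriv ⟨⁅a, b⁆, Subgroup.commutator_mem_commutator (Subgroup.mem_top _)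
        (Subgroup.mem_top _)⟩ (ρ b (ρ a v))
      rw [← h2]
      change _ = ρ ⁅a, b⁆ (ρ b (ρ a v))
      rw [← Module.End.mul_apply, ← Module.End.mul_apply, ← Module.End.mul_apply, ← map_mul,
        ← map_mul, ← map_mul]
      congr 2
      rw [commutatorElement_def]
      group
    have hscal : ∀ a, ∃ t : ℂ, ∀ v, ρ a v = t • v := fun a => hI.scalar (ρ a) (fun g v => hcom a g v)
    obtain ⟨v, hv⟩ := exists_ne (0 : Fin n → ℂ)
    have hspan : (Submodule.span ℂ {v} : Submodule ℂ (Fin n → ℂ)) = ⊤ := by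
      rcases hI.2 (Submodule.span ℂ {v}) (by
        intro g w hw
        obtain ⟨t, ht⟩ := hscal g
        rw [ht]
        exact Submodule.smul_mem _ _ hw) with h2 | h2
      · rw [Submodule.span_singleton_eq_bot] at h2
        exact absurd h2 hv
      · exact h2
    have hfin : Module.finrank ℂ (Fin n → ℂ) = 1 := by
      rw [← finrank_top, ← hspan]
      exact finrank_span_singleton hv
    apply h1
    change LinearMap.trace ℂ _ (ρ 1) = 1
    rw [map_one, LinearMap.trace_one, hfin, Nat.cast_one]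

/-- a linear character is constant on the cosets of the commutator subgroup -/
lemma lin_const {χ : G → ℂ} (hχ : χ ∈ Irr G) (h1 : χ 1 = 1) (g : G) (z : commutator G) :
    χ (g * z) = χ g := by
  obtain ⟨n, ρ, hρ, rfl⟩ := hχ
  change LinearMap.trace ℂ _ (ρ 1) = 1 at h1
  rw [map_one, LinearMap.trace_one] at h1
  have hfin : Module.finrank ℂ (Fin n → ℂ) = 1 := by exact_mod_cast h1
  have hn : Nontrivial (Fin n → ℂ) := Module.nontrivial_of_finrank_pos (R := ℂ) (by omega)
  have hsc : ∀ T : (Fin n → ℂ) →ₗ[ℂ] (Fin n → ℂ), ∃ t : ℂ, T = t • (1 : Module.End ℂ (Fin n → ℂ)) := by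
    intro T
    obtain ⟨t, ht⟩ := Module.End.exists_eigenvalue (K := ℂ) T
    refine ⟨t, ?_⟩
    obtain ⟨v, hv⟩ := ht.exists_hasEigenvector
    refine LinearMap.ext fun w => ?_
    obtain ⟨r, hr⟩ := (finrank_eq_one_iff_of_nonzero' v hv.2).mp hfin w
    rw [← hr, map_smul, hv.apply_eq_smul, LinearMap.smul_apply, Module.End.one_apply, smul_comm]
  let f : G →* (Module.End ℂ (Fin n → ℂ))ˣ := ρ.toHomUnits
  have hab : ∀ z ∈ commutator G, ρ z = 1 := by
    intro z hz
    have hle : commutator G ≤ (MonoidHom.ker f) := by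
      rw [commutator_def, Subgroup.commutator_le]
      intro a _ b _
      rw [MonoidHom.mem_ker, map_commutatorElement, commutatorElement_eq_one_iff_mul_comm]
      apply Units.ext
      change ρ a * ρ b = ρ b * ρ a
      obtain ⟨s, hs⟩ := hsc (ρ a)
      obtain ⟨t, ht⟩ := hsc (ρ b)
      rw [hs, ht, smul_mul_smul_comm, smul_mul_smul_comm, mul_comm s t]
    have := hle hz
    rw [MonoidHom.mem_ker] at this
    exact congrArg Units.val this
  change LinearMap.trace ℂ _ (ρ (g * z)) = LinearMap.trace ℂ _ (ρ g)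
  rw [map_mul, hab z z.2, mul_one]

/-- the twisted invariance -/
lemma twist_iff {f : G → ℂ} (hf : ∀ g u : G, f (u * g * u⁻¹) = f g) :
    (∀ (k : (ZMod (Nat.card G))ˣ) (g : G), ∀ z ∈ commutator G,
      f ((g * z) ^ (k : ZMod (Nat.card G)).val) - f (g * z) =
        f (g ^ (k : ZMod (Nat.card G)).val) - f g) ↔
      ∀ (k : (ZMod (Nat.card G))ˣ), ∀ χ ∈ Irr G, χ 1 ≠ 1 → pr f (pw k χ) = pr f χ := by
  have hD : ∀ (k : (ZMod (Nat.card G))ˣ) (g u : G), (pw k f - f) (u * g * u⁻¹) = (pw k f - f) g := by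
    intro k g u
    rw [Pi.sub_apply, Pi.sub_apply, pw_class hf, hf]
  constructor
  · intro h k χ hχ h1
    have h2 : pr (pw k⁻¹ f - f) χ = 0 := by
      rw [pr_eq]
      have hz : ∀ z : commutator G, ∑ g : G, (pw k⁻¹ f - f) g * χ g⁻¹ =
          ∑ g : G, (pw k⁻¹ f - f) g * χ (g⁻¹ * z) := by
        intro z
        rw [← Equiv.sum_comp (Equiv.mulRight (z⁻¹ : G))]
        refine Finset.sum_congr rfl fun g _ => ?_
        change (pw k⁻¹ f - f) (g * (z : G)⁻¹) * χ (g * (z : G)⁻¹)⁻¹ = _
        have e1 := h k⁻¹ g (z : G)⁻¹ (inv_mem z.2)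
        have e2 : (pw k⁻¹ f - f) (g * (z : G)⁻¹) = (pw k⁻¹ f - f) g := e1
        rw [e2, mul_inv_rev, inv_inv, irr_cyc hχ]
      have hsum : (Nat.card (commutator G) : ℂ) * ∑ g : G, (pw k⁻¹ f - f) g * χ g⁻¹ = 0 := by
        rw [Nat.card_eq_fintype_card, ← Finset.card_univ, ← nsmul_eq_mul, ← Finset.sum_const,
          Finset.sum_congr rfl fun z _ => hz z, Finset.sum_comm]
        refine Finset.sum_eq_zero fun g _ => ?_
        rw [← Finset.mul_sum, comm_sum hχ h1, mul_zero]
      rcases mul_eq_zero.mp hsum with h3 | h3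
      · exact absurd h3 (by exact_mod_cast Nat.card_pos.ne')
      · rw [h3, mul_zero]
    rw [pr_sub, pr_twist, inv_inv, sub_eq_zero] at h2
    exact h2
  · intro h k g z hz
    have h1 : ∀ g, (pw k f - f) g = ∑ χ ∈ irrF G, pr (pw k f - f) χ * χ g := class_expand (hD k)
    have h2 : (pw k f - f) (g * z) = (pw k f - f) g := by
      rw [h1, h1]
      refine Finset.sum_congr rfl fun χ hχ => ?_
      by_cases h3 : χ 1 = 1
      · rw [lin_const (mem_irrF.mp hχ) h3 g ⟨z, hz⟩]
      · have h4 : pr (pw k f - f) χ = 0 := by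
          rw [pr_sub, pr_twist, h _ χ (mem_irrF.mp hχ) h3, sub_self]
        rw [h4, zero_mul, zero_mul]
    exact h2

end Pool.Agent.U157.CC
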