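import Pool.Agent.U157.CC.Main
import Pool.Agent.W655.PG.Desc

/-!
# Characters with values in the rational numbers or in an imaginary quadratic field
-/

set_option autoImplicit false
set_option linter.unusedSectionVars false

open scoped Classical

namespace Pool.Agent.U157.CC

open Pool.Agent.H541R3.ART Pool.Agent.W446.AS Pool.Agent.R389 Pool.Agent.Helper606_LC

variable {G : Type} [Group G] [Finite G]

/-- all values are rational -/
def RatVal (χ : G → ℂ) : Prop := ∀ g, ∃ q : ℚ, χ g = q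

/-- the values are in `ℚ` or in an imaginary quadratic field -/
def QuadVal (χ : G → ℂ) : Prop :=
  ∃ d : ℕ, ∀ g, ∃ a b : ℚ, χ g = a + b * ((Real.sqrt d : ℝ) : ℂ) * Complex.I

/-- every automorphism acts by a power map -/
lemma aut_pw (σ : ℂ ≃+* ℂ) : ∃ k : (ZMod (Nat.card G))ˣ, ∀ χ ∈ Irr G, ∀ g, σ (χ g) = pw k χ g := by
  obtain ⟨k, hk⟩ := exists_pow_aut (N := Nat.card G) Nat.card_pos σ
  exact ⟨k, fun χ hχ g => irr_pow Nat.card_pos hk hχ (pow_card_dvd (dvd_refl _) g)⟩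

lemma pw_aut (k : (ZMod (Nat.card G))ˣ) : ∃ σ : ℂ ≃+* ℂ, ∀ χ ∈ Irr G, ∀ g, σ (χ g) = pw k χ g := by
  obtain ⟨σ, hσ⟩ := exists_aut_pow (N := Nat.card G) Nat.card_pos k
  exact ⟨σ, fun χ hχ g => irr_pow Nat.card_pos hσ hχ (pow_card_dvd (dvd_refl _) g)⟩

lemma rat_iff {χ : G → ℂ} (hχ : χ ∈ Irr G) :
    (∀ k : (ZMod (Nat.card G))ˣ, pw k χ = χ) ↔ RatVal χ := by
  constructor
  · intro h g
    obtain ⟨q, hq⟩ := Pool.Agent.W655.PG.rat_of_fixed (z := χ g) (fun σ => by
      obtain ⟨k, hk⟩ := aut_pw (G := G) σ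
      rw [hk χ hχ g, h k])
    exact ⟨q, hq.symm⟩
  · intro h k
    obtain ⟨σ, hσ⟩ := pw_aut (G := G) k
    funext g
    rw [← hσ χ hχ g]
    obtain ⟨q, hq⟩ := h g
    rw [hq, map_ratCast]

lemma pow_neg_one (g : G) : g ^ ((-1 : (ZMod (Nat.card G))ˣ) : ZMod (Nat.card G)).val = g⁻¹ := by
  have hne : NeZero (Nat.card G) := ⟨Nat.card_pos.ne'⟩
  rw [eq_inv_iff_mul_eq_one, ← pow_succ, ← orderOf_dvd_iff_pow_eq_one]
  refine (orderOf_dvd_natCard g).trans ?_
  rw [← ZMod.natCast_eq_zero_iff]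
  push_cast
  rw [ZMod.natCast_val, ZMod.cast_id]
  ring

lemma root_neg_one {z : ℂ} (hz : z ^ Nat.card G = 1) :
    (starRingAut : ℂ ≃+* ℂ) z = z ^ ((-1 : (ZMod (Nat.card G))ˣ) : ZMod (Nat.card G)).val := by
  have hne : NeZero (Nat.card G) := ⟨Nat.card_pos.ne'⟩
  have h1 : z * z ^ ((-1 : (ZMod (Nat.card G))ˣ) : ZMod (Nat.card G)).val = 1 := by
    rw [← pow_succ']
    have h2 : Nat.card G ∣ ((-1 : (ZMod (Nat.card G))ˣ) : ZMod (Nat.card G)).val + 1 := by
      rw [← ZMod.natCast_eq_zero_iff]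
      push_cast
      rw [ZMod.natCast_val, ZMod.cast_id]
      ring
    obtain ⟨t, ht⟩ := h2
    rw [ht, pow_mul, hz, one_pow]
  have h2 : z * starRingEnd ℂ z = 1 := by
    rw [Complex.mul_conj, Complex.normSq_eq_norm_sq, Complex.norm_eq_one_of_pow_eq_one hz
      Nat.card_pos.ne']
    norm_num
  have hz0 : z ≠ 0 := by
    rintro rfl
    rw [zero_mul] at h1
    exact zero_ne_one h1
  exact mul_left_cancel₀ hz0 (h2.trans h1.symm)

lemma char_inv' {χ : G → ℂ} (hχ : χ ∈ Irr G) (g : G) : χ g⁻¹ = starRingEnd ℂ (χ g) := by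
  have h1 := irr_pow (G := G) Nat.card_pos (σ := starRingAut) (fun z hz => root_neg_one hz) hχ
    (pow_card_dvd (dvd_refl _) g)
  rw [pow_neg_one] at h1
  exact h1.symm

lemma quad_iff {χ : G → ℂ} (hχ : χ ∈ Irr G) :
    (∀ k : (ZMod (Nat.card G))ˣ, pw k χ = χ ∨ pw k χ = fun g => χ g⁻¹) ↔ QuadVal χ := by
  constructor
  · intro h
    have hσ : ∀ σ : ℂ ≃+* ℂ, (∀ g, σ (χ g) = χ g) ∨ (∀ g, σ (χ g) = χ g⁻¹) := by
      intro σ
      obtain ⟨k, hk⟩ := aut_pw (G := G) σ
      rcases h k with h1 | h1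
      · left
        intro g
        rw [hk χ hχ g, h1]
      · right
        intro g
        rw [hk χ hχ g, h1]
    have hR : ∀ g, ∃ r : ℚ, (r : ℂ) = χ g + χ g⁻¹ := by
      intro g
      refine Pool.Agent.W655.PG.rat_of_fixed (fun σ => ?_)
      rw [map_add]
      rcases hσ σ with h1 | h1
      · rw [h1, h1]
      · rw [h1, h1, inv_inv, add_comm]
    choose r hr using hR
    by_cases hD : ∀ g, χ g - χ g⁻¹ = 0
    · refine ⟨0, fun g => ⟨r g / 2, 0, ?_⟩⟩
      have h1 := hr g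
      have h2 := hD g
      push_cast
      rw [h1]
      linear_combination (-(1:ℂ)/2) * h2 + h2
    push Not at hD
    obtain ⟨g₀, hg₀⟩ := hD
    have hP : ∀ g, ∃ p : ℚ, (p : ℂ) = (χ g - χ g⁻¹) * (χ g₀ - χ g₀⁻¹) := by
      intro g
      refine Pool.Agent.W655.PG.rat_of_fixed (fun σ => ?_)
      rw [map_mul, map_sub, map_sub]
      rcases hσ σ with h1 | h1
      · rw [h1, h1, h1, h1]
      · rw [h1, h1, h1, h1, inv_inv, inv_inv]
        ring
    choose p hp using hP
    set D := χ g₀ - χ g₀⁻¹ with hDdef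
    set t : ℝ := 2 * (χ g₀).im with ht
    have hDt : D = t * Complex.I := by
      rw [hDdef, char_inv' hχ]
      apply Complex.ext
      · simp
      · simp [ht]
        ring
    have ht0 : t ≠ 0 := by
      intro h0
      rw [h0] at hDt
      apply hg₀
      rw [hDt]
      simp
    have hp0 : ((p g₀ : ℝ)) = - t ^ 2 := by
      have h1 : ((p g₀ : ℝ) : ℂ) = ((- t ^ 2 : ℝ) : ℂ) := by
        have h2 := hp g₀
        rw [← hDdef, hDt] at h2
        push_cast
        rw [h2]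
        linear_combination (t : ℂ) ^ 2 * Complex.I_sq
      exact_mod_cast h1
    have hp0neg : p g₀ < 0 := by
      have h1 : ((p g₀ : ℝ)) < 0 := by
        rw [hp0]
        have := pow_pos (abs_pos.mpr ht0) 2
        rw [sq_abs] at this
        linarith
      exact_mod_cast h1
    -- `-p g₀ = m / n`
    set m : ℕ := (-(p g₀)).num.natAbs with hm
    set n : ℕ := (-(p g₀)).den with hn
    have hn0 : (n : ℝ) ≠ 0 := by
      rw [hn]
      exact_mod_cast (-(p g₀)).den_nz
    have hmn : (t ^ 2 : ℝ) = m / n := by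
      have h1 : (((-(p g₀) : ℚ)) : ℝ) = t ^ 2 := by
        push_cast
        rw [hp0]
        ring
      rw [← h1]
      have h2 : (-(p g₀) : ℚ) = (m : ℚ) / n := by
        have h3 : ((m : ℤ) : ℚ) = ((-(p g₀)).num : ℚ) := by
          rw [hm, Int.natAbs_of_nonneg (Rat.num_nonneg.mpr (by linarith))]
        rw [← Int.cast_natCast (R := ℚ) m, h3, hn, Rat.num_div_den]
      rw [h2]
      push_cast
      rfl
    have hsq : (Real.sqrt ((m * n : ℕ) : ℝ)) ^ 2 = (n * t) ^ 2 := by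
      rw [Real.sq_sqrt (Nat.cast_nonneg _), mul_pow, hmn]
      push_cast
      field_simp
    have hε : ∃ ε : ℚ, t = ε * Real.sqrt ((m * n : ℕ) : ℝ) := by
      rcases sq_eq_sq_iff_eq_or_eq_neg.mp hsq with h1 | h1
      · refine ⟨1 / n, ?_⟩
        rw [h1]
        push_cast
        field_simp
      · refine ⟨- (1 / n), ?_⟩
        rw [h1]
        push_cast
        field_simp
    obtain ⟨ε, hε⟩ := hε
    refine ⟨m * n, fun g => ⟨r g / 2, p g / p g₀ * ε / 2, ?_⟩⟩
    have h1 := hr g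
    have h2 : χ g - χ g⁻¹ = ((p g / p g₀ : ℚ) : ℂ) * D := by
      have h3 := hp g
      have h4 := hp g₀
      have hp00 : ((p g₀ : ℚ) : ℂ) ≠ 0 := by exact_mod_cast hp0neg.ne
      rw [← hDdef] at h4
      push_cast
      rw [h3, h4]
      field_simp
    have h5 : D = (ε : ℂ) * ((Real.sqrt ((m * n : ℕ) : ℝ) : ℝ) : ℂ) * Complex.I := by
      rw [hDt]
      congr 1
      rw [hε]
      push_cast
      rfl
    rw [h5] at h2
    push_cast at h1 h2 ⊢
    rw [h1]
    linear_combination (1 / 2 : ℂ) * h2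
  · rintro ⟨d, hd⟩ k
    obtain ⟨σ, hσ⟩ := pw_aut (G := G) k
    set s : ℂ := ((Real.sqrt d : ℝ) : ℂ) * Complex.I with hs
    have hs2 : s ^ 2 = - (d : ℂ) := by
      rw [hs, mul_pow, Complex.I_sq, ← Complex.ofReal_pow, Real.sq_sqrt (Nat.cast_nonneg d)]
      push_cast
      ring
    have h1 : (σ s) ^ 2 = s ^ 2 := by
      rw [← map_pow, hs2, map_neg, map_natCast]
    rcases sq_eq_sq_iff_eq_or_eq_neg.mp h1 with h2 | h2
    · left
      funext g
      rw [← hσ χ hχ g]
      obtain ⟨a, b, hab⟩ := hd g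
      rw [mul_assoc, ← hs] at hab
      rw [hab, map_add, map_mul, map_ratCast, map_ratCast, h2]
    · right
      funext g
      rw [← hσ χ hχ g, char_inv' hχ]
      obtain ⟨a, b, hab⟩ := hd g
      rw [mul_assoc, ← hs] at hab
      rw [hab, map_add, map_mul, map_ratCast, map_ratCast, h2, map_add, map_mul, map_ratCast,
        map_ratCast]
      congr 2
      rw [hs, map_mul, Complex.conj_ofReal, Complex.conj_I]
      ring

end Pool.Agent.U157.CC
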