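import Pool.Agent.U157.CC.Span
import Pool.Agent.U157.CC.Fld
import Pool.Agent.N770.CP.Fields2

/-!
# The exact criterion
-/

set_option autoImplicit false
set_option linter.unusedSectionVars false

open scoped Classical

namespace Pool.Agent.U157.CC

open Pool.Agent.N770.CP Pool.Agent.H541R3.ART Pool.Agent.W446.AS Pool.Agent.R389
  Pool.Agent.Helper606_LC

section grp

variable {G : Type} [Group G] [Fintype G] {X : Type} [MulAction G X]
  {c : G} (hc : ∀ g, c * g = g * c) (hc2 : c * c = 1) (hc1 : c ≠ 1)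

lemma zinv_iff (f : G → ℚ) : (∀ g g' : G, Subgroup.zpowers g = Subgroup.zpowers g' → f g = f g') ↔
    ∀ (k : (ZMod (Nat.card G))ˣ) (g : G),
      ((f (g ^ (k : ZMod (Nat.card G)).val) : ℚ) : ℂ) = (f g : ℂ) := by
  constructor
  · intro h k g
    rw [h _ _ (Pool.Agent.Q11.CZ.zpowers_pow (ZMod.val_coe_unit_coprime k) g)]
  · intro h g g' hgg
    obtain ⟨u, hu⟩ := Pool.Agent.Q11.CZ.exists_unit hgg
    rw [hu]
    have := h u g
    exact_mod_cast this.symm

lemma tw_iff (f : G → ℚ) : (∀ j : ℕ, j.Coprime (Nat.card G) → ∀ g : G, ∀ z ∈ commutator G,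
      f ((g * z) ^ j) - f (g * z) = f (g ^ j) - f g) ↔
    ∀ (k : (ZMod (Nat.card G))ˣ) (g : G), ∀ z ∈ commutator G,
      ((f ((g * z) ^ (k : ZMod (Nat.card G)).val) : ℚ) : ℂ) - (f (g * z) : ℚ) =
        (f (g ^ (k : ZMod (Nat.card G)).val) : ℚ) - (f g : ℚ) := by
  constructor
  · intro h k g z hz
    have := h _ (ZMod.val_coe_unit_coprime k) g z hz
    exact_mod_cast this
  · intro h j hj g z hz
    have h1 : ∀ g : G, g ^ ((ZMod.unitOfCoprime j hj : (ZMod (Nat.card G))ˣ) :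
        ZMod (Nat.card G)).val = g ^ j := by
      intro g
      rw [ZMod.coe_unitOfCoprime, ZMod.val_natCast]
      exact (pow_eq_pow_mod j (pow_card_dvd (dvd_refl _) g)).symm
    have := h (ZMod.unitOfCoprime j hj) g z hz
    rw [h1, h1] at this
    exact_mod_cast this

lemma dl_dq (x y : X) : dl c x y = fun g => ((dq c x y g : ℚ) : ℂ) := by
  funext g
  unfold dl dq cn
  push_cast
  rfl

lemma ds_dq (x y : X) : ds c x y = fun g => (((dq c x y + dq c y x : G → ℚ) g : ℚ) : ℂ) := by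
  funext g
  unfold ds
  rw [dl_dq, dl_dq, Pi.add_apply]
  push_cast
  rfl

lemma char_one {n : ℕ} (ρ : Representation ℂ G (Fin n → ℂ)) : ρ.character 1 = n := by
  change LinearMap.trace ℂ _ (ρ 1) = n
  rw [map_one, LinearMap.trace_one, Module.finrank_fin_fun]

include hc in
lemma odd_iff {n : ℕ} {ρ : Representation ℂ G (Fin n → ℂ)} (hρ : ρ.IsIrreducible) :
    IsOdd c ρ.character ↔ ρ c = -1 := by
  have hI := (irred_iff ρ).mpr hρ
  have hn := hI.1
  constructor
  · intro h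
    obtain ⟨s, hs⟩ := hI.scalar (ρ c) (by
      intro g v
      rw [← Module.End.mul_apply, ← Module.End.mul_apply, ← map_mul, ← map_mul, hc])
    have h1 : ρ c = s • (1 : Module.End ℂ (Fin n → ℂ)) := by
      refine LinearMap.ext fun v => ?_
      rw [hs]
      rfl
    have h2 := h 1
    rw [mul_one, char_one] at h2
    have h3 : ρ.character c = s * n := by
      change LinearMap.trace ℂ _ (ρ c) = _
      rw [h1, map_smul, LinearMap.trace_one, Module.finrank_fin_fun, smul_eq_mul]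
    have hn0 : (n : ℂ) ≠ 0 := by
      have := Module.finrank_pos (R := ℂ) (M := Fin n → ℂ)
      rw [Module.finrank_fin_fun] at this
      exact_mod_cast this.ne'
    have h4 : s = -1 := by
      apply mul_right_cancel₀ hn0
      rw [← h3, h2]
      ring
    refine LinearMap.ext fun v => ?_
    rw [hs, h4]
    simp
  · intro h g
    change LinearMap.trace ℂ _ (ρ (c * g)) = - LinearMap.trace ℂ _ (ρ g)
    have h1 : ρ (c * g) = - ρ g := by
      refine LinearMap.ext fun v => ?_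
      rw [map_mul, h]
      simp
    rw [h1, map_neg]

/-- an odd irreducible representation which occurs in the permutation representation on the orbit
of `x` -/
structure OddC (c : G) (x : X) {n : ℕ} (ρ : Representation ℂ G (Fin n → ℂ)) : Prop where
  irr : ρ.IsIrreducible
  odd : ρ c = -1
  occ : ∃ v : Fin n → ℂ, v ≠ 0 ∧ ∀ g : G, g • x = x → ρ g v = v

include hc in
lemma all_irr (x : X) (P : (G → ℂ) → Prop) :
    (∀ χ ∈ Irr G, IsOdd c χ → S χ x x ≠ 0 → P χ) ↔
      ∀ (n : ℕ) (ρ : Representation ℂ G (Fin n → ℂ)), OddC c x ρ → P ρ.character := by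
  constructor
  · intro h n ρ hρ
    exact h _ ⟨n, ρ, hρ.irr, rfl⟩ ((odd_iff hc hρ.irr).mpr hρ.odd)
      ((S_ne_zero_iff ρ x).mpr hρ.occ)
  · rintro h χ ⟨n, ρ, hρ, rfl⟩ ho h0
    exact h n ρ ⟨hρ, (odd_iff hc hρ).mp ho, (S_ne_zero_iff ρ x).mp h0⟩

include hc hc2 hc1 in
theorem grp_one [MulAction.IsPretransitive G X] (x₀ : X) :
    (∀ x y : X, ∀ g g' : G, Subgroup.zpowers g = Subgroup.zpowers g' → dq c x y g = dq c x y g') ↔
      ∀ (n : ℕ) (ρ : Representation ℂ G (Fin n → ℂ)), OddC c x₀ ρ → RatVal ρ.character := by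
  rw [← all_irr hc x₀ (fun χ => RatVal χ)]
  have h1 := crit_one hc hc2 hc1 x₀ (fun _ => True)
  have h2 : (∀ x y : X, ∀ g g' : G, Subgroup.zpowers g = Subgroup.zpowers g' →
      dq c x y g = dq c x y g') ↔ ∀ (x y : X) (k : (ZMod (Nat.card G))ˣ), ∀ χ ∈ Irr G, True →
        pr (dl c x y) (pw k χ) = pr (dl c x y) χ := by
    refine forall_congr' fun x => forall_congr' fun y => ?_
    rw [zinv_iff]
    have h3 := inv_iff (G := G) (f := dl c x y) (fun g u => dl_conj c x y g u)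
    rw [dl_dq] at h3 ⊢
    simp only [true_imp_iff]
    exact h3
  rw [h2, h1]
  refine forall_congr' fun χ => forall_congr' fun hχ => ?_
  rw [rat_iff hχ]
  tauto

include hc hc2 hc1 in
theorem grp_two [MulAction.IsPretransitive G X] (x₀ : X) :
    (∀ x y : X, ∀ j : ℕ, j.Coprime (Nat.card G) → ∀ g : G, ∀ z ∈ commutator G,
      dq c x y ((g * z) ^ j) - dq c x y (g * z) = dq c x y (g ^ j) - dq c x y g) ↔
      ∀ (n : ℕ) (ρ : Representation ℂ G (Fin n → ℂ)), OddC c x₀ ρ → n ≠ 1 →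
        RatVal ρ.character := by
  have h0 : (∀ (n : ℕ) (ρ : Representation ℂ G (Fin n → ℂ)), OddC c x₀ ρ → n ≠ 1 →
        RatVal ρ.character) ↔ ∀ (n : ℕ) (ρ : Representation ℂ G (Fin n → ℂ)), OddC c x₀ ρ →
        (ρ.character 1 ≠ 1 → RatVal ρ.character) := by
    refine forall_congr' fun n => forall_congr' fun ρ => forall_congr' fun _ => ?_
    rw [char_one, Ne, Ne, Nat.cast_eq_one]
  rw [h0, ← all_irr hc x₀ (fun χ => χ 1 ≠ 1 → RatVal χ)]
  have h1 := crit_one hc hc2 hc1 x₀ (fun χ => χ 1 ≠ 1)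
  have h2 : (∀ x y : X, ∀ j : ℕ, j.Coprime (Nat.card G) → ∀ g : G, ∀ z ∈ commutator G,
      dq c x y ((g * z) ^ j) - dq c x y (g * z) = dq c x y (g ^ j) - dq c x y g) ↔
      ∀ (x y : X) (k : (ZMod (Nat.card G))ˣ), ∀ χ ∈ Irr G, χ 1 ≠ 1 →
        pr (dl c x y) (pw k χ) = pr (dl c x y) χ := by
    refine forall_congr' fun x => forall_congr' fun y => ?_
    rw [tw_iff]
    have h3 := twist_iff (G := G) (f := dl c x y) (fun g u => dl_conj c x y g u)
    rw [dl_dq] at h3 ⊢
    exact h3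
  rw [h2, h1]
  refine forall_congr' fun χ => forall_congr' fun hχ => ?_
  rw [rat_iff hχ]
  tauto

include hc hc2 hc1 in
theorem grp_three [MulAction.IsPretransitive G X] (x₀ : X) :
    (∀ x y : X, ∀ g g' : G, Subgroup.zpowers g = Subgroup.zpowers g' →
      (dq c x y + dq c y x : G → ℚ) g = (dq c x y + dq c y x : G → ℚ) g') ↔
      ∀ (n : ℕ) (ρ : Representation ℂ G (Fin n → ℂ)), OddC c x₀ ρ → QuadVal ρ.character := by
  rw [← all_irr hc x₀ (fun χ => QuadVal χ)]
  have h1 := crit_two hc hc2 hc1 x₀ (fun _ => True)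
  have h2 : (∀ x y : X, ∀ g g' : G, Subgroup.zpowers g = Subgroup.zpowers g' →
      (dq c x y + dq c y x : G → ℚ) g = (dq c x y + dq c y x : G → ℚ) g') ↔
      ∀ (x y : X) (k : (ZMod (Nat.card G))ˣ), ∀ χ ∈ Irr G, True →
        pr (ds c x y) (pw k χ) = pr (ds c x y) χ := by
    refine forall_congr' fun x => forall_congr' fun y => ?_
    rw [zinv_iff]
    have h3 := inv_iff (G := G) (f := ds c x y) (fun g u => ds_conj c x y g u)
    rw [ds_dq] at h3 ⊢
    simp only [true_imp_iff]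
    exact h3
  rw [h2, h1]
  refine forall_congr' fun χ => forall_congr' fun hχ => ?_
  rw [← quad_iff hχ]
  exact ⟨fun h a b => h trivial a b, fun h _ a b => h a b⟩

include hc hc2 hc1 in
theorem grp_four [MulAction.IsPretransitive G X] (x₀ : X) :
    (∀ x y : X, ∀ j : ℕ, j.Coprime (Nat.card G) → ∀ g : G, ∀ z ∈ commutator G,
      (dq c x y + dq c y x : G → ℚ) ((g * z) ^ j) - (dq c x y + dq c y x : G → ℚ) (g * z) =
        (dq c x y + dq c y x : G → ℚ) (g ^ j) - (dq c x y + dq c y x : G → ℚ) g) ↔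
      ∀ (n : ℕ) (ρ : Representation ℂ G (Fin n → ℂ)), OddC c x₀ ρ → n ≠ 1 →
        QuadVal ρ.character := by
  have h0 : (∀ (n : ℕ) (ρ : Representation ℂ G (Fin n → ℂ)), OddC c x₀ ρ → n ≠ 1 →
        QuadVal ρ.character) ↔ ∀ (n : ℕ) (ρ : Representation ℂ G (Fin n → ℂ)), OddC c x₀ ρ →
        (ρ.character 1 ≠ 1 → QuadVal ρ.character) := by
    refine forall_congr' fun n => forall_congr' fun ρ => forall_congr' fun _ => ?_
    rw [char_one, Ne, Ne, Nat.cast_eq_one]
  rw [h0, ← all_irr hc x₀ (fun χ => χ 1 ≠ 1 → QuadVal χ)]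
  have h1 := crit_two hc hc2 hc1 x₀ (fun χ => χ 1 ≠ 1)
  have h2 : (∀ x y : X, ∀ j : ℕ, j.Coprime (Nat.card G) → ∀ g : G, ∀ z ∈ commutator G,
      (dq c x y + dq c y x : G → ℚ) ((g * z) ^ j) - (dq c x y + dq c y x : G → ℚ) (g * z) =
        (dq c x y + dq c y x : G → ℚ) (g ^ j) - (dq c x y + dq c y x : G → ℚ) g) ↔
      ∀ (x y : X) (k : (ZMod (Nat.card G))ˣ), ∀ χ ∈ Irr G, χ 1 ≠ 1 →
        pr (ds c x y) (pw k χ) = pr (ds c x y) χ := by
    refine forall_congr' fun x => forall_congr' fun y => ?_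
    rw [tw_iff]
    have h3 := twist_iff (G := G) (f := ds c x y) (fun g u => ds_conj c x y g u)
    rw [ds_dq] at h3 ⊢
    exact h3
  rw [h2, h1]
  refine forall_congr' fun χ => forall_congr' fun hχ => ?_
  rw [← quad_iff hχ]
  exact ⟨fun h a b q => h q a b, fun h q a b => h a b q⟩

include hc hc2 hc1 in
lemma dq_self (x : X) {g g' : G} (hgg : Subgroup.zpowers g = Subgroup.zpowers g') :
    dq c x x g = dq c x x g' := by
  have h1 : ∀ {g g' : G}, Subgroup.zpowers g = Subgroup.zpowers g' → cnt x x g = cnt x x g' := by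
    intro g g' hgg
    unfold cnt
    congr 1
    ext h
    simp only [Finset.mem_filter, Finset.mem_univ, true_and]
    have h2 : ∀ {g g' : G}, g' ∈ Subgroup.zpowers g → (h⁻¹ * g * h) • x = x →
        (h⁻¹ * g' * h) • x = x := by
      intro g g' hg' hx
      obtain ⟨i, rfl⟩ := hg'
      have h3 : h⁻¹ * g ^ i * h = (h⁻¹ * g * h) ^ i := by
        have := conj_zpow (a := h⁻¹) (b := g) (i := i)
        rw [inv_inv] at this
        exact this.symm
      change (h⁻¹ * g ^ i * h) • x = x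
      rw [h3]
      exact Subgroup.zpow_mem (MulAction.stabilizer G x) (MulAction.mem_stabilizer_iff.mpr hx) i
    exact ⟨h2 (hgg ▸ Subgroup.mem_zpowers g'), h2 (hgg ▸ Subgroup.mem_zpowers g)⟩
  have h2 : Subgroup.zpowers (c * g) = Subgroup.zpowers (c * g') := by
    obtain ⟨u, hu⟩ := Pool.Agent.Q11.CZ.exists_unit hgg
    rw [hu, ← c_pow hc hc2 hc1]
    exact (Pool.Agent.Q11.CZ.zpowers_pow (ZMod.val_coe_unit_coprime u) _).symm
  unfold dq
  rw [← cnt_c hc x x hc2, ← cnt_c hc x x hc2, h1 hgg, h1 h2]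

end grp

end Pool.Agent.U157.CC
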