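import Pool.Agent.U157.CC.Crit

/-!
# The criterion on the level of groups
-/

set_option autoImplicit false
set_option linter.unusedSectionVars false

open scoped Classical

namespace Pool.Agent.U157.CC

open Pool.Agent.N770.CP Pool.Agent.H541R3.ART Pool.Agent.W446.AS Pool.Agent.R389
  Pool.Agent.Helper606_LC

variable {G : Type} [Group G] [Fintype G] {X : Type} [MulAction G X]
  {c : G} (hc : ∀ g, c * g = g * c) (hc2 : c * c = 1) (hc1 : c ≠ 1)

include hc2 hc1 in
lemma odd_unit (k : (ZMod (Nat.card G))ˣ) : Odd (k : ZMod (Nat.card G)).val := by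
  have heven : 2 ∣ Nat.card G := by
    have h1 : orderOf c = 2 := by
      rw [orderOf_eq_prime_iff]
      exact ⟨by rw [pow_two, hc2], hc1⟩
    rw [← h1]
    exact orderOf_dvd_natCard c
  rw [← Nat.not_even_iff_odd, even_iff_two_dvd]
  intro h
  have := Nat.dvd_gcd h heven
  rw [ZMod.val_coe_unit_coprime k] at this
  exact absurd this (by norm_num)

include hc hc2 hc1 in
lemma c_pow (k : (ZMod (Nat.card G))ˣ) (g : G) :
    (c * g) ^ (k : ZMod (Nat.card G)).val = c * g ^ (k : ZMod (Nat.card G)).val := by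
  rw [(show Commute c g from hc g).mul_pow]
  congr 1
  obtain ⟨t, ht⟩ := odd_unit hc2 hc1 k
  rw [ht, pow_add, pow_mul, pow_two, hc2, one_pow, one_mul, pow_one]

include hc hc2 hc1 in
lemma pw_even {χ : G → ℂ} (he : ∀ g, χ (c * g) = χ g) (k : (ZMod (Nat.card G))ˣ) (g : G) :
    pw k χ (c * g) = pw k χ g := by
  unfold pw
  rw [c_pow hc hc2 hc1, he]

include hc hc2 hc1 in
lemma pw_odd {χ : G → ℂ} (he : IsOdd c χ) (k : (ZMod (Nat.card G))ˣ) : IsOdd c (pw k χ) := by
  intro g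
  unfold pw
  rw [c_pow hc hc2 hc1, he]

lemma S_pw (χ : G → ℂ) (k : (ZMod (Nat.card G))ˣ) (x : X) : S (pw k χ) x x = S χ x x := by
  unfold S
  rw [← (pw_bij (G := G) (dvd_refl _) k).sum_comp (fun g => if g • x = x then χ g⁻¹ else 0)]
  refine Finset.sum_congr rfl fun g _ => ?_
  change (if g • x = x then χ (g⁻¹ ^ _) else 0) = if g ^ _ • x = x then χ (g ^ _)⁻¹ else 0
  rw [inv_pow]
  have h1 : g • x = x ↔ g ^ (k : ZMod (Nat.card G)).val • x = x := by
    constructor
    · intro h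
      exact Subgroup.pow_mem (MulAction.stabilizer G x) (MulAction.mem_stabilizer_iff.mpr h) _
    · intro h
      have h2 : g ^ (k : ZMod (Nat.card G)).val ∈ MulAction.stabilizer G x :=
        MulAction.mem_stabilizer_iff.mpr h
      have h3 := Subgroup.pow_mem _ h2 ((k⁻¹ : (ZMod (Nat.card G))ˣ) : ZMod (Nat.card G)).val
      rw [← pow_val_mul hN0 (pow_card_dvd (dvd_refl _) g), mul_inv_cancel,
        pow_val_one hN0 (pow_card_dvd (dvd_refl _) g)] at h3
      exact MulAction.mem_stabilizer_iff.mp h3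
  by_cases h : g • x = x
  · rw [if_pos h, if_pos (h1.mp h)]
  · rw [if_neg h, if_neg (fun h' => h (h1.mpr h'))]

lemma inv_mem_irr {χ : G → ℂ} (hχ : χ ∈ Irr G) : (fun g => χ g⁻¹) ∈ Irr G := by
  have hne : NeZero (Nat.card G) := ⟨Nat.card_pos.ne'⟩
  have h1 := irr_pw (G := G) hN0 (dvd_refl _) (-1) hχ
  have h2 : pw (-1 : (ZMod (Nat.card G))ˣ) χ = fun g => χ g⁻¹ := by
    funext g
    change χ (g ^ ((-1 : (ZMod (Nat.card G))ˣ) : ZMod (Nat.card G)).val) = χ g⁻¹
    congr 1
    rw [eq_inv_iff_mul_eq_one, ← pow_succ, ← orderOf_dvd_iff_pow_eq_one]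
    refine (orderOf_dvd_natCard g).trans ?_
    rw [← ZMod.natCast_eq_zero_iff]
    push_cast
    rw [ZMod.natCast_val, ZMod.cast_id]
    ring
  rwa [h2] at h1

/-- no invariants of the stabiliser: all the sums vanish -/
lemma S_zero {χ : G → ℂ} (hχ : χ ∈ Irr G) {x : X} (h0 : S χ x x = 0) (y : X) : S χ x y = 0 := by
  obtain ⟨n, ρ, hρ, rfl⟩ := hχ
  by_cases hy : ∃ u : G, u • x = y
  swap
  · unfold S
    refine Finset.sum_eq_zero fun g _ => ?_
    rw [if_neg (fun h => hy ⟨g, h⟩)]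
  obtain ⟨u, rfl⟩ := hy
  let H : Finset G := Finset.univ.filter fun g : G => g • x = x
  let T : (Fin n → ℂ) →ₗ[ℂ] (Fin n → ℂ) := ∑ h ∈ H, ρ h
  have hmem : ∀ g, g ∈ H ↔ g • x = x := fun g => by simp [H]
  have hT : ∀ k ∈ H, ρ k * T = T := by
    intro k hk
    simp only [T, Finset.mul_sum]
    refine Finset.sum_bij (fun h _ => k * h) ?_ ?_ ?_ ?_
    · intro h hh
      rw [hmem] at hh hk ⊢
      rw [mul_smul, hh, hk]
    · intro a _ b _ h
      exact mul_left_cancel h
    · intro b hb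
      rw [hmem] at hb hk
      exact ⟨k⁻¹ * b, by rw [hmem, mul_smul, hb, inv_smul_eq_iff, hk], by group⟩
    · intro h _
      rw [← map_mul]
  have hTT : T * T = (H.card : ℂ) • T := by
    have h1 : T * T = ∑ h ∈ H, ρ h * T := by
      conv_lhs => rw [show T * T = (∑ h ∈ H, ρ h) * T from rfl, Finset.sum_mul]
    rw [h1, Finset.sum_congr rfl hT, Finset.sum_const, Nat.cast_smul_eq_nsmul]
  have hH0 : (H.card : ℂ) ≠ 0 := by
    have : 1 ∈ H := by rw [hmem, one_smul]
    exact_mod_cast (Finset.card_pos.mpr ⟨1, this⟩).ne'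
  have hinv : ∀ g, g ∈ H ↔ g⁻¹ ∈ H := by
    intro g
    rw [hmem, hmem, inv_smul_eq_iff]
    exact eq_comm
  have htr : LinearMap.trace ℂ _ T = 0 := by
    rw [← h0]
    unfold S
    rw [← Finset.sum_filter]
    simp only [T, map_sum]
    refine Finset.sum_bij (fun h _ => h⁻¹) ?_ ?_ ?_ ?_
    · intro h hh
      exact (hinv h).mp hh
    · intro a _ b _ h
      exact inv_injective h
    · intro b hb
      exact ⟨b⁻¹, (hinv b).mp hb, inv_inv b⟩
    · intro h _
      rw [inv_inv]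
      rfl
  have hidem : IsIdempotentElem ((H.card : ℂ)⁻¹ • T) := by
    unfold IsIdempotentElem
    rw [smul_mul_smul_comm, hTT, smul_smul]
    congr 1
    field_simp
  have hT0 : T = 0 := by
    have h1 := LinearMap.IsIdempotentElem.isProj_range _ hidem
    have h2 := h1.trace
    rw [map_smul, htr, smul_zero] at h2
    have h3 : Module.finrank ℂ (LinearMap.range ((H.card : ℂ)⁻¹ • T)) = 0 := by exact_mod_cast h2.symm
    rw [Submodule.finrank_eq_zero, LinearMap.range_eq_bot] at h3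
    rcases smul_eq_zero.mp h3 with h4 | h4
    · exact absurd h4 (inv_ne_zero hH0)
    · exact h4
  have h5 : S ρ.character x (u • x) = LinearMap.trace ℂ _ (T * ρ u⁻¹) := by
    have h6 : LinearMap.trace ℂ _ (T * ρ u⁻¹) = ∑ h ∈ H, ρ.character (h * u⁻¹) := by
      simp only [T, Finset.sum_mul, map_sum]
      refine Finset.sum_congr rfl fun h _ => ?_
      rw [← map_mul]
      rfl
    rw [h6]
    unfold S
    rw [← Finset.sum_filter]
    refine Finset.sum_bij (fun g _ => g⁻¹ * u) ?_ ?_ ?_ ?_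
    · intro g hg
      simp only [Finset.mem_filter, Finset.mem_univ, true_and] at hg
      rw [hmem, mul_smul, inv_smul_eq_iff, hg]
    · intro a _ b _ h
      exact inv_injective (mul_right_cancel h)
    · intro b hb
      rw [hmem] at hb
      refine ⟨u * b⁻¹, ?_, by group⟩
      simp only [Finset.mem_filter, Finset.mem_univ, true_and]
      rw [mul_smul, inv_smul_eq_iff.mpr hb.symm]
    · intro g _
      congr 1
      group
  rw [h5, hT0, zero_mul, map_zero]

/-- fixed vectors of the stabiliser -/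
lemma S_ne_zero_iff {n : ℕ} (ρ : Representation ℂ G (Fin n → ℂ)) (x : X) :
    S ρ.character x x ≠ 0 ↔ ∃ v : Fin n → ℂ, v ≠ 0 ∧ ∀ g : G, g • x = x → ρ g v = v := by
  let H : Finset G := Finset.univ.filter fun g : G => g • x = x
  let T : (Fin n → ℂ) →ₗ[ℂ] (Fin n → ℂ) := ∑ h ∈ H, ρ h
  have hmem : ∀ g, g ∈ H ↔ g • x = x := fun g => by simp [H]
  have hT : ∀ k ∈ H, ρ k * T = T := by
    intro k hk
    simp only [T, Finset.mul_sum]
    refine Finset.sum_bij (fun h _ => k * h) ?_ ?_ ?_ ?_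
    · intro h hh
      rw [hmem] at hh hk ⊢
      rw [mul_smul, hh, hk]
    · intro a _ b _ h
      exact mul_left_cancel h
    · intro b hb
      rw [hmem] at hb hk
      exact ⟨k⁻¹ * b, by rw [hmem, mul_smul, hb, inv_smul_eq_iff, hk], by group⟩
    · intro h _
      rw [← map_mul]
  have hTT : T * T = (H.card : ℂ) • T := by
    have h1 : T * T = ∑ h ∈ H, ρ h * T := by
      conv_lhs => rw [show T * T = (∑ h ∈ H, ρ h) * T from rfl, Finset.sum_mul]
    rw [h1, Finset.sum_congr rfl hT, Finset.sum_const, Nat.cast_smul_eq_nsmul]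
  have hH0 : (H.card : ℂ) ≠ 0 := by
    have : 1 ∈ H := by rw [hmem, one_smul]
    exact_mod_cast (Finset.card_pos.mpr ⟨1, this⟩).ne'
  have hinv : ∀ g, g ∈ H ↔ g⁻¹ ∈ H := by
    intro g
    rw [hmem, hmem, inv_smul_eq_iff]
    exact eq_comm
  have htr : S ρ.character x x = LinearMap.trace ℂ _ T := by
    unfold S
    rw [← Finset.sum_filter]
    simp only [T, map_sum]
    symm
    refine Finset.sum_bij (fun h _ => h⁻¹) ?_ ?_ ?_ ?_
    · intro h hh
      exact (hinv h).mp hh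
    · intro a _ b _ h
      exact inv_injective h
    · intro b hb
      exact ⟨b⁻¹, (hinv b).mp hb, inv_inv b⟩
    · intro h _
      rw [inv_inv]
      rfl
  have hidem : IsIdempotentElem ((H.card : ℂ)⁻¹ • T) := by
    unfold IsIdempotentElem
    rw [smul_mul_smul_comm, hTT, smul_smul]
    congr 1
    field_simp
  have h1 := LinearMap.IsIdempotentElem.isProj_range _ hidem
  have h2 := h1.trace
  rw [map_smul] at h2
  have h3 : S ρ.character x x =
      (H.card : ℂ) * Module.finrank ℂ (LinearMap.range ((H.card : ℂ)⁻¹ • T)) := by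
    rw [htr, ← h2, smul_eq_mul, ← mul_assoc, mul_inv_cancel₀ hH0, one_mul]
  rw [h3]
  constructor
  · intro h
    have h4 : Module.finrank ℂ (LinearMap.range ((H.card : ℂ)⁻¹ • T)) ≠ 0 := by
      intro h5
      rw [h5] at h
      exact h (by simp)
    have h5 : LinearMap.range ((H.card : ℂ)⁻¹ • T) ≠ ⊥ := by
      intro h6
      rw [h6] at h4
      exact h4 (finrank_bot _ _)
    obtain ⟨v, ⟨w, hw⟩, hv0⟩ := (Submodule.ne_bot_iff _).mp h5
    refine ⟨v, hv0, fun g hg => ?_⟩
    rw [← hw, LinearMap.smul_apply, map_smul, ← Module.End.mul_apply, hT g ((hmem g).mpr hg)]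
  · rintro ⟨v, hv0, hv⟩ h
    have h4 : (Module.finrank ℂ (LinearMap.range ((H.card : ℂ)⁻¹ • T)) : ℂ) = 0 := by
      rcases mul_eq_zero.mp h with h5 | h5
      · exact absurd h5 hH0
      · exact h5
    have h5 : Module.finrank ℂ (LinearMap.range ((H.card : ℂ)⁻¹ • T)) = 0 := by exact_mod_cast h4
    rw [Submodule.finrank_eq_zero, LinearMap.range_eq_bot] at h5
    have h6 : ((H.card : ℂ)⁻¹ • T) v = v := by
      rw [LinearMap.smul_apply]
      have h7 : T v = (H.card : ℂ) • v := by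
        simp only [T, LinearMap.sum_apply]
        rw [Finset.sum_congr rfl fun g hg => hv g ((hmem g).mp hg), Finset.sum_const,
          Nat.cast_smul_eq_nsmul]
      rw [h7, smul_smul, inv_mul_cancel₀ hH0, one_smul]
    rw [h5] at h6
    exact hv0 h6.symm

lemma S_base {χ : G → ℂ} (hχ : χ ∈ Irr G) (u : G) (x y : X) : S χ (u • x) (u • y) = S χ x y := by
  unfold S
  rw [← Equiv.sum_comp (MulAut.conj u).toEquiv]
  refine Finset.sum_congr rfl fun g _ => ?_
  change (if (u * g * u⁻¹) • (u • x) = u • y then χ (u * g * u⁻¹)⁻¹ else 0) = _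
  have e1 : (u * g * u⁻¹) • (u • x) = u • (g • x) := by
    rw [← mul_smul, ← mul_smul]
    congr 1
    group
  have e2 : (u * g * u⁻¹)⁻¹ = u * g⁻¹ * u⁻¹ := by group
  rw [e1, e2, Irr.conj hχ]
  by_cases h : g • x = y
  · rw [if_pos h, if_pos (by rw [h])]
  · rw [if_neg h, if_neg (fun h' => h (MulAction.injective u h'))]

include hc hc2 hc1 in
/-- **The criterion for single embeddings.** -/
theorem crit_one [MulAction.IsPretransitive G X] (x₀ : X) (Q : (G → ℂ) → Prop) :
    (∀ (x y : X) (k : (ZMod (Nat.card G))ˣ), ∀ χ ∈ Irr G, Q χ →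
        pr (dl c x y) (pw k χ) = pr (dl c x y) χ) ↔
      ∀ χ ∈ Irr G, Q χ → IsOdd c χ → S χ x₀ x₀ ≠ 0 → ∀ k : (ZMod (Nat.card G))ˣ, pw k χ = χ := by
  constructor
  · intro h χ hχ hQ ho h0 k
    have hk := irr_pw (G := G) hN0 (dvd_refl _) k hχ
    refine (indep hχ hk x₀ h0 (fun y => ?_)).symm
    have h1 := h x₀ y k χ hχ hQ
    rw [pr_dl_odd hc hc2 hk (pw_odd hc hc2 hc1 ho k), pr_dl_odd hc hc2 hχ ho] at h1
    exact (mul_left_cancel₀ (by norm_num) h1).symm
  · intro h x y k χ hχ hQ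
    have hk := irr_pw (G := G) hN0 (dvd_refl _) k hχ
    rcases even_or_odd hc hc2 hχ with he | ho
    · rw [pr_dl_even hc hc2 hk (pw_even hc hc2 hc1 he k), pr_dl_even hc hc2 hχ he]
    · rw [pr_dl_odd hc hc2 hk (pw_odd hc hc2 hc1 ho k), pr_dl_odd hc hc2 hχ ho]
      obtain ⟨u, hu⟩ := MulAction.exists_smul_eq G x₀ x
      have hb : S χ x x = S χ x₀ x₀ := by rw [← hu, S_base hχ]
      by_cases h0 : S χ x x = 0
      · rw [S_zero hχ h0, S_zero hk (by rw [S_pw, h0])]
      · rw [h χ hχ hQ ho (by rwa [← hb]) k]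

lemma S_swap (χ : G → ℂ) (x y : X) : S χ y x = S (fun g => χ g⁻¹) x y := by
  unfold S
  rw [← Equiv.sum_comp (Equiv.inv G)]
  refine Finset.sum_congr rfl fun g _ => ?_
  change (if g⁻¹ • y = x then χ g⁻¹⁻¹ else 0) = if g • x = y then χ g⁻¹⁻¹ else 0
  by_cases h : g • x = y
  · rw [if_pos h, if_pos (by rw [inv_smul_eq_iff, h])]
  · rw [if_neg h, if_neg (fun h' => h (by rw [inv_smul_eq_iff] at h'; exact h'.symm))]

/-- the sum of the two differences -/
noncomputable def ds (c : G) (x y : X) (g : G) : ℂ := dl c x y g + dl c y x g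

lemma ds_conj (c : G) (x y : X) (g u : G) : ds c x y (u * g * u⁻¹) = ds c x y g := by
  unfold ds
  rw [dl_conj, dl_conj]

lemma pr_ds (x y : X) (χ : G → ℂ) : pr (ds c x y) χ = pr (dl c x y) χ + pr (dl c y x) χ :=
  pr_add _ _ _

include hc hc2 hc1 in
/-- **The criterion for the sums over a CM type.** -/
theorem crit_two [MulAction.IsPretransitive G X] (x₀ : X) (Q : (G → ℂ) → Prop) :
    (∀ (x y : X) (k : (ZMod (Nat.card G))ˣ), ∀ χ ∈ Irr G, Q χ →
        pr (ds c x y) (pw k χ) = pr (ds c x y) χ) ↔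
      ∀ χ ∈ Irr G, Q χ → IsOdd c χ → S χ x₀ x₀ ≠ 0 → ∀ k : (ZMod (Nat.card G))ˣ,
        pw k χ = χ ∨ pw k χ = fun g => χ g⁻¹ := by
  constructor
  · intro h χ hχ hQ ho h0 k
    have hk := irr_pw (G := G) hN0 (dvd_refl _) k hχ
    have h2 := indep2 hχ (inv_mem_irr hχ) hk (inv_mem_irr hk) x₀ h0 (fun y => by
      have h1 := h x₀ y k χ hχ hQ
      rw [pr_ds, pr_ds, pr_dl_odd hc hc2 hk (pw_odd hc hc2 hc1 ho k), pr_dl_odd hc hc2 hχ ho,
        pr_dl_odd hc hc2 hk (pw_odd hc hc2 hc1 ho k), pr_dl_odd hc hc2 hχ ho, ← mul_add,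
        ← mul_add, S_swap (pw k χ) x₀ y, S_swap χ x₀ y] at h1
      exact (mul_left_cancel₀ (by norm_num) h1).symm)
    rcases h2 with h3 | h3
    · exact Or.inl h3.symm
    · right
      funext g
      have h4 := congrFun h3 g⁻¹
      simp only [inv_inv] at h4
      exact h4.symm
  · intro h x y k χ hχ hQ
    have hk := irr_pw (G := G) hN0 (dvd_refl _) k hχ
    rw [pr_ds, pr_ds]
    rcases even_or_odd hc hc2 hχ with he | ho
    · rw [pr_dl_even hc hc2 hk (pw_even hc hc2 hc1 he k), pr_dl_even hc hc2 hχ he,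
        pr_dl_even hc hc2 hk (pw_even hc hc2 hc1 he k), pr_dl_even hc hc2 hχ he]
    · rw [pr_dl_odd hc hc2 hk (pw_odd hc hc2 hc1 ho k), pr_dl_odd hc hc2 hχ ho,
        pr_dl_odd hc hc2 hk (pw_odd hc hc2 hc1 ho k), pr_dl_odd hc hc2 hχ ho]
      obtain ⟨u, hu⟩ := MulAction.exists_smul_eq G x₀ x
      obtain ⟨v, hv⟩ := MulAction.exists_smul_eq G x₀ y
      have hb : S χ x x = S χ x₀ x₀ := by rw [← hu, S_base hχ]
      have hb' : S χ y y = S χ x₀ x₀ := by rw [← hv, S_base hχ]
      by_cases h0 : S χ x₀ x₀ = 0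
      · rw [S_zero hχ (hb.trans h0), S_zero hk (by rw [S_pw, hb, h0]),
          S_zero hχ (hb'.trans h0), S_zero hk (by rw [S_pw, hb', h0])]
      · rcases h χ hχ hQ ho h0 k with h1 | h1
        · rw [h1]
        · rw [h1, S_swap (fun g => χ g⁻¹) x y, S_swap χ x y]
          simp only [inv_inv]
          exact add_comm _ _

end Pool.Agent.U157.CC
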