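import Pool.Agent.U157.CC.Trans3

/-!
# `2 p` points: an element with two cycles of length `p` and its eigenfunctions
-/

set_option autoImplicit false
set_option linter.unusedSectionVars false

open scoped Classical

namespace Pool.Agent.U157.CC

open Pool.Agent.N770.CP Pool.Agent.H541R3.ART Pool.Agent.W446.AS Pool.Agent.R389
  Pool.Agent.Helper606_LC

variable {G : Type} [Group G] [Fintype G] {X : Type} [Fintype X] [MulAction G X]
  {c : G} (hc : ∀ g, c * g = g * c) (hc2 : c * c = 1) (hc1 : c ≠ 1) (hcf : ∀ x : X, c • x ≠ x)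

section

variable [MulAction.IsPretransitive G X]

include hc hc2 hcf in
/-- an element which acts with two cycles of length `p` -/
lemma exists_cyc {p : ℕ} (hp : p.Prime) (hp2 : p ≠ 2) (hX : Fintype.card X = 2 * p) :
    ∃ g : G, (∀ y : X, g ^ p • y = y) ∧ ∀ y : X, g • y ≠ y := by
  haveI : Fact p.Prime := ⟨hp⟩
  have hX0 : 0 < Fintype.card X := by rw [hX]; exact Nat.mul_pos two_pos hp.pos
  obtain ⟨x⟩ := Fintype.card_pos_iff.mp hX0
  let R : Subgroup (Equiv.Perm X) := (MulAction.toPermHom G X).range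
  have hpre : MulAction.IsPretransitive R X := ⟨fun a b => by
    obtain ⟨g, hg⟩ := MulAction.exists_smul_eq G a b
    exact ⟨⟨MulAction.toPermHom G X g, ⟨g, rfl⟩⟩, hg⟩⟩
  have h1 := MulAction.card_orbit_mul_card_stabilizer_eq_card_group R x
  have h2 : Fintype.card (MulAction.orbit R x) = Fintype.card X := by
    rw [← Nat.card_eq_fintype_card, ← Nat.card_eq_fintype_card, MulAction.orbit_eq_univ]
    exact Nat.card_congr (Equiv.Set.univ X)
  rw [h2, hX] at h1
  have h3 : p ∣ Fintype.card R := by
    rw [← h1]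
    exact Dvd.dvd.mul_right (Dvd.intro_left 2 rfl) _
  obtain ⟨⟨π, g, hg⟩, hπ⟩ := exists_prime_orderOf_dvd_card p h3
  have hgp : ∀ y : X, g ^ p • y = y := by
    intro y
    have h4 : (⟨π, g, hg⟩ : R) ^ p = 1 := by rw [← hπ]; exact pow_orderOf_eq_one _
    have h5 : π ^ p = 1 := congrArg Subtype.val h4
    rw [← hg, ← map_pow] at h5
    have h6 := congrArg (fun e : Equiv.Perm X => e y) h5
    exact h6
  refine ⟨g, hgp, ?_⟩
  -- the fixed points
  let f : Function.End X := fun y => g • y
  have hfpow : ∀ (n : ℕ) (y : X), (f ^ n) y = g ^ n • y := by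
    intro n
    induction n with
    | zero => intro y; rw [pow_zero, pow_zero, one_smul]; rfl
    | succ n ih =>
      intro y
      rw [pow_succ, pow_succ, mul_smul]
      change (f ^ n) (g • y) = _
      rw [ih]
  have hf : f ^ p ^ 1 = 1 := by
    funext y
    rw [pow_one, hfpow, hgp]
    rfl
  have h4 := Equiv.Perm.card_fixedPoints_modEq hf
  let F := {y : X // g • y = y}
  have h5 : Fintype.card f.fixedPoints = Fintype.card F := Fintype.card_congr (Equiv.refl _)
  have hcF : ∀ y : F, g • (c • (y : X)) = c • (y : X) := by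
    intro y
    rw [← mul_smul, ← hc, mul_smul, y.2]
  let f' : Function.End F := fun y => ⟨c • (y : X), hcF y⟩
  have hf' : f' ^ 2 ^ 1 = 1 := by
    rw [pow_one, pow_two]
    funext y
    apply Subtype.ext
    change c • (c • (y : X)) = y
    rw [← mul_smul, hc2, one_smul]
  have h6 := Equiv.Perm.card_fixedPoints_modEq hf'
  have h7 : Fintype.card f'.fixedPoints = 0 := by
    rw [Fintype.card_eq_zero_iff]
    exact ⟨fun y => hcf y.1 (congrArg Subtype.val y.2)⟩
  rw [h7] at h6
  rw [h5, hX] at h4
  have h8 : 2 ∣ Fintype.card F := (Nat.modEq_zero_iff_dvd).mp h6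
  have h9 : p ∣ Fintype.card F := by
    have h10 : Fintype.card F ≡ 0 [MOD p] := h4.symm.trans ((Nat.modEq_zero_iff_dvd).mpr
      (Dvd.intro_left 2 rfl))
    exact (Nat.modEq_zero_iff_dvd).mp h10
  have h10 : 2 * p ∣ Fintype.card F :=
    Nat.Coprime.mul_dvd_of_dvd_of_dvd ((Nat.coprime_primes Nat.prime_two hp).mpr (Ne.symm hp2)) h8 h9
  intro y hy
  have h11 : 0 < Fintype.card F := Fintype.card_pos_iff.mpr ⟨⟨y, hy⟩⟩
  have h12 : Fintype.card F = Fintype.card X := by
    apply le_antisymm
    · exact Fintype.card_subtype_le _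
    · rw [hX]
      exact Nat.le_of_dvd h11 h10
  have h13 : ∀ y : X, g • y = y := by
    have h14 := (Fintype.bijective_iff_injective_and_card (Subtype.val : F → X)).mpr
      ⟨Subtype.val_injective, h12⟩
    intro y
    obtain ⟨z, hz⟩ := h14.2 y
    rw [← hz]
    exact z.2
  have h15 : π = 1 := by
    rw [← hg]
    ext y
    exact h13 y
  have h16 : (⟨π, g, hg⟩ : R) = 1 := Subtype.ext h15
  rw [h16, orderOf_one] at hπ
  exact hp.one_lt.ne hπ

end

/-- the situation: `g` has two cycles of length `p` on the `2 p` points, exchanged by `c` -/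
structure Cyc (c g : G) (X : Type) [Fintype X] [MulAction G X] (p : ℕ) : Prop where
  prime : p.Prime
  ne_two : p ≠ 2
  card : Fintype.card X = 2 * p
  per : ∀ y : X, g ^ p • y = y
  free : ∀ y : X, g • y ≠ y

section cyc

variable {g : G} {p : ℕ} (C : Cyc c g X p)

include C in
lemma pow_mod (y : X) (i : ℕ) : g ^ i • y = g ^ (i % p) • y := by
  conv_lhs => rw [← Nat.mod_add_div i p, pow_add, mul_smul, pow_mul]
  congr 1
  induction i / p with
  | zero => rw [pow_zero, one_smul]
  | succ n ih => rw [pow_succ, mul_smul, C.per, ih]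

include C in
lemma pow_fix {y : X} {i : ℕ} (h : g ^ i • y = y) : p ∣ i := by
  by_contra hi
  have hcop : Nat.Coprime i p := ((Nat.Prime.coprime_iff_not_dvd C.prime).mpr hi).symm
  have h1 : g ∈ MulAction.stabilizer G y := by
    have e1 : g ^ i ∈ MulAction.stabilizer G y := h
    have e2 : g ^ p ∈ MulAction.stabilizer G y := C.per y
    have e3 : (g ^ (Nat.gcd i p) : G) ∈ MulAction.stabilizer G y := by
      have := Nat.gcd_eq_gcd_ab i p
      have e4 : g ^ (Nat.gcd i p) = (g ^ i) ^ (Nat.gcdA i p) * (g ^ p) ^ (Nat.gcdB i p) := by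
        rw [← zpow_natCast, this, zpow_add, zpow_mul, zpow_mul, zpow_natCast, zpow_natCast]
      rw [e4]
      exact mul_mem (Subgroup.zpow_mem _ e1 _) (Subgroup.zpow_mem _ e2 _)
    rwa [hcop, pow_one] at e3
  exact C.free y h1

include C in
lemma pow_eq {y : X} {i j : ℕ} (h : g ^ i • y = g ^ j • y) : i ≡ j [MOD p] := by
  wlog hij : i ≤ j generalizing i j
  · exact (this h.symm (by omega)).symm
  obtain ⟨k, rfl⟩ := Nat.exists_eq_add_of_le hij
  rw [pow_add, mul_smul] at h
  have h1 := pow_fix C (MulAction.injective _ h).symm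
  exact (Nat.modEq_iff_dvd' hij).mpr (by rwa [Nat.add_sub_cancel_left])

include hc hc2 hcf C in
lemma pow_ne {x : X} (i j : ℕ) : g ^ i • x ≠ c • g ^ j • x := by
  intro h
  have hcg : ∀ (n : ℕ) (y : X), g ^ n • (c • y) = c • g ^ n • y := by
    intro n y
    have hcn : c * g ^ n = g ^ n * c := (Commute.pow_right (hc g) n)
    rw [← mul_smul, ← hcn, mul_smul]
  -- multiply by the missing power
  set k := (p - 1) * j with hk
  have h1 : g ^ (i + k) • x = c • x := by
    have e1 : g ^ (j + k) • x = x := by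
      have : j + k = p * j := by
        rw [hk]
        have := C.prime.pos
        obtain ⟨q, hq⟩ := Nat.exists_eq_add_of_le' this
        rw [hq]
        simp only [Nat.add_sub_cancel]
        ring
      rw [this, pow_mod C, Nat.mul_mod_right, pow_zero, one_smul]
    have e2 : g ^ (i + k) • x = g ^ k • (g ^ i • x) := by rw [add_comm, pow_add, mul_smul]
    have e3 : g ^ (j + k) • x = g ^ k • (g ^ j • x) := by rw [add_comm, pow_add, mul_smul]
    rw [e2, h, hcg, ← e3, e1]
  have h2 : g ^ (2 * (i + k)) • x = x := by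
    rw [two_mul, pow_add, mul_smul, h1, hcg, h1, ← mul_smul, hc2, one_smul]
  have h3 := pow_fix C h2
  have h4 : p ∣ i + k := by
    rcases (Nat.Prime.dvd_mul C.prime).mp h3 with h5 | h5
    · exact absurd ((Nat.prime_dvd_prime_iff_eq C.prime Nat.prime_two).mp h5) C.ne_two
    · exact h5
  have h5 : g ^ (i + k) • x = x := by
    rw [pow_mod C, Nat.mod_eq_zero_of_dvd h4, pow_zero, one_smul]
  rw [h5] at h1
  exact hcf x h1.symm

include hc hc2 hcf C in
/-- all points -/
lemma all_pts (x y : X) : ∃ i < p, y = g ^ i • x ∨ y = c • g ^ i • x := by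
  let f : Fin p × Bool → X := fun a => if a.2 then g ^ (a.1 : ℕ) • x else c • g ^ (a.1 : ℕ) • x
  have hinj : Function.Injective f := by
    rintro ⟨i, a⟩ ⟨j, b⟩ h
    have hcase : ∀ i j : Fin p, g ^ (i : ℕ) • x = g ^ (j : ℕ) • x → i = j := by
      intro i j h
      have h1 := pow_eq C h
      unfold Nat.ModEq at h1
      rw [Nat.mod_eq_of_lt i.2, Nat.mod_eq_of_lt j.2] at h1
      exact Fin.ext h1
    cases a <;> cases b
    · have h1 : c • g ^ (i : ℕ) • x = c • g ^ (j : ℕ) • x := h
      rw [hcase i j (MulAction.injective c h1)]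
    · have h1 : c • g ^ (i : ℕ) • x = g ^ (j : ℕ) • x := h
      exact absurd h1.symm (pow_ne hc hc2 hcf C _ _)
    · have h1 : g ^ (i : ℕ) • x = c • g ^ (j : ℕ) • x := h
      exact absurd h1 (pow_ne hc hc2 hcf C _ _)
    · rw [hcase i j h]
  have hcard : Fintype.card (Fin p × Bool) = Fintype.card X := by
    rw [Fintype.card_prod, Fintype.card_fin, Fintype.card_bool, C.card, mul_comm]
  have hbij := (Fintype.bijective_iff_injective_and_card f).mpr ⟨hinj, hcard⟩
  obtain ⟨⟨i, a⟩, ha⟩ := hbij.2 y
  refine ⟨i, i.2, ?_⟩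
  cases a
  · right
    exact ha.symm
  · left
    exact ha.symm

end cyc

end Pool.Agent.U157.CC
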