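import Pool.Agent.U157.CC.Prime1

/-!
# The eigenvalues of the odd constituents
-/

set_option autoImplicit false
set_option linter.unusedSectionVars false

open scoped Classical

namespace Pool.Agent.U157.CC

open Pool.Agent.N770.CP Pool.Agent.H541R3.ART Pool.Agent.W446.AS Pool.Agent.R389
  Pool.Agent.Helper606_LC

variable {G : Type} [Group G] [Fintype G] {X : Type} [Fintype X] [MulAction G X]
  {c : G} (hc : ∀ g, c * g = g * c) (hc2 : c * c = 1) (hc1 : c ≠ 1) (hcf : ∀ x : X, c • x ≠ x)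

/-- the odd function with the eigenvalue `z` and the value `1` at `x` -/
noncomputable def om (c g : G) (x : X) (z : ℂ) (y : X) : ℂ :=
  if h : ∃ i : ℕ, y = g ^ i • x then z ^ h.choose
  else if h' : ∃ i : ℕ, y = c • g ^ i • x then - z ^ h'.choose else 0

section cyc

variable [MulAction.IsPretransitive G X] {g : G} {p : ℕ} (C : Cyc c g X p)

lemma zpow_modEq {z : ℂ} {p : ℕ} (hz : z ^ p = 1) {i j : ℕ} (h : i ≡ j [MOD p]) : z ^ i = z ^ j := by
  rw [pow_eq_pow_mod i hz, pow_eq_pow_mod j hz, h]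

include C in
lemma om_pow {z : ℂ} (hz : z ^ p = 1) (x : X) (i : ℕ) : om c g x z (g ^ i • x) = z ^ i := by
  unfold om
  have h : ∃ j : ℕ, g ^ i • x = g ^ j • x := ⟨i, rfl⟩
  rw [dif_pos h]
  exact zpow_modEq hz (pow_eq C h.choose_spec).symm

include hc hc2 hcf C in
lemma om_cpow {z : ℂ} (hz : z ^ p = 1) (x : X) (i : ℕ) :
    om c g x z (c • g ^ i • x) = - z ^ i := by
  unfold om
  have h : ¬ ∃ j : ℕ, c • g ^ i • x = g ^ j • x := by
    rintro ⟨j, hj⟩
    exact pow_ne hc hc2 hcf C j i hj.symm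
  have h' : ∃ j : ℕ, c • g ^ i • x = c • g ^ j • x := ⟨i, rfl⟩
  rw [dif_neg h, dif_pos h']
  congr 1
  exact zpow_modEq hz (pow_eq C (MulAction.injective c h'.choose_spec)).symm

include C in
lemma om_base {z : ℂ} (hz : z ^ p = 1) (x : X) : om c g x z x = 1 := by
  have := om_pow C hz x 0
  rwa [pow_zero, one_smul, pow_zero] at this

include hc in
lemma cg_comm (n : ℕ) (y : X) : g ^ n • (c • y) = c • g ^ n • y := by
  have hcn : c * g ^ n = g ^ n * c := (Commute.pow_right (hc g) n)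
  rw [← mul_smul, ← hcn, mul_smul]

include hc hc2 hcf C in
lemma om_c {z : ℂ} (hz : z ^ p = 1) (x y : X) : om c g x z (c • y) = - om c g x z y := by
  have hcc : ∀ u : X, c • (c • u) = u := fun u => by rw [← mul_smul, hc2, one_smul]
  obtain ⟨i, -, h | h⟩ := all_pts hc hc2 hcf C x y
  · rw [h, om_cpow hc hc2 hcf C hz, om_pow C hz]
  · rw [h, hcc, om_cpow hc hc2 hcf C hz, om_pow C hz, neg_neg]

include hc hc2 hcf C in
lemma om_g {z : ℂ} (hz : z ^ p = 1) (x y : X) : om c g x z (g • y) = z * om c g x z y := by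
  obtain ⟨i, -, h | h⟩ := all_pts hc hc2 hcf C x y
  · rw [h, ← mul_smul, ← pow_succ', om_pow C hz, om_pow C hz, pow_succ']
  · have h1 : g • c • g ^ i • x = c • g ^ (i + 1) • x := by
      have := cg_comm (g := g) hc 1 (g ^ i • x)
      rw [pow_one] at this
      rw [this, ← mul_smul g, ← pow_succ']
    rw [h, h1, om_cpow hc hc2 hcf C hz, om_cpow hc hc2 hcf C hz, pow_succ']
    ring

include hc hc2 hcf C in
lemma om_unique {z : ℂ} (hz : z ^ p = 1) (x : X) (w : X → ℂ) (h1 : ∀ y, w (c • y) = - w y)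
    (h2 : ∀ y, w (g • y) = z * w y) (y : X) : w y = w x * om c g x z y := by
  have h3 : ∀ (i : ℕ), w (g ^ i • x) = w x * z ^ i := by
    intro i
    induction i with
    | zero => rw [pow_zero, one_smul, pow_zero, mul_one]
    | succ n ih => rw [pow_succ', mul_smul, h2, ih, pow_succ']; ring
  obtain ⟨i, -, h | h⟩ := all_pts hc hc2 hcf C x y
  · rw [h, h3, om_pow C hz]
  · rw [h, h1, h3, om_cpow hc hc2 hcf C hz]
    ring

/-- the eigenvalue of the sum of `χ` on the eigenfunction of `z` -/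
noncomputable def lam (c g : G) (x : X) (χ : G → ℂ) (z : ℂ) : ℂ := ∑ y : X, S χ x y * om c g x z y

include hc hc2 in
lemma S_cl {χ : G → ℂ} (hχ : χ ∈ Irr G) (ho : IsOdd c χ) (x y : X) :
    S χ (c • x) y = - S χ x y := by
  have hcc : c • (c • y) = y := by rw [← mul_smul, hc2, one_smul]
  have h1 := S_base hχ c x (c • y)
  rw [hcc] at h1
  rw [h1, S_cc hc hc2 ho]

include hc hc2 hcf C in
lemma S_om {χ : G → ℂ} (hχ : χ ∈ Irr G) (ho : IsOdd c χ) {z : ℂ} (hz : z ^ p = 1) (x w : X) :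
    ∑ y : X, S χ w y * om c g x z y = lam c g x χ z * om c g x z w := by
  refine om_unique hc hc2 hcf C hz x (fun w => ∑ y : X, S χ w y * om c g x z y) ?_ ?_ w
  · intro w
    change ∑ y : X, S χ (c • w) y * om c g x z y = - ∑ y : X, S χ w y * om c g x z y
    rw [← Finset.sum_neg_distrib]
    refine Finset.sum_congr rfl fun y _ => ?_
    rw [S_cl hc hc2 hχ ho]
    ring
  · intro w
    change ∑ y : X, S χ (g • w) y * om c g x z y = z * ∑ y : X, S χ w y * om c g x z y
    rw [← Equiv.sum_comp (MulAction.toPerm g), Finset.mul_sum]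
    refine Finset.sum_congr rfl fun y _ => ?_
    change S χ (g • w) (g • y) * om c g x z (g • y) = _
    rw [S_base hχ, om_g hc hc2 hcf C hz]
    ring

include hc hc2 hcf C in
/-- the product of two eigenvalues -/
lemma lam_mul {χ χ' : G → ℂ} (hχ : χ ∈ Irr G) (hχ' : χ' ∈ Irr G) (ho' : IsOdd c χ') {s : ℂ}
    (hs : ∀ w, ∑ g : G, χ g * χ' (g⁻¹ * w) = s * χ' w) {z : ℂ} (hz : z ^ p = 1) (x : X) :
    lam c g x χ z * lam c g x χ' z = s * lam c g x χ' z := by
  have h1 : ∑ y : X, S χ x y * (∑ w : X, S χ' y w * om c g x z w) =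
      lam c g x χ z * lam c g x χ' z := by
    have : ∀ y : X, S χ x y * (∑ w : X, S χ' y w * om c g x z w) =
        (S χ x y * om c g x z y) * lam c g x χ' z := by
      intro y
      rw [S_om hc hc2 hcf C hχ' ho' hz]
      ring
    rw [Finset.sum_congr rfl fun y _ => this y, ← Finset.sum_mul]
    rfl
  have h2 : ∑ y : X, S χ x y * (∑ w : X, S χ' y w * om c g x z w) = s * lam c g x χ' z := by
    simp_rw [Finset.mul_sum]
    rw [Finset.sum_comm]
    unfold lam
    rw [Finset.mul_sum]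
    refine Finset.sum_congr rfl fun w _ => ?_
    have h3 := S_mul (X := X) hs x w
    rw [← mul_assoc, ← h3, Finset.sum_mul]
    exact Finset.sum_congr rfl fun y _ => (mul_assoc _ _ _).symm
  rw [← h1, h2]

include hc hc2 hcf C in
/-- the eigenvalue is `0` or `|G| / χ(1)` -/
lemma lam_val {χ : G → ℂ} (hχ : χ ∈ Irr G) (ho : IsOdd c χ) {z : ℂ} (hz : z ^ p = 1) (x : X)
    (h0 : lam c g x χ z ≠ 0) : lam c g x χ z = Nat.card G / χ 1 :=
  mul_right_cancel₀ h0 (lam_mul hc hc2 hcf C hχ hχ ho (conv_val hχ) hz x)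

include hc hc2 hcf C in
/-- for each `z` at most one eigenvalue is not zero -/
lemma lam_uniq {χ χ' : G → ℂ} (hχ : χ ∈ Irr G) (hχ' : χ' ∈ Irr G) (ho' : IsOdd c χ')
    {z : ℂ} (hz : z ^ p = 1) (x : X) (h0 : lam c g x χ z ≠ 0) (h0' : lam c g x χ' z ≠ 0) :
    χ = χ' := by
  by_contra hne
  obtain ⟨s, hs, hs1, -⟩ := conv hχ hχ'
  have h1 := lam_mul hc hc2 hcf C hχ hχ' ho' hs hz x
  rw [hs1 hne, zero_mul] at h1
  rcases mul_eq_zero.mp h1 with h2 | h2
  · exact h0 h2
  · exact h0' h2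

lemma OC_of_lam {χ : G → ℂ} (hχ : χ ∈ Irr G) (ho : IsOdd c χ) {z : ℂ} {x : X}
    (h0 : lam c g x χ z ≠ 0) : OC c x χ := by
  refine ⟨hχ, ho, fun h1 => h0 ?_⟩
  unfold lam
  exact Finset.sum_eq_zero fun y _ => by rw [S_zero hχ h1, zero_mul]

include hc hc2 hcf C in
/-- for each `z` there is an odd constituent with a nonzero eigenvalue -/
lemma lam_exists {z : ℂ} (hz : z ^ p = 1) (x : X) :
    ∃ χ : G → ℂ, OC c x χ ∧ lam c g x χ z ≠ 0 := by
  by_contra hcon
  push Not at hcon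
  have h1 : ∑ y : X, (∑ ψ ∈ irrF G, pr (dl c x y) ψ * ψ 1) * om c g x z y = 0 := by
    have h2 : ∀ y : X, (∑ ψ ∈ irrF G, pr (dl c x y) ψ * ψ 1) * om c g x z y =
        ∑ ψ ∈ irrF G, ψ 1 * (pr (dl c x y) ψ * om c g x z y) := by
      intro y
      rw [Finset.sum_mul]
      exact Finset.sum_congr rfl fun ψ _ => by ring
    rw [Finset.sum_congr rfl fun y _ => h2 y, Finset.sum_comm]
    refine Finset.sum_eq_zero fun ψ hψ => ?_
    rw [← Finset.mul_sum]
    have hψ' := mem_irrF.mp hψ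
    rcases even_or_odd hc hc2 hψ' with he | ho
    · rw [Finset.sum_eq_zero fun y _ => by rw [pr_dl_even hc hc2 hψ' he, zero_mul], mul_zero]
    · have h3 : ∑ y : X, pr (dl c x y) ψ * om c g x z y = 2 * lam c g x ψ z := by
        unfold lam
        rw [Finset.mul_sum]
        exact Finset.sum_congr rfl fun y _ => by rw [pr_dl_odd hc hc2 hψ' ho]; ring
      rw [h3]
      by_cases h4 : lam c g x ψ z = 0
      · rw [h4, mul_zero, mul_zero]
      · exact absurd (hcon ψ (OC_of_lam hψ' ho h4)) h4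
  have h2 : ∑ y : X, (∑ ψ ∈ irrF G, pr (dl c x y) ψ * ψ 1) * om c g x z y =
      ∑ y ∈ ({x, c • x} : Finset X),
        (∑ ψ ∈ irrF G, pr (dl c x y) ψ * ψ 1) * om c g x z y := by
    symm
    refine Finset.sum_subset (Finset.subset_univ _) fun y _ hy => ?_
    rw [Finset.mem_insert, Finset.mem_singleton, not_or] at hy
    rw [sum_one hc hc2 hcf, if_neg hy.1, if_neg hy.2, zero_mul]
  rw [h2, Finset.sum_pair (Ne.symm (hcf x)), sum_one hc hc2 hcf, sum_one hc hc2 hcf, if_pos rfl,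
    if_neg (hcf x), if_pos rfl, om_c hc hc2 hcf C hz, om_base C hz] at h1
  have h3 : (2 : ℂ) * Nat.card G = 0 := by linear_combination h1
  rcases mul_eq_zero.mp h3 with h4 | h4
  · norm_num at h4
  · exact card_ne h4

include hc hc2 hcf C in
/-- the sum over all `z` -/
lemma lam_sum {ζ : ℂ} (hζ : IsPrimitiveRoot ζ p) (χ : G → ℂ) (hχ : χ ∈ Irr G) (ho : IsOdd c χ)
    (x : X) : ∑ t ∈ Finset.range p, lam c g x χ (ζ ^ t) = 2 * p * S χ x x := by
  have hz : ∀ t : ℕ, (ζ ^ t) ^ p = 1 := fun t => by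
    rw [← pow_mul, mul_comm, pow_mul, hζ.pow_eq_one, one_pow]
  have h0 : ∀ i : ℕ, ∑ t ∈ Finset.range p, (ζ ^ t) ^ i = if p ∣ i then (p : ℂ) else 0 := by
    intro i
    have h1 : ∀ t : ℕ, (ζ ^ t) ^ i = (ζ ^ i) ^ t := fun t => by
      rw [← pow_mul, mul_comm, pow_mul]
    rw [Finset.sum_congr rfl fun t _ => h1 t]
    by_cases h : p ∣ i
    · rw [if_pos h, (hζ.pow_eq_one_iff_dvd i).mpr h]
      simp
    · rw [if_neg h]
      have h2 : ζ ^ i ≠ 1 := fun e => h ((hζ.pow_eq_one_iff_dvd i).mp e)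
      have h3 := mul_neg_geom_sum (ζ ^ i) p
      rw [hz i, sub_self] at h3
      rcases mul_eq_zero.mp h3 with h4 | h4
      · exact absurd (sub_eq_zero.mp h4).symm h2
      · exact h4
  have h1 : ∀ y : X, y ≠ x → y ≠ c • x → ∑ t ∈ Finset.range p, om c g x (ζ ^ t) y = 0 := by
    intro y n1 n2
    obtain ⟨i, hi, h | h⟩ := all_pts hc hc2 hcf C x y
    · rw [Finset.sum_congr rfl fun t _ => by rw [h, om_pow C (hz t)], h0, if_neg]
      intro hd
      apply n1
      rw [h, Nat.eq_zero_of_dvd_of_lt hd hi, pow_zero, one_smul]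
    · rw [Finset.sum_congr rfl fun t _ => by rw [h, om_cpow hc hc2 hcf C (hz t)],
        Finset.sum_neg_distrib, h0, if_neg, neg_zero]
      intro hd
      apply n2
      rw [h, Nat.eq_zero_of_dvd_of_lt hd hi, pow_zero, one_smul]
  unfold lam
  rw [Finset.sum_comm]
  have h2 : ∀ y : X, ∑ t ∈ Finset.range p, S χ x y * om c g x (ζ ^ t) y =
      S χ x y * ∑ t ∈ Finset.range p, om c g x (ζ ^ t) y := fun y => (Finset.mul_sum _ _ _).symm
  rw [Finset.sum_congr rfl fun y _ => h2 y]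
  have h3 : ∑ y : X, S χ x y * ∑ t ∈ Finset.range p, om c g x (ζ ^ t) y =
      ∑ y ∈ ({x, c • x} : Finset X), S χ x y * ∑ t ∈ Finset.range p, om c g x (ζ ^ t) y := by
    symm
    refine Finset.sum_subset (Finset.subset_univ _) fun y _ hy => ?_
    rw [Finset.mem_insert, Finset.mem_singleton, not_or] at hy
    rw [h1 y hy.1 hy.2, mul_zero]
  have h4 : ∑ t ∈ Finset.range p, om c g x (ζ ^ t) x = p := by
    rw [Finset.sum_congr rfl fun t _ => om_base C (hz t) x]
    simp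
  have h5 : ∑ t ∈ Finset.range p, om c g x (ζ ^ t) (c • x) = - p := by
    rw [Finset.sum_congr rfl fun t _ => by rw [om_c hc hc2 hcf C (hz t), om_base C (hz t)]]
    simp
  rw [h3, Finset.sum_pair (Ne.symm (hcf x)), h4, h5, S_cc hc hc2 ho]
  ring

include hc hc2 hcf C in
/-- the action of an automorphism -/
lemma lam_gal {χ : G → ℂ} (hχ : χ ∈ Irr G) {z : ℂ} (hz : z ^ p = 1)
    (hpG : p ∣ Nat.card G) (x : X) (k : (ZMod (Nat.card G))ˣ) (h0 : lam c g x χ z ≠ 0) :
    lam c g x (pw k χ) (z ^ (k : ZMod (Nat.card G)).val) ≠ 0 := by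
  obtain ⟨σ, hσ⟩ := exists_aut_pow (N := Nat.card G) Nat.card_pos k
  have hσχ : ∀ g, σ (χ g) = pw k χ g := fun g =>
    irr_pow Nat.card_pos hσ hχ (pow_card_dvd (dvd_refl _) g)
  have hσz : ∀ w : ℂ, w ^ p = 1 → σ w = w ^ (k : ZMod (Nat.card G)).val := by
    intro w hw
    apply hσ
    obtain ⟨q, hq⟩ := hpG
    rw [hq, pow_mul, hw, one_pow]
  have hz' : (z ^ (k : ZMod (Nat.card G)).val) ^ p = 1 := by
    rw [← pow_mul, mul_comm, pow_mul, hz, one_pow]
  have h1 : σ (lam c g x χ z) = lam c g x (pw k χ) (z ^ (k : ZMod (Nat.card G)).val) := by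
    unfold lam
    rw [map_sum]
    refine Finset.sum_congr rfl fun y _ => ?_
    rw [map_mul]
    congr 1
    · unfold S
      rw [map_sum]
      refine Finset.sum_congr rfl fun g _ => ?_
      split_ifs
      · exact hσχ _
      · exact map_zero σ
    · obtain ⟨i, -, h | h⟩ := all_pts hc hc2 hcf C x y
      · rw [h, om_pow C hz, om_pow C hz', map_pow, hσz z hz]
      · rw [h, om_cpow hc hc2 hcf C hz, om_cpow hc hc2 hcf C hz', map_neg, map_pow, hσz z hz]
  rw [← h1]
  exact fun h => h0 ((map_eq_zero σ).mp h)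

end cyc

end Pool.Agent.U157.CC
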