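import Pool.Agent.U157.CC.Prime2

/-!
# The two cases
-/

set_option autoImplicit false
set_option linter.unusedSectionVars false

open scoped Classical

namespace Pool.Agent.U157.CC

open Pool.Agent.N770.CP Pool.Agent.H541R3.ART Pool.Agent.W446.AS Pool.Agent.R389
  Pool.Agent.Helper606_LC

variable {G : Type} [Group G] [Fintype G] {X : Type} [Fintype X] [MulAction G X]
  {c : G} (hc : ∀ g, c * g = g * c) (hc2 : c * c = 1) (hc1 : c ≠ 1) (hcf : ∀ x : X, c • x ≠ x)

/-- a character of degree one is multiplicative -/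
lemma lin_mul {χ : G → ℂ} (hχ : χ ∈ Irr G) (h1 : χ 1 = 1) (a b : G) : χ (a * b) = χ a * χ b := by
  obtain ⟨n, ρ, hρ, rfl⟩ := hχ
  change LinearMap.trace ℂ _ (ρ 1) = 1 at h1
  rw [map_one, LinearMap.trace_one] at h1
  have hfin : Module.finrank ℂ (Fin n → ℂ) = 1 := by exact_mod_cast h1
  have hn : Nontrivial (Fin n → ℂ) := Module.nontrivial_of_finrank_pos (R := ℂ) (by omega)
  have hsc : ∀ T : (Fin n → ℂ) →ₗ[ℂ] (Fin n → ℂ), ∃ t : ℂ, T = t • (1 : Module.End ℂ (Fin n → ℂ)) := by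
    intro T
    obtain ⟨t, ht⟩ := Module.End.exists_eigenvalue (K := ℂ) T
    refine ⟨t, ?_⟩
    obtain ⟨v, hv⟩ := ht.exists_hasEigenvector
    refine LinearMap.ext fun w => ?_
    obtain ⟨r, hr⟩ := (finrank_eq_one_iff_of_nonzero' v hv.2).mp hfin w
    rw [← hr, map_smul, hv.apply_eq_smul, LinearMap.smul_apply, Module.End.one_apply, smul_comm]
  change LinearMap.trace ℂ _ (ρ (a * b)) = LinearMap.trace ℂ _ (ρ a) * LinearMap.trace ℂ _ (ρ b)
  obtain ⟨s, hs⟩ := hsc (ρ a)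
  obtain ⟨t, ht⟩ := hsc (ρ b)
  rw [map_mul, hs, ht, smul_mul_smul_comm, one_mul, map_smul, map_smul, map_smul,
    LinearMap.trace_one, hfin]
  simp

/-- homomorphisms to the units give irreducible characters -/
lemma hom_irr (ψ : G →* ℂˣ) : (fun g => (ψ g : ℂ)) ∈ Irr G := by
  let ρ : Representation ℂ G (Fin 1 → ℂ) :=
    { toFun := fun g => (ψ g : ℂ) • (1 : Module.End ℂ (Fin 1 → ℂ))
      map_one' := by rw [map_one, Units.val_one, one_smul]
      map_mul' := fun a b => by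
        rw [map_mul, Units.val_mul, smul_mul_smul_comm, one_mul] }
  refine ⟨1, ρ, ?_, ?_⟩
  · rw [← irred_iff]
    have : IsSimpleOrder (Submodule ℂ (Fin 1 → ℂ)) :=
      is_simple_module_of_finrank_eq_one (Module.finrank_fin_fun ℂ)
    exact ⟨inferInstance, fun W _ => eq_bot_or_eq_top W⟩
  · funext g
    change _ = LinearMap.trace ℂ _ ((ψ g : ℂ) • (1 : Module.End ℂ (Fin 1 → ℂ)))
    rw [map_smul, LinearMap.trace_one, Module.finrank_fin_fun]
    simp

/-- a sign character which is odd and trivial on the stabiliser of `x` -/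
def HasSign (c : G) (x : X) : Prop :=
  ∃ ε : G →* ℤˣ, ε c = -1 ∧ ∀ h : G, h • x = x → ε h = 1

section cyc

variable [MulAction.IsPretransitive G X] {g : G} {p : ℕ} (C : Cyc c g X p)

include C in
lemma p_dvd (x : X) : p ∣ Nat.card G := by
  have h1 := MulAction.card_orbit_mul_card_stabilizer_eq_card_group G x
  have h2 : Fintype.card (MulAction.orbit G x) = Fintype.card X := by
    rw [← Nat.card_eq_fintype_card, ← Nat.card_eq_fintype_card, MulAction.orbit_eq_univ]
    exact Nat.card_congr (Equiv.Set.univ X)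
  rw [h2, C.card] at h1
  rw [Nat.card_eq_fintype_card, ← h1]
  exact Dvd.dvd.mul_right (Dvd.intro_left 2 rfl) _

/-- all the nontrivial `p`-th roots of unity are conjugate -/
lemma unit_exists {N p : ℕ} (hN : 0 < N) (hp : p.Prime) (hpN : p ∣ N) {z z' : ℂ} (hz : z ^ p = 1)
    (hz1 : z ≠ 1) (hz' : z' ^ p = 1) (hz1' : z' ≠ 1) :
    ∃ k : (ZMod N)ˣ, z ^ (k : ZMod N).val = z' := by
  have : Fact p.Prime := ⟨hp⟩
  have : NeZero N := ⟨hN.ne'⟩
  have hprim : IsPrimitiveRoot z p := by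
    rw [← orderOf_eq_prime hz hz1]
    exact IsPrimitiveRoot.orderOf z
  obtain ⟨j, hj, rfl⟩ := hprim.eq_pow_of_pow_eq_one hz'
  have hj0 : ¬ p ∣ j := fun h => hz1' ((hprim.pow_eq_one_iff_dvd j).mpr h)
  have hcop : Nat.Coprime j p := ((Nat.Prime.coprime_iff_not_dvd hp).mpr hj0).symm
  obtain ⟨k, hk⟩ := ZMod.unitsMap_surjective hpN (ZMod.unitOfCoprime j hcop)
  refine ⟨k, ?_⟩
  apply zpow_modEq hz
  have h1 : ((k : ZMod N).val : ZMod p) = (j : ZMod p) := by
    have h2 := congrArg Units.val hk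
    rw [ZMod.coe_unitOfCoprime] at h2
    rw [← h2]
    change ((k : ZMod N).val : ZMod p) = ((ZMod.castHom hpN (ZMod p)) (k : ZMod N))
    rw [ZMod.natCast_val]
    rfl
  exact (ZMod.natCast_eq_natCast_iff _ _ _).mp h1

include hc hc2 hcf C in
/-- a constituent has a nonzero eigenvalue -/
lemma exists_z {χ : G → ℂ} {x : X} (h : OC c x χ) : ∃ z : ℂ, z ^ p = 1 ∧ lam c g x χ z ≠ 0 := by
  by_contra hcon
  push Not at hcon
  obtain ⟨ζ, hζ⟩ : ∃ ζ : ℂ, IsPrimitiveRoot ζ p := ⟨_, Complex.isPrimitiveRoot_exp p C.prime.ne_zero⟩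
  have h1 := lam_sum hc hc2 hcf C hζ χ h.irr h.odd x
  rw [Finset.sum_eq_zero fun t _ => hcon _ (by
    rw [← pow_mul, mul_comm, pow_mul, hζ.pow_eq_one, one_pow])] at h1
  rcases mul_eq_zero.mp h1.symm with h2 | h2
  · rcases mul_eq_zero.mp h2 with h3 | h3
    · norm_num at h3
    · exact C.prime.ne_zero (by exact_mod_cast h3)
  · exact h.occ h2

include hc hc2 hc1 hcf C in
/-- the constituent of the eigenvalue `1` is rational -/
lemma fix_one {χ : G → ℂ} {x : X} (h : OC c x χ) (h0 : lam c g x χ 1 ≠ 0)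
    (k : (ZMod (Nat.card G))ˣ) : pw k χ = χ := by
  have h1 := lam_gal hc hc2 hcf C h.irr (one_pow p) (p_dvd C x) x k h0
  rw [one_pow] at h1
  exact lam_uniq hc hc2 hcf C (OC_pw hc hc2 hc1 h k).irr h.irr h.odd (one_pow p) x h1 h0

include hc hc2 hc1 hcf C in
/-- the first case -/
lemma caseA {χ : G → ℂ} {x : X} (h : OC c x χ) (h0 : lam c g x χ 1 ≠ 0) {z : ℂ}
    (hz : z ^ p = 1) (hz1 : z ≠ 1) (h1 : lam c g x χ z ≠ 0) {χ' : G → ℂ} (h' : OC c x χ') :
    χ' = χ := by
  obtain ⟨z', hz', h2⟩ := exists_z hc hc2 hcf C h'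
  by_cases hz1' : z' = 1
  · rw [hz1'] at h2
    exact lam_uniq hc hc2 hcf C h'.irr h.irr h.odd (one_pow p) x h2 h0
  · obtain ⟨k, hk⟩ := unit_exists Nat.card_pos C.prime (p_dvd C x) hz hz1 hz' hz1'
    have h3 := lam_gal hc hc2 hcf C h.irr hz (p_dvd C x) x k h1
    rw [hk, fix_one hc hc2 hc1 hcf C h h0 k] at h3
    exact lam_uniq hc hc2 hcf C h'.irr h.irr h.odd hz' x h2 h3

lemma sum_primitive {p : ℕ} (hp : p.Prime) {ζ : ℂ} (hζ : IsPrimitiveRoot ζ p) (f : ℂ → ℂ)
    (hf : ∀ z : ℂ, z ^ p = 1 → z ≠ 1 → f z = 0) : ∑ t ∈ Finset.range p, f (ζ ^ t) = f 1 := by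
  have h1 : ∑ t ∈ Finset.range p, f (ζ ^ t) = ∑ t ∈ ({0} : Finset ℕ), f (ζ ^ t) := by
    symm
    refine Finset.sum_subset ?_ ?_
    · intro t ht
      rw [Finset.mem_singleton] at ht
      rw [ht, Finset.mem_range]
      exact hp.pos
    · intro t ht ht0
      rw [Finset.mem_singleton] at ht0
      apply hf
      · rw [← pow_mul, mul_comm, pow_mul, hζ.pow_eq_one, one_pow]
      · intro h
        have h2 := (hζ.pow_eq_one_iff_dvd t).mp h
        exact ht0 (Nat.eq_zero_of_dvd_of_lt h2 (Finset.mem_range.mp ht))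
  rw [h1, Finset.sum_singleton, pow_zero]

include hc hc2 hcf C in
/-- the second case: the constituent of the eigenvalue `1` has degree one -/
lemma caseB {χ : G → ℂ} {x : X} (h : OC c x χ) (h0 : lam c g x χ 1 ≠ 0)
    (h1 : ∀ z : ℂ, z ^ p = 1 → z ≠ 1 → lam c g x χ z = 0) :
    χ 1 = 1 ∧ S χ x x = Nat.card (MulAction.stabilizer G x) := by
  obtain ⟨ζ, hζ⟩ : ∃ ζ : ℂ, IsPrimitiveRoot ζ p := ⟨_, Complex.isPrimitiveRoot_exp p C.prime.ne_zero⟩
  have h2 := lam_sum hc hc2 hcf C hζ χ h.irr h.odd x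
  rw [sum_primitive C.prime hζ _ h1, lam_val hc hc2 hcf C h.irr h.odd (one_pow p) x h0,
    card_orbit (G := G) x, C.card] at h2
  obtain ⟨m, hm⟩ := S_self h.irr x
  obtain ⟨d, hd, hd1⟩ := irr_deg_pos h.irr
  have hG0 : (Nat.card (MulAction.stabilizer G x) : ℂ) ≠ 0 := by exact_mod_cast Nat.card_pos.ne'
  have hp0 : (p : ℂ) ≠ 0 := by exact_mod_cast C.prime.ne_zero
  have hd0 : (d : ℂ) ≠ 0 := by exact_mod_cast hd.ne'
  rw [hm, hd1] at h2
  have h3 : m * d = 1 := by
    have h4 : ((m * d : ℕ) : ℂ) = 1 := by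
      push_cast at h2 ⊢
      rw [div_eq_iff hd0] at h2
      have h5 : (2 * (p : ℂ) * Nat.card (MulAction.stabilizer G x)) ≠ 0 :=
        mul_ne_zero (mul_ne_zero two_ne_zero hp0) hG0
      apply mul_left_cancel₀ h5
      linear_combination - h2
    exact_mod_cast h4
  have hm1 : m = 1 := Nat.eq_one_of_mul_eq_one_right h3
  have hd2 : d = 1 := Nat.eq_one_of_mul_eq_one_left h3
  exact ⟨by rw [hd1, hd2, Nat.cast_one], by rw [hm, hm1, Nat.cast_one, mul_one]⟩

/-- a constituent of degree one is trivial on the stabiliser -/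
lemma lin_triv {χ : G → ℂ} {x : X} (h : OC c x χ) (h1 : χ 1 = 1) {a : G} (ha : a • x = x) :
    χ a = 1 := by
  have h2 : χ a * S χ x x = S χ x x := by
    unfold S
    rw [Finset.mul_sum, ← Equiv.sum_comp (Equiv.mulRight a)]
    refine Finset.sum_congr rfl fun b _ => ?_
    change χ a * (if (b * a) • x = x then χ (b * a)⁻¹ else 0) = _
    rw [mul_smul, ha]
    split_ifs
    · rw [mul_inv_rev, ← lin_mul h.irr h1, mul_inv_cancel_left]
    · rw [mul_zero]
  have h3 : (χ a - 1) * S χ x x = 0 := by linear_combination h2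
  rcases mul_eq_zero.mp h3 with h4 | h4
  · exact sub_eq_zero.mp h4
  · exact absurd h4 h.occ

lemma lin_self {χ : G → ℂ} {x : X} (h : OC c x χ) (h1 : χ 1 = 1) :
    S χ x x = Nat.card (MulAction.stabilizer G x) := by
  unfold S
  have h2 : ∀ a : G, (if a • x = x then χ a⁻¹ else 0) = if a • x = x then 1 else 0 := by
    intro a
    split_ifs with ha
    · exact lin_triv h h1 (by rw [inv_smul_eq_iff, ha])
    · rfl
  rw [Finset.sum_congr rfl fun a _ => h2 a, Finset.sum_ite, Finset.sum_const_zero, add_zero,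
    Finset.sum_const, nsmul_eq_mul, mul_one, Nat.card_eq_fintype_card]
  congr 1
  symm
  rw [Fintype.card_subtype]
  rfl

include hc hc2 hc1 hcf C in
/-- in the second case there is a sign character -/
lemma sign_of_caseB {χ : G → ℂ} {x : X} (h : OC c x χ) (h0 : lam c g x χ 1 ≠ 0)
    (h1 : ∀ z : ℂ, z ^ p = 1 → z ≠ 1 → lam c g x χ z = 0) : HasSign c x := by
  obtain ⟨hd, -⟩ := caseB hc hc2 hcf C h h0 h1
  have hrat := (rat_iff h.irr).mp (fix_one hc hc2 hc1 hcf C h h0)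
  have hpow : ∀ (a : G) (n : ℕ), χ (a ^ n) = χ a ^ n := by
    intro a n
    induction n with
    | zero => rw [pow_zero, pow_zero, hd]
    | succ n ih => rw [pow_succ, pow_succ, lin_mul h.irr hd, ih]
  have hpm : ∀ a : G, χ a = 1 ∨ χ a = -1 := by
    intro a
    obtain ⟨q, hq⟩ := hrat a
    have h2 : χ a ^ Nat.card G = 1 := by rw [← hpow, pow_card_dvd (dvd_refl _), hd]
    rw [hq] at h2 ⊢
    have h3 : q ^ Nat.card G = 1 := by exact_mod_cast h2
    have h4 : |q| = 1 := by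
      have h5 : |q| ^ Nat.card G = 1 := by rw [← abs_pow, h3, abs_one]
      exact (pow_eq_one_iff_of_nonneg (abs_nonneg q) Nat.card_pos.ne').mp h5
    rcases eq_or_eq_neg_of_abs_eq h4 with h5 | h5
    · left
      rw [h5]
      push_cast
      rfl
    · right
      rw [h5]
      push_cast
      rfl
  have hne : (1 : ℂ) ≠ -1 := by norm_num
  refine ⟨{ toFun := fun a => if χ a = 1 then 1 else -1
            map_one' := by rw [if_pos hd]
            map_mul' := fun a b => ?_ }, ?_, ?_⟩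
  · rw [lin_mul h.irr hd]
    rcases hpm a with ha | ha <;> rcases hpm b with hb | hb <;> rw [ha, hb] <;>
      simp [Ne.symm hne]
  · have h2 : χ c = -1 := by
      have := h.odd 1
      rwa [mul_one, hd] at this
    change (if χ c = 1 then (1 : ℤˣ) else -1) = -1
    rw [h2, if_neg (Ne.symm hne)]
  · intro a ha
    change (if χ a = 1 then (1 : ℤˣ) else -1) = 1
    rw [if_pos (lin_triv h hd ha)]

include hc hc2 hc1 hcf C in
/-- **No sign character: all odd constituents are rational (there is only one).** -/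
theorem no_sign {x : X} (hs : ¬ HasSign c x) {χ : G → ℂ} (h : OC c x χ)
    (k : (ZMod (Nat.card G))ˣ) : pw k χ = χ := by
  obtain ⟨χ₀, h0, h1⟩ := lam_exists hc hc2 hcf C (one_pow p) x
  by_cases hA : ∃ z : ℂ, z ^ p = 1 ∧ z ≠ 1 ∧ lam c g x χ₀ z ≠ 0
  · obtain ⟨z, hz, hz1, h2⟩ := hA
    rw [caseA hc hc2 hc1 hcf C h0 h1 hz hz1 h2 h]
    exact fix_one hc hc2 hc1 hcf C h0 h1 k
  · push Not at hA
    exact absurd (sign_of_caseB hc hc2 hc1 hcf C h0 h1 hA) hs

end cyc

end Pool.Agent.U157.CC
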