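import Pool.Agent.U157.CC.Prime3

/-!
# Counting the odd constituents in the second case
-/

set_option autoImplicit false
set_option linter.unusedSectionVars false

open scoped Classical

namespace Pool.Agent.U157.CC

open Pool.Agent.N770.CP Pool.Agent.H541R3.ART Pool.Agent.W446.AS Pool.Agent.R389
  Pool.Agent.Helper606_LC

variable {G : Type} [Group G] [Fintype G] {X : Type} [Fintype X] [MulAction G X]
  {c : G} (hc : ∀ g, c * g = g * c) (hc2 : c * c = 1) (hc1 : c ≠ 1) (hcf : ∀ x : X, c • x ≠ x)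

/-- the odd constituents -/
noncomputable def Om (c : G) (x : X) : Finset (G → ℂ) := (irrF G).filter (fun χ => OC c x χ)

lemma mem_Om {x : X} {χ : G → ℂ} : χ ∈ Om c x ↔ OC c x χ := by
  unfold Om
  rw [Finset.mem_filter]
  exact ⟨fun h => h.2, fun h => ⟨mem_irrF.mpr h.irr, h⟩⟩

/-- complex conjugation of a function, on characters -/
def bar (χ : G → ℂ) : G → ℂ := fun g => χ g⁻¹

lemma bar_bar (χ : G → ℂ) : bar (bar χ) = χ := by
  funext g
  unfold bar
  rw [inv_inv]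

lemma pw_bar (k : (ZMod (Nat.card G))ˣ) (χ : G → ℂ) : pw k (bar χ) = bar (pw k χ) := by
  funext g
  unfold pw bar
  beta_reduce
  rw [inv_pow]

lemma pw_neg_one (χ : G → ℂ) : pw (-1 : (ZMod (Nat.card G))ˣ) χ = bar χ := by
  funext g
  unfold bar
  change χ (g ^ ((-1 : (ZMod (Nat.card G))ˣ) : ZMod (Nat.card G)).val) = χ g⁻¹
  rw [pow_neg_one]

lemma pw_inj (k : (ZMod (Nat.card G))ˣ) {χ χ' : G → ℂ} (h : pw k χ = pw k χ') : χ = χ' := by
  have h1 := congrArg (pw k⁻¹) h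
  rwa [← pw_mul hN0 (dvd_refl _), ← pw_mul hN0 (dvd_refl _), inv_mul_cancel,
    pw_one hN0 (dvd_refl _), pw_one hN0 (dvd_refl _)] at h1

section cyc

variable [MulAction.IsPretransitive G X] {g : G} {p : ℕ} (C : Cyc c g X p)

/-- the exponents with a nonzero eigenvalue -/
noncomputable def AA (c g : G) (x : X) (p : ℕ) (ζ : ℂ) (χ : G → ℂ) : Finset ℕ :=
  (Finset.range p).filter (fun t => lam c g x χ (ζ ^ t) ≠ 0)

lemma prim_pow {p : ℕ} {ζ : ℂ} (hζ : IsPrimitiveRoot ζ p) (t : ℕ) : (ζ ^ t) ^ p = 1 := by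
  rw [← pow_mul, mul_comm, pow_mul, hζ.pow_eq_one, one_pow]

include hc hc2 hcf C in
lemma cardA_eq {ζ : ℂ} (hζ : IsPrimitiveRoot ζ p) {χ : G → ℂ} {x : X} (h : OC c x χ) :
    ((AA c g x p ζ χ).card : ℂ) * (Nat.card G / χ 1) = 2 * p * S χ x x := by
  rw [← lam_sum hc hc2 hcf C hζ χ h.irr h.odd x]
  have h1 : ∀ t ∈ Finset.range p, lam c g x χ (ζ ^ t) =
      if lam c g x χ (ζ ^ t) ≠ 0 then (Nat.card G / χ 1 : ℂ) else 0 := by
    intro t _
    by_cases h0 : lam c g x χ (ζ ^ t) = 0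
    · rw [if_neg (not_not.mpr h0), h0]
    · rw [if_pos h0, lam_val hc hc2 hcf C h.irr h.odd (prim_pow hζ t) x h0]
  rw [Finset.sum_congr rfl h1, ← Finset.sum_filter, Finset.sum_const, nsmul_eq_mul]
  rfl

include hc hc2 hcf C in
lemma cardA_md {ζ : ℂ} (hζ : IsPrimitiveRoot ζ p) {χ : G → ℂ} {x : X} (h : OC c x χ) {m d : ℕ}
    (hm : S χ x x = (Nat.card (MulAction.stabilizer G x) : ℂ) * m) (hd : χ 1 = d) :
    (AA c g x p ζ χ).card = m * d := by
  have h1 := cardA_eq hc hc2 hcf C hζ h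
  rw [card_orbit (G := G) x, C.card, hm, hd] at h1
  have hG0 : (Nat.card (MulAction.stabilizer G x) : ℂ) ≠ 0 := by exact_mod_cast Nat.card_pos.ne'
  have hp0 : (p : ℂ) ≠ 0 := by exact_mod_cast C.prime.ne_zero
  have hd0 : (d : ℂ) ≠ 0 := by rw [← hd]; exact irr_one_ne h.irr
  have h5 : (2 * (p : ℂ) * Nat.card (MulAction.stabilizer G x)) ≠ 0 :=
    mul_ne_zero (mul_ne_zero two_ne_zero hp0) hG0
  have h2 : (((AA c g x p ζ χ).card : ℕ) : ℂ) = ((m * d : ℕ) : ℂ) := by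
    apply mul_left_cancel₀ h5
    push_cast at h1 ⊢
    rw [← mul_div_assoc, div_eq_iff hd0] at h1
    linear_combination h1
  exact_mod_cast h2

include hc hc2 hcf C in
/-- the partition of the exponents -/
lemma sumA {ζ : ℂ} (hζ : IsPrimitiveRoot ζ p) (x : X) :
    ∑ χ ∈ Om c x, (AA c g x p ζ χ).card = p := by
  have hT : ∀ t : ℕ, ∃ χ : G → ℂ, OC c x χ ∧ lam c g x χ (ζ ^ t) ≠ 0 := fun t =>
    lam_exists hc hc2 hcf C (prim_pow hζ t) x
  choose T hT1 hT2 using hT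
  have h1 := Finset.card_eq_sum_card_fiberwise (f := T) (s := Finset.range p) (t := Om c x)
    (fun t _ => mem_Om.mpr (hT1 t))
  rw [Finset.card_range] at h1
  conv_rhs => rw [h1]
  refine Finset.sum_congr rfl fun χ hχ => ?_
  have hχ' := mem_Om.mp hχ
  congr 1
  unfold AA
  refine Finset.filter_congr fun t _ => ?_
  constructor
  · intro h
    exact lam_uniq hc hc2 hcf C (hT1 t).irr hχ'.irr hχ'.odd (prim_pow hζ t) x (hT2 t) h
  · intro h
    rw [← h]
    exact hT2 t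

include C in
lemma eps_g {x : X} {ε : G →* ℤˣ} (hε : ∀ h : G, h • x = x → ε h = 1) : ε g = 1 := by
  have h1 := hε (g ^ p) (C.per x)
  rw [map_pow] at h1
  rcases Int.units_eq_one_or (ε g) with h2 | h2
  · exact h2
  · rw [h2, (C.prime.odd_of_ne_two C.ne_two).neg_one_pow] at h1
    exact absurd h1 (by decide)

include hc hc2 hcf C in
/-- the constituent of a sign character -/
lemma sign_OC {x : X} (hs : HasSign c x) : ∃ χ₀ : G → ℂ, OC c x χ₀ ∧ χ₀ 1 = 1 ∧
    lam c g x χ₀ 1 ≠ 0 ∧ ∀ z : ℂ, z ^ p = 1 → z ≠ 1 → lam c g x χ₀ z = 0 := by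
  obtain ⟨ε, h1, h2⟩ := hs
  let ψ : G →* ℂˣ := (Units.map (Int.castRingHom ℂ).toMonoidHom).comp ε
  have hψ : ∀ a : G, (ψ a : ℂ) = ((ε a : ℤ) : ℂ) := fun a => rfl
  have hirr := hom_irr ψ
  have hodd : IsOdd c (fun a => (ψ a : ℂ)) := by
    intro a
    beta_reduce
    rw [hψ, hψ, map_mul, h1]
    push_cast
    ring
  have hocc : S (fun a => (ψ a : ℂ)) x x ≠ 0 := by
    have h3 : S (fun a => (ψ a : ℂ)) x x = Fintype.card (MulAction.stabilizer G x) := by
      unfold S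
      have h4 : ∀ a : G, (if a • x = x then (ψ a⁻¹ : ℂ) else 0) = if a • x = x then 1 else 0 := by
        intro a
        split_ifs with ha
        · rw [hψ, h2 a⁻¹ (by rw [inv_smul_eq_iff, ha])]
          simp
        · rfl
      rw [Finset.sum_congr rfl fun a _ => h4 a, Finset.sum_ite, Finset.sum_const_zero, add_zero,
        Finset.sum_const, nsmul_eq_mul, mul_one]
      congr 1
      symm
      rw [Fintype.card_subtype]
      rfl
    rw [h3]
    exact_mod_cast Fintype.card_ne_zero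
  have hOC : OC c x (fun a => (ψ a : ℂ)) := ⟨hirr, hodd, hocc⟩
  have hone : (ψ 1 : ℂ) = 1 := by rw [map_one, Units.val_one]
  have hz : ∀ z : ℂ, z ^ p = 1 → z ≠ 1 → lam c g x (fun a => (ψ a : ℂ)) z = 0 := by
    intro z hz hz1
    have h3 : ∀ y : X, S (fun a => (ψ a : ℂ)) x (g • y) = S (fun a => (ψ a : ℂ)) x y := by
      intro y
      unfold S
      rw [← Equiv.sum_comp (Equiv.mulLeft g)]
      refine Finset.sum_congr rfl fun a _ => ?_
      change (if (g * a) • x = g • y then (ψ (g * a)⁻¹ : ℂ) else 0) = _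
      have e1 : (ψ (g * a)⁻¹ : ℂ) = (ψ a⁻¹ : ℂ) := by
        rw [hψ, hψ, mul_inv_rev, map_mul, map_inv ε g, eps_g C h2, inv_one, mul_one]
      rw [e1, mul_smul]
      by_cases h : a • x = y
      · rw [if_pos h, if_pos (by rw [h])]
      · rw [if_neg h, if_neg (fun h' => h (MulAction.injective g h'))]
    have h4 : lam c g x (fun a => (ψ a : ℂ)) z = z * lam c g x (fun a => (ψ a : ℂ)) z := by
      conv_lhs => unfold lam
      rw [← Equiv.sum_comp (MulAction.toPerm g)]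
      unfold lam
      rw [Finset.mul_sum]
      refine Finset.sum_congr rfl fun y _ => ?_
      change S (fun a => (ψ a : ℂ)) x (g • y) * om c g x z (g • y) = _
      rw [h3, om_g hc hc2 hcf C hz]
      ring
    have h5 : (1 - z) * lam c g x (fun a => (ψ a : ℂ)) z = 0 := by linear_combination h4
    rcases mul_eq_zero.mp h5 with h6 | h6
    · exact absurd (sub_eq_zero.mp h6).symm hz1
    · exact h6
  refine ⟨_, hOC, hone, ?_, hz⟩
  obtain ⟨z, hz2, hz3⟩ := exists_z hc hc2 hcf C hOC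
  by_cases h3 : z = 1
  · rwa [h3] at hz3
  · exact absurd (hz z hz2 h3) hz3

/-- the second case, with the constituent `χ₀` -/
structure SecC (c g : G) (x : X) (p : ℕ) (χ₀ : G → ℂ) : Prop where
  oc : OC c x χ₀
  deg : χ₀ 1 = 1
  one : lam c g x χ₀ 1 ≠ 0
  zero : ∀ z : ℂ, z ^ p = 1 → z ≠ 1 → lam c g x χ₀ z = 0

variable {x : X} {χ₀ : G → ℂ} (Q : SecC c g x p χ₀)

include hc hc2 hc1 hcf C Q in
lemma sec_fix (k : (ZMod (Nat.card G))ˣ) : pw k χ₀ = χ₀ := fix_one hc hc2 hc1 hcf C Q.oc Q.one k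

include hc hc2 hc1 hcf C Q in
lemma sec_pw {χ : G → ℂ} (h : χ ∈ (Om c x).erase χ₀) (k : (ZMod (Nat.card G))ˣ) :
    pw k χ ∈ (Om c x).erase χ₀ := by
  rw [Finset.mem_erase, mem_Om] at h ⊢
  refine ⟨fun h1 => h.1 ?_, OC_pw hc hc2 hc1 h.2 k⟩
  apply pw_inj k
  rw [h1, sec_fix hc hc2 hc1 hcf C Q]

include hc hc2 hcf C Q in
lemma sec_z {χ : G → ℂ} (h : χ ∈ (Om c x).erase χ₀) :
    lam c g x χ 1 = 0 ∧ ∃ z : ℂ, z ^ p = 1 ∧ z ≠ 1 ∧ lam c g x χ z ≠ 0 := by
  rw [Finset.mem_erase, mem_Om] at h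
  have h1 : lam c g x χ 1 = 0 := by
    by_contra h1
    exact h.1 (lam_uniq hc hc2 hcf C h.2.irr Q.oc.irr Q.oc.odd (one_pow p) x h1 Q.one)
  refine ⟨h1, ?_⟩
  obtain ⟨z, hz, hz1⟩ := exists_z hc hc2 hcf C h.2
  exact ⟨z, hz, fun e => hz1 (by rw [e, h1]), hz1⟩

include hc hc2 hc1 hcf C Q in
/-- the other constituents are conjugate -/
lemma sec_conj {χ χ' : G → ℂ} (h : χ ∈ (Om c x).erase χ₀) (h' : χ' ∈ (Om c x).erase χ₀) :
    ∃ k : (ZMod (Nat.card G))ˣ, pw k χ = χ' := by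
  obtain ⟨-, z, hz, hz1, h1⟩ := sec_z hc hc2 hcf C Q h
  obtain ⟨-, z', hz', hz1', h1'⟩ := sec_z hc hc2 hcf C Q h'
  obtain ⟨k, hk⟩ := unit_exists Nat.card_pos C.prime (p_dvd C x) hz hz1 hz' hz1'
  rw [Finset.mem_erase, mem_Om] at h h'
  have h3 := lam_gal hc hc2 hcf C h.2.irr hz (p_dvd C x) x k h1
  rw [hk] at h3
  exact ⟨k, lam_uniq hc hc2 hcf C (OC_pw hc hc2 hc1 h.2 k).irr h'.2.irr h'.2.odd hz' x h3 h1'⟩

include hc hc2 hcf C Q in
lemma sec_nonempty : ((Om c x).erase χ₀).Nonempty := by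
  obtain ⟨ζ, hζ⟩ : ∃ ζ : ℂ, IsPrimitiveRoot ζ p := ⟨_, Complex.isPrimitiveRoot_exp p C.prime.ne_zero⟩
  obtain ⟨χ, h1, h2⟩ := lam_exists hc hc2 hcf C hζ.pow_eq_one x
  refine ⟨χ, ?_⟩
  rw [Finset.mem_erase, mem_Om]
  refine ⟨fun e => ?_, h1⟩
  rw [e] at h2
  exact h2 (Q.zero ζ hζ.pow_eq_one (hζ.ne_one C.prime.one_lt))

include hc hc2 hcf C Q in
lemma card_erase : (Om c x).card = ((Om c x).erase χ₀).card + 1 :=
  (Finset.card_erase_add_one (mem_Om.mpr Q.oc)).symm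

include hc hc2 hc1 hcf C Q in
/-- the number of the other constituents -/
lemma sec_count {ζ : ℂ} (hζ : IsPrimitiveRoot ζ p) {χ : G → ℂ} (h : χ ∈ (Om c x).erase χ₀) :
    ((Om c x).erase χ₀).card * (AA c g x p ζ χ).card = p - 1 := by
  have h1 := sumA hc hc2 hcf C hζ x
  rw [← Finset.add_sum_erase _ _ (mem_Om.mpr Q.oc)] at h1
  have h2 : (AA c g x p ζ χ₀).card = 1 := by
    have h3 : AA c g x p ζ χ₀ = {0} := by
      unfold AA
      ext t
      rw [Finset.mem_filter, Finset.mem_range, Finset.mem_singleton]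
      constructor
      · rintro ⟨ht, h4⟩
        by_contra ht0
        apply h4
        apply Q.zero _ (prim_pow hζ t)
        intro h5
        have h6 := (hζ.pow_eq_one_iff_dvd t).mp h5
        exact ht0 (Nat.eq_zero_of_dvd_of_lt h6 ht)
      · rintro rfl
        refine ⟨C.prime.pos, ?_⟩
        rw [pow_zero]
        exact Q.one
    rw [h3, Finset.card_singleton]
  have h3 : ∀ χ' ∈ (Om c x).erase χ₀, (AA c g x p ζ χ').card = (AA c g x p ζ χ).card := by
    intro χ' h'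
    obtain ⟨k, hk⟩ := sec_conj hc hc2 hc1 hcf C Q h h'
    have hO := mem_Om.mp (Finset.mem_of_mem_erase h)
    have hO' := mem_Om.mp (Finset.mem_of_mem_erase h')
    obtain ⟨m, hm⟩ := S_self hO.irr x
    obtain ⟨d, hd, hd1⟩ := irr_deg_pos hO.irr
    rw [cardA_md hc hc2 hcf C hζ hO hm hd1]
    refine cardA_md hc hc2 hcf C hζ hO' ?_ ?_
    · rw [← hk, S_pw, hm]
    · rw [← hk, pw_at_one, hd1]
  rw [h2, Finset.sum_congr rfl h3, Finset.sum_const, smul_eq_mul] at h1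
  omega

include hc hc2 hc1 hcf C Q in
/-- when all constituents are rational -/
theorem all_rat : (∀ χ : G → ℂ, OC c x χ → ∀ k : (ZMod (Nat.card G))ˣ, pw k χ = χ) ↔
    (Om c x).card = 2 := by
  rw [card_erase hc hc2 hcf C Q]
  obtain ⟨χ₁, h1⟩ := sec_nonempty hc hc2 hcf C Q
  constructor
  · intro h
    have h2 : (Om c x).erase χ₀ = {χ₁} := by
      ext χ
      rw [Finset.mem_singleton]
      constructor
      · intro h3
        obtain ⟨k, hk⟩ := sec_conj hc hc2 hc1 hcf C Q h1 h3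
        rw [← hk, h χ₁ (mem_Om.mp (Finset.mem_of_mem_erase h1))]
      · rintro rfl
        exact h1
    rw [h2, Finset.card_singleton]
  · intro h χ hχ k
    by_cases e : χ = χ₀
    · rw [e, sec_fix hc hc2 hc1 hcf C Q]
    · have h2 : ((Om c x).erase χ₀).card = 1 := by omega
      obtain ⟨χ₂, h3⟩ := Finset.card_eq_one.mp h2
      have h4 : χ ∈ (Om c x).erase χ₀ := by
        rw [Finset.mem_erase, mem_Om]
        exact ⟨e, hχ⟩
      have h5 := sec_pw hc hc2 hc1 hcf C Q h4 k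
      rw [h3, Finset.mem_singleton] at h4 h5
      rw [h5, h4]

include hc hc2 hcf C in
lemma lam_bar {χ : G → ℂ} (hχ : χ ∈ Irr G) {z : ℂ} (hz : z ^ p = 1) (h0 : lam c g x χ z ≠ 0) :
    lam c g x (bar χ) z⁻¹ ≠ 0 := by
  have h1 := lam_gal hc hc2 hcf C hχ hz (p_dvd C x) x (-1) h0
  rw [pw_neg_one] at h1
  have h2 : z ^ ((-1 : (ZMod (Nat.card G))ˣ) : ZMod (Nat.card G)).val = z⁻¹ := by
    have hne : NeZero (Nat.card G) := ⟨Nat.card_pos.ne'⟩
    have hz0 : z ≠ 0 := fun e => by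
      rw [e, zero_pow C.prime.ne_zero] at hz
      exact zero_ne_one hz
    apply mul_right_cancel₀ hz0
    rw [inv_mul_cancel₀ hz0, ← pow_succ]
    have h3 : Nat.card G ∣ ((-1 : (ZMod (Nat.card G))ˣ) : ZMod (Nat.card G)).val + 1 := by
      rw [← ZMod.natCast_eq_zero_iff]
      push_cast
      rw [ZMod.natCast_val, ZMod.cast_id]
      ring
    obtain ⟨q, hq⟩ := (p_dvd C x).trans h3
    rw [hq, pow_mul, hz, one_pow]
  rwa [h2] at h1

end cyc

end Pool.Agent.U157.CC
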