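import Pool.Agent.U157.CC.Prime4

/-!
# The criteria in the second case
-/

set_option autoImplicit false
set_option linter.unusedSectionVars false

open scoped Classical

namespace Pool.Agent.U157.CC

open Pool.Agent.N770.CP Pool.Agent.H541R3.ART Pool.Agent.W446.AS Pool.Agent.R389
  Pool.Agent.Helper606_LC

variable {G : Type} [Group G] [Fintype G] {X : Type} [Fintype X] [MulAction G X]
  {c : G} (hc : ∀ g, c * g = g * c) (hc2 : c * c = 1) (hc1 : c ≠ 1) (hcf : ∀ x : X, c • x ≠ x)

section cyc

variable [MulAction.IsPretransitive G X] {g : G} {p : ℕ} (C : Cyc c g X p)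
  {x : X} {χ₀ : G → ℂ} (Q : SecC c g x p χ₀)

include hc hc2 hc1 hcf C Q in
/-- when all constituents have values in imaginary quadratic fields -/
theorem all_quad : (∀ χ : G → ℂ, OC c x χ → ∀ k : (ZMod (Nat.card G))ˣ,
    pw k χ = χ ∨ pw k χ = bar χ) ↔
    (Om c x).card = 2 ∨ ((Om c x).card = 3 ∧ p % 4 = 3) := by
  have hcard := card_erase hc hc2 hcf C Q
  constructor
  · intro h
    obtain ⟨χ₁, h1⟩ := sec_nonempty hc hc2 hcf C Q
    have hO := mem_Om.mp (Finset.mem_of_mem_erase h1)
    have hb : bar χ₁ ∈ (Om c x).erase χ₀ := by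
      have := sec_pw hc hc2 hc1 hcf C Q h1 (-1)
      rwa [pw_neg_one] at this
    have he : (Om c x).erase χ₀ = {χ₁, bar χ₁} := by
      ext χ
      rw [Finset.mem_insert, Finset.mem_singleton]
      constructor
      · intro h3
        obtain ⟨k, hk⟩ := sec_conj hc hc2 hc1 hcf C Q h1 h3
        rw [← hk]
        exact h χ₁ hO k
      · rintro (rfl | rfl)
        · exact h1
        · exact hb
    by_cases hbar : χ₁ = bar χ₁
    · left
      rw [hcard, he, ← hbar]
      simp
    · right
      refine ⟨by rw [hcard, he, Finset.card_pair hbar], ?_⟩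
      by_contra hp4
      have : Fact p.Prime := ⟨C.prime⟩
      obtain ⟨a, ha⟩ := ZMod.exists_sq_eq_neg_one_iff.mpr hp4
      have ha0 : a ≠ 0 := by
        rintro rfl
        rw [mul_zero] at ha
        exact (neg_ne_zero.mpr one_ne_zero) ha
      have hne : NeZero (Nat.card G) := ⟨Nat.card_pos.ne'⟩
      obtain ⟨k, hk⟩ := ZMod.unitsMap_surjective (p_dvd C x) (Units.mk0 a ha0)
      have hk1 : (((k : ZMod (Nat.card G)).val : ℕ) : ZMod p) = a := by
        have h2 := congrArg Units.val hk
        rw [Units.val_mk0] at h2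
        rw [← h2]
        change (((k : ZMod (Nat.card G)).val : ℕ) : ZMod p) =
          ((ZMod.castHom (p_dvd C x) (ZMod p)) (k : ZMod (Nat.card G)))
        rw [ZMod.natCast_val]
        rfl
      have hkk : pw k (pw k χ₁) = χ₁ := by
        rcases h χ₁ hO k with h2 | h2
        · rw [h2, h2]
        · rw [h2, pw_bar, h2, bar_bar]
      obtain ⟨-, z, hz, hz1, h3⟩ := sec_z hc hc2 hcf C Q h1
      have h4 := lam_gal hc hc2 hcf C hO.irr hz (p_dvd C x) x k h3
      have hz' : (z ^ ((k : ZMod (Nat.card G)).val)) ^ p = 1 := by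
        rw [← pow_mul, mul_comm, pow_mul, hz, one_pow]
      have h5 := lam_gal hc hc2 hcf C (OC_pw hc hc2 hc1 hO k).irr hz' (p_dvd C x) x k h4
      rw [hkk] at h5
      have hz0 : z ≠ 0 := fun e => by
        rw [e, zero_pow C.prime.ne_zero] at hz
        exact zero_ne_one hz
      have h6 : (z ^ ((k : ZMod (Nat.card G)).val)) ^ ((k : ZMod (Nat.card G)).val) = z⁻¹ := by
        apply mul_right_cancel₀ hz0
        rw [inv_mul_cancel₀ hz0, ← pow_mul, ← pow_succ]
        have h7 : p ∣ (k : ZMod (Nat.card G)).val * (k : ZMod (Nat.card G)).val + 1 := by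
          rw [← ZMod.natCast_eq_zero_iff]
          push_cast
          rw [hk1, ← ha]
          ring
        obtain ⟨q, hq⟩ := h7
        rw [hq, pow_mul, hz, one_pow]
      rw [h6] at h5
      have h7 := lam_bar hc hc2 hcf C hO.irr hz h3
      have hzi : (z⁻¹) ^ p = 1 := by rw [inv_pow, hz, inv_one]
      exact hbar (lam_uniq hc hc2 hcf C hO.irr (mem_Om.mp (Finset.mem_of_mem_erase hb)).irr
        (mem_Om.mp (Finset.mem_of_mem_erase hb)).odd hzi x h5 h7)
  · rintro (h | ⟨h, hp4⟩)
    · intro χ hχ k
      exact Or.inl ((all_rat hc hc2 hc1 hcf C Q).mpr h χ hχ k)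
    · intro χ hχ k
      by_cases e : χ = χ₀
      · left
        rw [e, sec_fix hc hc2 hc1 hcf C Q]
      · have h4 : χ ∈ (Om c x).erase χ₀ := by
          rw [Finset.mem_erase, mem_Om]
          exact ⟨e, hχ⟩
        have hcard2 : ((Om c x).erase χ₀).card = 2 := by omega
        obtain ⟨ζ, hζ⟩ : ∃ ζ : ℂ, IsPrimitiveRoot ζ p :=
          ⟨_, Complex.isPrimitiveRoot_exp p C.prime.ne_zero⟩
        have hcnt := sec_count hc hc2 hc1 hcf C Q hζ h4
        rw [hcard2] at hcnt
        have hbar : χ ≠ bar χ := by
          intro hb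
          have hev : (((AA c g x p ζ χ).card : ℕ) : ZMod 2) = 0 := by
            rw [Finset.cast_card]
            have hmem : ∀ t ∈ AA c g x p ζ χ, p - t ∈ AA c g x p ζ χ ∧ t < p ∧ 0 < t := by
              intro t ht
              unfold AA at ht ⊢
              rw [Finset.mem_filter, Finset.mem_range] at ht ⊢
              obtain ⟨ht1, ht2⟩ := ht
              have ht0 : 0 < t := by
                rcases Nat.eq_zero_or_pos t with h0 | h0
                · rw [h0, pow_zero] at ht2
                  exact absurd (sec_z hc hc2 hcf C Q h4).1 ht2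
                · exact h0
              have hb2 := lam_bar hc hc2 hcf C hχ.irr (prim_pow hζ t) ht2
              rw [← hb] at hb2
              have hζ0 : ζ ≠ 0 := hζ.ne_zero C.prime.ne_zero
              have e1 : (ζ ^ t)⁻¹ = ζ ^ (p - t) := by
                apply mul_right_cancel₀ (pow_ne_zero t hζ0)
                rw [inv_mul_cancel₀ (pow_ne_zero t hζ0), ← pow_add,
                  Nat.sub_add_cancel ht1.le, hζ.pow_eq_one]
              rw [e1] at hb2
              exact ⟨⟨by omega, hb2⟩, ht1, ht0⟩
            refine Finset.sum_involution (fun t _ => p - t) ?_ ?_ ?_ ?_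
            · intro t _
              decide
            · intro t ht _ h5
              have h6 := (hmem t ht).2
              have h7 : p = 2 * t := by omega
              have h8 : 2 ∣ p := ⟨t, h7⟩
              exact C.ne_two ((Nat.prime_dvd_prime_iff_eq Nat.prime_two C.prime).mp h8).symm
            · intro t ht
              exact (hmem t ht).1
            · intro t ht
              have h6 := (hmem t ht).2
              change p - (p - t) = t
              omega
          have hev2 : 2 ∣ (AA c g x p ζ χ).card := (ZMod.natCast_eq_zero_iff _ _).mp hev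
          have hp1 := C.prime.pos
          omega
        have hb : bar χ ∈ (Om c x).erase χ₀ := by
          have := sec_pw hc hc2 hc1 hcf C Q h4 (-1)
          rwa [pw_neg_one] at this
        have he : ({χ, bar χ} : Finset (G → ℂ)) = (Om c x).erase χ₀ := by
          apply Finset.eq_of_subset_of_card_le
          · intro ψ hψ
            rw [Finset.mem_insert, Finset.mem_singleton] at hψ
            rcases hψ with rfl | rfl
            · exact h4
            · exact hb
          · rw [hcard2, Finset.card_pair hbar]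
        have h5 := sec_pw hc hc2 hc1 hcf C Q h4 k
        rw [← he, Finset.mem_insert, Finset.mem_singleton] at h5
        exact h5

include hc hc2 hc1 hcf C Q in
/-- the constituents of degree greater than one -/
theorem deg_comb {P : (G → ℂ) → Prop} (hP0 : P χ₀) :
    (∀ χ : G → ℂ, OC c x χ → χ 1 ≠ 1 → P χ) ↔
      ((∀ χ : G → ℂ, OC c x χ → P χ) ∨ (Om c x).card = p) := by
  have hcard := card_erase hc hc2 hcf C Q
  obtain ⟨χ₁, h1⟩ := sec_nonempty hc hc2 hcf C Q
  have hO := mem_Om.mp (Finset.mem_of_mem_erase h1)
  obtain ⟨ζ, hζ⟩ : ∃ ζ : ℂ, IsPrimitiveRoot ζ p :=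
    ⟨_, Complex.isPrimitiveRoot_exp p C.prime.ne_zero⟩
  have hp1 := C.prime.pos
  constructor
  · intro h
    by_cases hd : χ₁ 1 = 1
    · right
      have h2 := cardA_md hc hc2 hcf C hζ hO (m := 1) (d := 1)
        (by rw [lin_self hO hd, Nat.cast_one, mul_one]) (by rw [hd, Nat.cast_one])
      have h3 := sec_count hc hc2 hc1 hcf C Q hζ h1
      rw [h2] at h3
      omega
    · left
      intro χ hχ
      by_cases e : χ = χ₀
      · rw [e]
        exact hP0
      · have h4 : χ ∈ (Om c x).erase χ₀ := by
          rw [Finset.mem_erase, mem_Om]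
          exact ⟨e, hχ⟩
        obtain ⟨k, hk⟩ := sec_conj hc hc2 hc1 hcf C Q h1 h4
        apply h χ hχ
        rw [← hk, pw_at_one]
        exact hd
  · rintro (h | h)
    · intro χ hχ _
      exact h χ hχ
    · intro χ hχ hd
      have e : χ ≠ χ₀ := by
        rintro rfl
        exact hd Q.deg
      have h4 : χ ∈ (Om c x).erase χ₀ := by
        rw [Finset.mem_erase, mem_Om]
        exact ⟨e, hχ⟩
      have h3 := sec_count hc hc2 hc1 hcf C Q hζ h4
      obtain ⟨m, hm⟩ := S_self hχ.irr x
      obtain ⟨d, hd0, hd1⟩ := irr_deg_pos hχ.irr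
      rw [cardA_md hc hc2 hcf C hζ hχ hm hd1] at h3
      have hp2 : 0 < p - 1 := by
        have := C.prime.one_lt
        omega
      have h5 : ((Om c x).erase χ₀).card = p - 1 := by omega
      rw [h5] at h3
      have h6 : m * d = 1 := by
        apply Nat.eq_of_mul_eq_mul_left hp2
        rw [h3, mul_one]
      have hd2 : d = 1 := Nat.eq_one_of_mul_eq_one_left h6
      exact absurd (by rw [hd1, hd2, Nat.cast_one]) hd

end cyc

end Pool.Agent.U157.CC
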