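import Pool.Agent.U157.CC.Prime5

/-!
# The constituents have multiplicity one
-/

set_option autoImplicit false
set_option linter.unusedSectionVars false

open scoped Classical

namespace Pool.Agent.U157.CC

open Pool.Agent.N770.CP Pool.Agent.H541R3.ART Pool.Agent.W446.AS Pool.Agent.R389
  Pool.Agent.Helper606_LC

variable {G : Type} [Group G] [Fintype G] {X : Type} [Fintype X] [MulAction G X]
  {c : G} (hc : ∀ g, c * g = g * c) (hc2 : c * c = 1) (hc1 : c ≠ 1) (hcf : ∀ x : X, c • x ≠ x)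

/-- the mean over a class -/
lemma frob_avg {χ : G → ℂ} (hχ : χ ∈ Irr G) (a b : G) :
    χ 1 * ∑ u : G, χ (u * a * u⁻¹ * b) = Nat.card G * χ a * χ b := by
  obtain ⟨n, ρ, hρ, rfl⟩ := hχ
  have hI := (irred_iff ρ).mpr hρ
  let T : Module.End ℂ (Fin n → ℂ) := ∑ u : G, ρ (u * a * u⁻¹)
  obtain ⟨s, hs⟩ := hI.scalar T (by
    intro h v
    simp only [T, LinearMap.sum_apply, map_sum]
    rw [← Equiv.sum_comp (Equiv.mulLeft h)]
    refine Finset.sum_congr rfl fun u _ => ?_
    change ρ (h * u * a * (h * u)⁻¹) (ρ h v) = ρ h (ρ (u * a * u⁻¹) v)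
    rw [← Module.End.mul_apply, ← Module.End.mul_apply, ← map_mul, ← map_mul]
    congr 2
    group)
  have hT : T = s • (1 : Module.End ℂ (Fin n → ℂ)) := LinearMap.ext fun v => hs v
  have h1 : (Nat.card G : ℂ) * ρ.character a = s * ρ.character 1 := by
    have h2 := congrArg (LinearMap.trace ℂ (Fin n → ℂ)) hT
    simp only [T] at h2
    rw [map_sum, map_smul, smul_eq_mul] at h2
    change _ = s * LinearMap.trace ℂ _ (ρ 1)
    rw [map_one, ← h2]
    have h3 : ∀ u : G, LinearMap.trace ℂ (Fin n → ℂ) (ρ (u * a * u⁻¹)) = ρ.character a :=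
      fun u => ρ.char_conj a u
    rw [Finset.sum_congr rfl fun u _ => h3 u, Finset.sum_const, Finset.card_univ, nsmul_eq_mul,
      Nat.card_eq_fintype_card]
  have h4 : ∑ u : G, ρ.character (u * a * u⁻¹ * b) = s * ρ.character b := by
    have h5 : T * ρ b = s • ρ b := by rw [hT, smul_mul_assoc, one_mul]
    have h6 := congrArg (LinearMap.trace ℂ (Fin n → ℂ)) h5
    simp only [T] at h6
    rw [Finset.sum_mul, map_sum, map_smul, smul_eq_mul] at h6
    change _ = s * LinearMap.trace ℂ _ (ρ b)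
    rw [← h6]
    refine Finset.sum_congr rfl fun u _ => ?_
    change LinearMap.trace ℂ _ (ρ (u * a * u⁻¹ * b)) = _
    rw [map_mul ρ (u * a * u⁻¹) b]
  rw [h4, h1]
  ring

lemma irr_integral {χ : G → ℂ} (hχ : χ ∈ Irr G) (g : G) : IsIntegral ℤ (χ g) := by
  obtain ⟨n, ρ, hρ, rfl⟩ := hχ
  change IsIntegral ℤ (LinearMap.trace ℂ _ (ρ g))
  rw [Module.End.trace_eq_sum_roots_charpoly_of_splits (IsAlgClosed.splits _)]
  have key : ∀ μ ∈ (LinearMap.charpoly (ρ g)).roots, IsIntegral ℤ μ := by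
    intro μ hμ
    have h1 : (LinearMap.charpoly (ρ g)).IsRoot μ := (Polynomial.mem_roots'.mp hμ).2
    have h2 := (Module.End.hasEigenvalue_iff_isRoot_charpoly (ρ g) μ).mpr h1
    obtain ⟨v, hv⟩ := h2.exists_hasEigenvector
    have h3 : ∀ n : ℕ, ((ρ g) ^ n) v = μ ^ n • v := fun n => by
      induction n with
      | zero => simp
      | succ n ih =>
        rw [pow_succ', Module.End.mul_apply, ih, map_smul, hv.apply_eq_smul, smul_smul, pow_succ]
    have h4 := h3 (orderOf g)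
    rw [← map_pow, pow_orderOf_eq_one, map_one, Module.End.one_apply] at h4
    have h5 : μ ^ orderOf g = 1 := by
      have h6 : (μ ^ orderOf g - 1) • v = 0 := by
        rw [sub_smul, one_smul, ← h4, sub_self]
      rcases smul_eq_zero.mp h6 with h7 | h7
      · exact sub_eq_zero.mp h7
      · exact absurd h7 hv.2
    refine ⟨Polynomial.X ^ orderOf g - 1, Polynomial.monic_X_pow_sub_C 1 (orderOf_pos g).ne' , ?_⟩
    simp [h5]
  generalize (LinearMap.charpoly (ρ g)).roots = s at key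
  induction s using Multiset.induction_on with
  | empty => simpa using isIntegral_zero
  | cons a s ih =>
    rw [Multiset.sum_cons]
    exact (key a (Multiset.mem_cons_self a s)).add
      (ih (fun μ hμ => key μ (Multiset.mem_cons_of_mem hμ)))

section cyc

variable [MulAction.IsPretransitive G X] {g : G} {p : ℕ} (C : Cyc c g X p)

include hc hc2 hcf C in
/-- the sums at the points of the cycle are character values -/
lemma S_cyc {χ : G → ℂ} (hχ : χ ∈ Irr G) (ho : IsOdd c χ) (x : X) (i : ℕ) :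
    χ 1 * S χ x (g ^ i • x) = S χ x x * χ (g ^ i)⁻¹ := by
  have h1 : ∀ u : G, S χ (u • x) (g ^ i • u • x) = S χ x (g ^ i • x) := by
    intro u
    obtain ⟨j, -, h | h⟩ := all_pts hc hc2 hcf C x (u • x)
    · rw [h]
      have h2 : g ^ i • g ^ j • x = g ^ j • g ^ i • x := by
        rw [← mul_smul, ← mul_smul, ← pow_add, ← pow_add, add_comm]
      rw [h2, S_base hχ]
    · rw [h, cg_comm hc, S_cl hc hc2 hχ ho, S_cc hc hc2 ho, neg_neg]
      have h2 : g ^ i • g ^ j • x = g ^ j • g ^ i • x := by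
        rw [← mul_smul, ← mul_smul, ← pow_add, ← pow_add, add_comm]
      rw [h2, S_base hχ]
  have h2 : ∀ u : G, S χ (u • x) (g ^ i • u • x) =
      ∑ k : G, if k • x = x then χ (u * k⁻¹ * u⁻¹ * (g ^ i)⁻¹) else 0 := by
    intro u
    unfold S
    rw [← Equiv.sum_comp ((MulAut.conj u).toEquiv.trans (Equiv.mulLeft (g ^ i)))]
    refine Finset.sum_congr rfl fun k _ => ?_
    change (if (g ^ i * (u * k * u⁻¹)) • u • x = g ^ i • u • x then
      χ (g ^ i * (u * k * u⁻¹))⁻¹ else 0) = _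
    have e1 : (g ^ i * (u * k * u⁻¹)) • u • x = g ^ i • u • (k • x) := by
      rw [← mul_smul, ← mul_smul, ← mul_smul]
      congr 1
      group
    have e2 : (g ^ i * (u * k * u⁻¹))⁻¹ = u * k⁻¹ * u⁻¹ * (g ^ i)⁻¹ := by group
    rw [e1, e2]
    by_cases h : k • x = x
    · rw [if_pos h, if_pos (by rw [h])]
    · rw [if_neg h, if_neg (fun h' => h
        (MulAction.injective u (MulAction.injective (g ^ i) h')))]
  have h3 : ∑ u : G, S χ (u • x) (g ^ i • u • x) = Nat.card G * S χ x (g ^ i • x) := by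
    rw [Finset.sum_congr rfl fun u _ => h1 u, Finset.sum_const, Finset.card_univ, nsmul_eq_mul,
      Nat.card_eq_fintype_card]
  have h4 : χ 1 * ∑ u : G, S χ (u • x) (g ^ i • u • x) =
      Nat.card G * (S χ x x * χ (g ^ i)⁻¹) := by
    rw [Finset.sum_congr rfl fun u _ => h2 u, Finset.sum_comm, Finset.mul_sum]
    have h5 : ∀ k : G, χ 1 * ∑ u : G, (if k • x = x then χ (u * k⁻¹ * u⁻¹ * (g ^ i)⁻¹) else 0) =
        Nat.card G * ((if k • x = x then χ k⁻¹ else 0) * χ (g ^ i)⁻¹) := by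
      intro k
      by_cases h : k • x = x
      · simp only [if_pos h]
        rw [frob_avg hχ]
        ring
      · simp [if_neg h]
    rw [Finset.sum_congr rfl fun k _ => h5 k, ← Finset.mul_sum, ← Finset.sum_mul]
    rfl
  rw [h3] at h4
  apply mul_left_cancel₀ (card_ne (G := G))
  linear_combination h4

include hc hc2 hcf C in
/-- the multiplicity is one -/
lemma mult_one {χ : G → ℂ} {x : X} (h : OC c x χ) :
    S χ x x = Nat.card (MulAction.stabilizer G x) := by
  obtain ⟨m, hm⟩ := S_self h.irr x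
  obtain ⟨d, hd0, hd1⟩ := irr_deg_pos h.irr
  obtain ⟨z, hz, hz1⟩ := exists_z hc hc2 hcf C h
  have hval := lam_val hc hc2 hcf C h.irr h.odd hz x hz1
  have hG0 : (Nat.card (MulAction.stabilizer G x) : ℂ) ≠ 0 := by exact_mod_cast Nat.card_pos.ne'
  have hχ1 := irr_one_ne h.irr
  have hzi : IsIntegral ℤ z := ⟨Polynomial.X ^ p - 1, Polynomial.monic_X_pow_sub_C 1
    C.prime.ne_zero, by simp [hz]⟩
  have hτ : ∀ y : X, ∃ τ : ℂ, IsIntegral ℤ τ ∧ χ 1 * (S χ x y * om c g x z y) = S χ x x * τ := by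
    intro y
    obtain ⟨i, -, e | e⟩ := all_pts hc hc2 hcf C x y
    · refine ⟨χ (g ^ i)⁻¹ * z ^ i, (irr_integral h.irr _).mul (hzi.pow i), ?_⟩
      rw [e, om_pow C hz]
      have := S_cyc hc hc2 hcf C h.irr h.odd x i
      linear_combination z ^ i * this
    · refine ⟨χ (g ^ i)⁻¹ * z ^ i, (irr_integral h.irr _).mul (hzi.pow i), ?_⟩
      rw [e, om_cpow hc hc2 hcf C hz, S_cc hc hc2 h.odd]
      have := S_cyc hc hc2 hcf C h.irr h.odd x i
      linear_combination z ^ i * this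
  choose τ hτ1 hτ2 using hτ
  obtain ⟨Φ, hΦ⟩ : ∃ Φ : Finset X, Pool.Agent.Q11.CZ.IsHalf c Φ := by
    obtain ⟨Φ, hΦ⟩ := Pool.Agent.Q11.CZ.exists_half (X := X) hc2 hcf
    rw [Pool.Agent.Q11.CZ.mem_halves] at hΦ
    exact ⟨Φ, hΦ⟩
  have h1 : χ 1 * lam c g x χ z = 2 * (S χ x x * ∑ y ∈ Φ, τ y) := by
    unfold lam
    rw [sum_half hc2 hcf hΦ (fun y => S χ x y * om c g x z y) (fun y => by
      rw [S_cc hc hc2 h.odd, om_c hc hc2 hcf C hz, neg_mul_neg])]
    have h2 : ∑ y ∈ Φ, χ 1 * (S χ x y * om c g x z y) = ∑ y ∈ Φ, S χ x x * τ y :=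
      Finset.sum_congr rfl fun y _ => hτ2 y
    rw [← Finset.mul_sum, ← Finset.mul_sum] at h2
    rw [← h2]
    ring
  rw [hval, mul_div_cancel₀ _ hχ1, card_orbit (G := G) x, C.card, hm] at h1
  have hα : IsIntegral ℤ (∑ y ∈ Φ, τ y) := IsIntegral.sum _ fun y _ => hτ1 y
  have h2 : (p : ℂ) = m * ∑ y ∈ Φ, τ y := by
    push_cast at h1
    apply mul_left_cancel₀ (mul_ne_zero two_ne_zero hG0)
    linear_combination h1
  have hm0 : (m : ℂ) ≠ 0 := by
    intro e
    rw [e, zero_mul] at h2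
    exact C.prime.ne_zero (by exact_mod_cast h2)
  have hdvd : m ∣ p := by
    have h3 : ∑ y ∈ Φ, τ y = (((p : ℚ) / m : ℚ) : ℂ) := by
      push_cast
      rw [eq_div_iff hm0, h2]
      ring
    rw [h3] at hα
    have h4 : IsIntegral ℤ ((p : ℚ) / m) := by
      have h5 : IsIntegral ℤ (algebraMap ℚ ℂ ((p : ℚ) / m)) := hα
      exact (isIntegral_algebraMap_iff (algebraMap ℚ ℂ).injective).mp h5
    obtain ⟨q, hq⟩ := IsIntegrallyClosed.isIntegral_iff.mp h4
    have hm0' : (m : ℚ) ≠ 0 := by exact_mod_cast hm0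
    have h5 : (q : ℚ) * m = p := by
      have h6 : (q : ℚ) = (p : ℚ) / m := by rw [← hq]; rfl
      rw [h6, div_mul_cancel₀ _ hm0']
    have h6 : q * (m : ℤ) = (p : ℤ) := by exact_mod_cast h5
    exact Int.natCast_dvd_natCast.mp ⟨q, by rw [mul_comm]; exact h6.symm⟩
  obtain ⟨ζ, hζ⟩ : ∃ ζ : ℂ, IsPrimitiveRoot ζ p :=
    ⟨_, Complex.isPrimitiveRoot_exp p C.prime.ne_zero⟩
  have hA := cardA_md hc hc2 hcf C hζ h hm hd1
  have hAle : (AA c g x p ζ χ).card ≤ p := by
    refine (Finset.card_filter_le _ _).trans ?_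
    rw [Finset.card_range]
  rcases (Nat.dvd_prime C.prime).mp hdvd with e | e
  · rw [hm, e, Nat.cast_one, mul_one]
  · rw [hA, e] at hAle
    have hd : d = 1 := by
      by_contra hne
      have h5 : 2 ≤ d := by omega
      have h6 := Nat.mul_le_mul_left p h5
      have h7 := C.prime.pos
      omega
    exact lin_self h (by rw [hd1, hd, Nat.cast_one])

end cyc

end Pool.Agent.U157.CC
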