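import Pool.Agent.U157.CC.Prime6

/-!
# The number of odd constituents and the orbits on pairs
-/

set_option autoImplicit false
set_option linter.unusedSectionVars false

open scoped Classical

namespace Pool.Agent.U157.CC

open Pool.Agent.N770.CP Pool.Agent.H541R3.ART Pool.Agent.W446.AS Pool.Agent.R389
  Pool.Agent.Helper606_LC

variable {G : Type} [Group G] [Fintype G] {X : Type} [Fintype X] [MulAction G X]
  {c : G} (hc : ∀ g, c * g = g * c) (hc2 : c * c = 1) (hc1 : c ≠ 1) (hcf : ∀ x : X, c • x ≠ x)

/-- the number of fixed points -/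
noncomputable def fixN (X : Type) [Fintype X] [MulAction G X] (a : G) : ℕ :=
  (Finset.univ.filter fun y : X => a • y = y).card

/-- the number of points on which `a` acts as `c` -/
noncomputable def cfixN (c : G) (X : Type) [Fintype X] [MulAction G X] (a : G) : ℕ :=
  (Finset.univ.filter fun y : X => a • y = c • y).card

section

variable [MulAction.IsPretransitive G X]

lemma card_trans (x u : X) :
    (Finset.univ.filter fun h : G => h • x = u).card = Nat.card (MulAction.stabilizer G x) := by
  obtain ⟨v, rfl⟩ := MulAction.exists_smul_eq G x u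
  have h1 : Nat.card (MulAction.stabilizer G x) =
      (Finset.univ.filter fun h : G => h • x = x).card := by
    rw [Nat.card_eq_fintype_card, Fintype.card_subtype]
    rfl
  rw [h1]
  symm
  refine Finset.card_bijective (fun h => v * h) (Group.mulLeft_bijective v) (fun h => ?_)
  simp only [Finset.mem_filter, Finset.mem_univ, true_and]
  rw [mul_smul]
  exact ⟨fun e => by rw [e], fun e => MulAction.injective v e⟩

lemma card_pred (x : X) (P : X → Prop) :
    (Finset.univ.filter fun h : G => P (h • x)).card =
      Nat.card (MulAction.stabilizer G x) * (Finset.univ.filter fun u : X => P u).card := by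
  have h1 := Finset.card_eq_sum_card_fiberwise (f := fun h : G => h • x)
    (s := Finset.univ.filter fun h : G => P (h • x)) (t := Finset.univ.filter fun u : X => P u)
    (fun h hh => by
      simp only [Finset.coe_filter, Finset.mem_univ, true_and, Set.mem_ofPred_eq] at hh ⊢
      exact hh)
  rw [h1]
  have h2 : ∀ u ∈ Finset.univ.filter fun u : X => P u,
      ((Finset.univ.filter fun h : G => P (h • x)).filter fun h : G => h • x = u).card =
        Nat.card (MulAction.stabilizer G x) := by
    intro u hu
    simp only [Finset.mem_filter, Finset.mem_univ, true_and] at hu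
    rw [← card_trans x u]
    congr 1
    ext h
    simp only [Finset.mem_filter, Finset.mem_univ, true_and]
    exact ⟨fun e => e.2, fun e => ⟨by rw [e]; exact hu, e⟩⟩
  rw [Finset.sum_congr rfl h2, Finset.sum_const, smul_eq_mul, mul_comm]

include hc in
lemma dl_fix (x : X) (a : G) :
    dl c x x a = Nat.card (MulAction.stabilizer G x) * ((fixN X a : ℂ) - cfixN c X a) := by
  have h1 : cnt x x a = Nat.card (MulAction.stabilizer G x) * fixN X a := by
    unfold cnt fixN
    rw [← card_pred x (fun y => a • y = y)]
    congr 1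
    ext h
    simp only [Finset.mem_filter, Finset.mem_univ, true_and]
    rw [mul_assoc, mul_smul, inv_smul_eq_iff, mul_smul]
  have h2 : cnt x (c • x) a = Nat.card (MulAction.stabilizer G x) * cfixN c X a := by
    unfold cnt cfixN
    rw [← card_pred x (fun y => a • y = c • y)]
    congr 1
    ext h
    simp only [Finset.mem_filter, Finset.mem_univ, true_and]
    rw [mul_assoc, mul_smul, inv_smul_eq_iff, mul_smul, ← mul_smul h c, ← hc, mul_smul]
  unfold dl cn
  rw [h1, h2]
  push_cast
  ring

variable {g : G} {p : ℕ} (C : Cyc c g X p)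

include hc hc2 hcf C in
/-- the odd part of the permutation character -/
lemma odd_part (x : X) (a : G) :
    (fixN X a : ℂ) - cfixN c X a = 2 * ∑ χ ∈ Om c x, χ a := by
  have hG0 : (Nat.card (MulAction.stabilizer G x) : ℂ) ≠ 0 := by exact_mod_cast Nat.card_pos.ne'
  apply mul_left_cancel₀ hG0
  rw [← dl_fix hc, class_expand (fun g u => dl_conj c x x g u) a]
  have h1 : ∀ ψ ∈ irrF G, pr (dl c x x) ψ * ψ a =
      if OC c x ψ then 2 * Nat.card (MulAction.stabilizer G x) * ψ a else 0 := by
    intro ψ hψ
    have hψ' := mem_irrF.mp hψ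
    split_ifs with h
    · rw [pr_dl_odd hc hc2 hψ' h.odd, mult_one hc hc2 hcf C h]
    · rcases even_or_odd hc hc2 hψ' with he | ho
      · rw [pr_dl_even hc hc2 hψ' he, zero_mul]
      · rw [pr_dl_odd hc hc2 hψ' ho]
        have h2 : S ψ x x = 0 := by
          by_contra h2
          exact h ⟨hψ', ho, h2⟩
        rw [h2, mul_zero, zero_mul]
  rw [Finset.sum_congr rfl h1, ← Finset.sum_filter]
  unfold Om
  rw [Finset.mul_sum, Finset.mul_sum]
  exact Finset.sum_congr rfl fun χ _ => by ring

include hc hc2 hcf C in
/-- the norm of the odd part -/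
lemma norm_odd (x : X) :
    ∑ a : G, ((fixN X a : ℂ) - cfixN c X a) * ((fixN X a⁻¹ : ℂ) - cfixN c X a⁻¹) =
      4 * (Nat.card G * (Om c x).card) := by
  have h1 : ∀ a : G, ((fixN X a : ℂ) - cfixN c X a) * ((fixN X a⁻¹ : ℂ) - cfixN c X a⁻¹) =
      ∑ χ ∈ Om c x, ∑ χ' ∈ Om c x, 4 * (χ a * χ' a⁻¹) := by
    intro a
    rw [odd_part hc hc2 hcf C x, odd_part hc hc2 hcf C x, mul_mul_mul_comm, Finset.sum_mul_sum,
      Finset.mul_sum]
    refine Finset.sum_congr rfl fun χ _ => ?_
    rw [Finset.mul_sum]
    refine Finset.sum_congr rfl fun χ' _ => ?_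
    ring
  rw [Finset.sum_congr rfl fun a _ => h1 a, Finset.sum_comm]
  have h2 : ∀ χ ∈ Om c x, ∑ a : G, ∑ χ' ∈ Om c x, 4 * (χ a * χ' a⁻¹) = 4 * Nat.card G := by
    intro χ hχ
    have hχ' := mem_Om.mp hχ
    have h3 : ∀ χ' ∈ (Om c x).erase χ, ∑ a : G, 4 * (χ a * χ' a⁻¹) = 0 := by
      intro χ' h'
      rw [Finset.mem_erase, mem_Om] at h'
      rw [← Finset.mul_sum, pair_ne hχ'.irr h'.2.irr (Ne.symm h'.1), mul_zero]
    rw [Finset.sum_comm, ← Finset.add_sum_erase _ _ hχ, Finset.sum_eq_zero h3, add_zero,
      ← Finset.mul_sum, pair_self hχ'.irr]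
  rw [Finset.sum_congr rfl h2, Finset.sum_const, nsmul_eq_mul]
  ring

end

lemma fixN_inv (a : G) : fixN X a⁻¹ = fixN X a := by
  unfold fixN
  congr 1
  ext y
  simp only [Finset.mem_filter, Finset.mem_univ, true_and]
  rw [inv_smul_eq_iff]
  exact eq_comm

include hc hc2 in
lemma cfixN_inv (a : G) : cfixN c X a⁻¹ = cfixN c X a := by
  unfold cfixN
  congr 1
  ext y
  simp only [Finset.mem_filter, Finset.mem_univ, true_and]
  rw [inv_smul_eq_iff, ← mul_smul, ← hc, mul_smul]
  constructor
  · intro h
    conv_rhs => rw [h]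
    rw [← mul_smul, hc2, one_smul]
  · intro h
    rw [h, ← mul_smul, hc2, one_smul]

section

variable [MulAction.IsPretransitive G X] {Y : Type} [Fintype Y] [MulAction G Y]
  {q : X → Y} (hq : ∀ (a : G) (x : X), q (a • x) = a • q x)
  (hqf : ∀ x y : X, q y = q x → y = x ∨ y = c • x) (hqc : ∀ x : X, q (c • x) = q x)
  (hqs : Function.Surjective q)

include hc hc2 in
lemma sign_or {x : X} (hs : HasSign c x) (a : G) : fixN X a = 0 ∨ cfixN c X a = 0 := by
  obtain ⟨ε, h1, h2⟩ := hs
  have h3 : ∀ (b : G) (y : X), b • y = y → ε b = 1 := by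
    intro b y hb
    obtain ⟨u, rfl⟩ := MulAction.exists_smul_eq G x y
    have h4 : (u⁻¹ * b * u) • x = x := by
      rw [mul_assoc, mul_smul, mul_smul, hb, inv_smul_smul]
    have h5 := h2 _ h4
    rw [map_mul, map_mul, mul_right_comm, ← map_mul, inv_mul_cancel, map_one, one_mul] at h5
    exact h5
  by_contra hcon
  rw [not_or] at hcon
  obtain ⟨y, hy⟩ := Finset.card_pos.mp (Nat.pos_of_ne_zero hcon.1)
  obtain ⟨y', hy'⟩ := Finset.card_pos.mp (Nat.pos_of_ne_zero hcon.2)
  simp only [Finset.mem_filter, Finset.mem_univ, true_and] at hy hy'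
  have h4 := h3 a y hy
  have h5 := h3 (c * a) y' (by rw [mul_smul, hy', ← mul_smul, hc2, one_smul])
  rw [map_mul, h1, h4] at h5
  exact absurd h5 (by decide)

include hq hqf hqc hqs hcf in
lemma fix_two (a : G) : fixN X a + cfixN c X a = 2 * fixN Y a := by
  have h1 : fixN X a + cfixN c X a = (Finset.univ.filter fun y : X => a • q y = q y).card := by
    unfold fixN cfixN
    rw [← Finset.card_union_of_disjoint]
    · congr 1
      ext y
      simp only [Finset.mem_union, Finset.mem_filter, Finset.mem_univ, true_and]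
      constructor
      · rintro (h | h)
        · rw [← hq, h]
        · rw [← hq, h, hqc]
      · intro h
        rw [← hq] at h
        exact hqf y (a • y) h
    · rw [Finset.disjoint_left]
      intro y hy hy'
      simp only [Finset.mem_filter, Finset.mem_univ, true_and] at hy hy'
      rw [hy] at hy'
      exact hcf y hy'.symm
  rw [h1]
  have h2 := Finset.card_eq_sum_card_fiberwise (f := q)
    (s := Finset.univ.filter fun y : X => a • q y = q y) (t := Finset.univ.filter fun u : Y => a • u = u)
    (fun h hh => by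
      simp only [Finset.coe_filter, Finset.mem_univ, true_and, Set.mem_ofPred_eq] at hh ⊢
      exact hh)
  rw [h2]
  have h3 : ∀ u ∈ Finset.univ.filter fun u : Y => a • u = u,
      ((Finset.univ.filter fun y : X => a • q y = q y).filter fun y : X => q y = u).card = 2 := by
    intro u hu
    simp only [Finset.mem_filter, Finset.mem_univ, true_and] at hu
    obtain ⟨y, rfl⟩ := hqs u
    have h4 : ((Finset.univ.filter fun z : X => a • q z = q z).filter fun z : X => q z = q y) =
        {y, c • y} := by
      ext z
      simp only [Finset.mem_filter, Finset.mem_univ, true_and, Finset.mem_insert,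
        Finset.mem_singleton]
      constructor
      · rintro ⟨-, h⟩
        exact hqf y z h
      · rintro (rfl | rfl)
        · exact ⟨hu, rfl⟩
        · rw [hqc]
          exact ⟨hu, rfl⟩
    rw [h4, Finset.card_pair (Ne.symm (hcf y))]
  rw [Finset.sum_congr rfl h3, Finset.sum_const, smul_eq_mul, mul_comm]
  rfl

variable {g : G} {p : ℕ} (C : Cyc c g X p)

include hc hc2 hcf C hq hqf hqc hqs in
/-- **The number of the odd constituents is the number of the orbits on pairs.** -/
theorem orbits_eq {x : X} (hs : HasSign c x) :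
    Nat.card (Quotient (MulAction.orbitRel G (Y × Y))) = (Om c x).card := by
  have h1 := norm_odd hc hc2 hcf C x
  have h2 : ∀ a : G, ((fixN X a : ℂ) - cfixN c X a) * ((fixN X a⁻¹ : ℂ) - cfixN c X a⁻¹) =
      4 * ((fixN Y a * fixN Y a : ℕ) : ℂ) := by
    intro a
    have h3 : ((fixN X a : ℂ) + cfixN c X a) = 2 * fixN Y a := by
      exact_mod_cast fix_two hcf hq hqf hqc hqs a
    rw [fixN_inv, cfixN_inv hc hc2]
    push_cast
    rcases sign_or hc hc2 hs a with h | h
    · rw [h] at h3 ⊢
      push_cast at h3 ⊢
      rw [zero_add] at h3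
      rw [h3]
      ring
    · rw [h] at h3 ⊢
      push_cast at h3 ⊢
      rw [add_zero] at h3
      rw [h3]
      ring
  rw [Finset.sum_congr rfl fun a _ => h2 a, ← Finset.mul_sum] at h1
  have h3 : (∑ a : G, fixN Y a * fixN Y a) = Nat.card G * (Om c x).card := by
    have h4 := mul_left_cancel₀ (by norm_num : (4 : ℂ) ≠ 0) h1
    exact_mod_cast h4
  have h4 := MulAction.sum_card_fixedBy_eq_card_orbits_mul_card_group G (Y × Y)
  have h5 : ∀ a : G, Fintype.card (MulAction.fixedBy (Y × Y) a) = fixN Y a * fixN Y a := by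
    intro a
    unfold fixN
    rw [← Finset.card_product, ← Fintype.card_coe]
    refine Fintype.card_congr (Equiv.subtypeEquivRight fun y => ?_)
    simp only [MulAction.mem_fixedBy, Finset.mem_product, Finset.mem_filter, Finset.mem_univ,
      true_and]
    exact Prod.ext_iff
  rw [Finset.sum_congr rfl fun a _ => h5 a, h3, ← Nat.card_eq_fintype_card,
    ← Nat.card_eq_fintype_card, mul_comm] at h4
  exact (Nat.eq_of_mul_eq_mul_right Nat.card_pos h4).symm

end

end Pool.Agent.U157.CC
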