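import Pool.Agent.U157.CC.Prime7
import Pool.Agent.U157.CC.Base

/-!
# Sign characters and imaginary quadratic subfields
-/

set_option autoImplicit false
set_option linter.unusedSectionVars false

open NumberField
open scoped Classical

namespace Pool.Agent.U157.CC

open Pool.Agent.H541R3.ART Pool.Agent.W446.AS Pool.Agent.R389 Pool.Agent.Helper606_LC
open Pool.Agent.Results.MP_a2beea_nt.AveragedAndAbelian

variable {E K : Type} [Field E] [NumberField E] [Field K] [NumberField K] [IsCMField K]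
  [IsCMField E] [IsGalois ℚ K]

lemma sign_of_imag (ψ₀ : E →ₐ[ℚ] K) {x : E} {d : ℕ} (hd : 0 < d) (hx : x ^ 2 = -(d : E)) :
    HasSign (conjugation K) ψ₀ := by
  set β := ψ₀ x with hβ
  have hβ2 : β ^ 2 = -(d : K) := by rw [hβ, ← map_pow, hx, map_neg, map_natCast]
  have hd0 : (d : K) ≠ 0 := by exact_mod_cast hd.ne'
  have hβ0 : β ≠ 0 := by
    intro h
    rw [h] at hβ2
    apply hd0
    linear_combination hβ2
  have hpm : ∀ g : K ≃ₐ[ℚ] K, g β = β ∨ g β = -β := by
    intro g
    have h1 : (g β) ^ 2 = β ^ 2 := by rw [← map_pow, hβ2, map_neg, map_natCast]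
    exact sq_eq_sq_iff_eq_or_eq_neg.mp h1
  have hne : β ≠ -β := by
    intro h
    apply hβ0
    have h1 : (2 : K) * β = 0 := by linear_combination h
    rcases mul_eq_zero.mp h1 with h2 | h2
    · norm_num at h2
    · exact h2
  refine ⟨{ toFun := fun g => if g β = β then 1 else -1
            map_one' := by rw [AlgEquiv.one_apply, if_pos rfl]
            map_mul' := fun a b => ?_ }, ?_, ?_⟩
  · change (if a (b β) = β then (1 : ℤˣ) else -1) = _
    rcases hpm a with ha | ha <;> rcases hpm b with hb | hb <;> rw [ha, hb]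
    · rw [if_pos ha, if_pos rfl, one_mul]
    · rw [map_neg, ha, if_neg (Ne.symm hne), if_pos rfl, one_mul]
    · rw [ha, if_neg (Ne.symm hne), if_pos rfl, mul_one]
    · rw [map_neg, ha, neg_neg, if_pos rfl, if_neg (Ne.symm hne)]
      decide
  · change (if conjugation K β = β then (1 : ℤˣ) else -1) = -1
    rw [if_neg]
    intro h
    obtain ⟨φ⟩ : Nonempty (K →+* ℂ) := inferInstance
    have h1 := Pool.Agent.Q11.CZ.emb_conj φ β
    have h2 : φ β = starRingEnd ℂ (φ β) := by
      rw [← h1]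
      exact congrArg φ h.symm
    obtain ⟨t, ht⟩ := Complex.conj_eq_iff_real.mp h2.symm
    have h3 : (φ β) ^ 2 = -(d : ℂ) := by rw [← map_pow, hβ2, map_neg, map_natCast]
    rw [ht] at h3
    have h4 : t ^ 2 = -(d : ℝ) := by exact_mod_cast h3
    have h5 : (0 : ℝ) < d := by exact_mod_cast hd
    nlinarith [sq_nonneg t]
  · intro h hh
    change (if h β = β then (1 : ℤˣ) else -1) = 1
    rw [if_pos]
    exact congrArg (fun f : E →ₐ[ℚ] K => f x) hh

lemma imag_of_sign (ψ₀ : E →ₐ[ℚ] K) (hs : HasSign (conjugation K) ψ₀) :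
    ∃ (x : E) (d : ℕ), 0 < d ∧ x ^ 2 = -(d : E) := by
  obtain ⟨ε, h1, h2⟩ := hs
  -- an element on which the group acts by the sign
  obtain ⟨α, hα⟩ : ∃ α : K, ∑ g : K ≃ₐ[ℚ] K, ((ε g : ℤ) : K) * g α ≠ 0 := by
    by_contra hcon
    push Not at hcon
    have hli := (linearIndependent_monoidHom K K).comp
      (fun g : K ≃ₐ[ℚ] K => ((g : K ≃ₐ[ℚ] K) : K →* K)) (fun a b hab => by
        apply AlgEquiv.ext
        intro x
        exact congrArg (fun f : K →* K => f x) hab)
    rw [Fintype.linearIndependent_iff] at hli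
    have h3 := hli (fun g => ((ε g : ℤ) : K)) (by
      funext α
      rw [Finset.sum_apply]
      exact hcon α) 1
    rw [map_one] at h3
    simp at h3
  set β := ∑ g : K ≃ₐ[ℚ] K, ((ε g : ℤ) : K) * g α with hβ
  have hg : ∀ g : K ≃ₐ[ℚ] K, g β = ((ε g : ℤ) : K) * β := by
    intro g
    rw [hβ, map_sum, Finset.mul_sum]
    conv_rhs => rw [← Equiv.sum_comp (Equiv.mulLeft g)]
    have hsq : ((ε g : ℤ) : K) * ((ε g : ℤ) : K) = 1 := by
      rcases Int.units_eq_one_or (ε g) with h | h <;> rw [h] <;> simp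
    refine Finset.sum_congr rfl fun h _ => ?_
    change g (((ε h : ℤ) : K) * h α) = ((ε g : ℤ) : K) * (((ε (g * h) : ℤ) : K) * g (h α))
    rw [map_mul, map_intCast, map_mul, Units.val_mul, Int.cast_mul]
    linear_combination (- ((ε h : ℤ) : K) * g (h α)) * hsq
  have hmem : β ∈ ψ₀.fieldRange := by
    rw [← IsGalois.fixedField_fixingSubgroup ψ₀.fieldRange]
    rintro ⟨h, hh⟩
    change h β = β
    have h3 : h • ψ₀ = ψ₀ := by
      refine AlgHom.ext fun x => ?_
      exact (IntermediateField.mem_fixingSubgroup_iff _ _).mp hh (ψ₀ x) ⟨x, rfl⟩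
    rw [hg, h2 h h3]
    simp
  obtain ⟨x₀, hx₀⟩ := hmem
  have hrat : β ^ 2 ∈ (⊥ : IntermediateField ℚ K) := by
    rw [IsGalois.mem_bot_iff_fixed]
    intro g
    rw [map_pow, hg, mul_pow]
    rcases Int.units_eq_one_or (ε g) with h | h <;> rw [h] <;> simp
  obtain ⟨r, hr⟩ := IntermediateField.mem_bot.mp hrat
  have hneg : r < 0 := by
    obtain ⟨φ⟩ : Nonempty (K →+* ℂ) := inferInstance
    have h3 := Pool.Agent.Q11.CZ.emb_conj φ β
    have h4 : conjugation K β = - β := by rw [hg, h1]; simp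
    have h5 : - φ β = starRingEnd ℂ (φ β) := by
      rw [← h3, ← map_neg]
      exact congrArg φ h4.symm
    have hre : (φ β).re = 0 := by
      have := congrArg Complex.re h5
      rw [Complex.neg_re, Complex.conj_re] at this
      linarith
    have h6 : (φ β) ^ 2 = (r : ℂ) := by
      rw [← map_pow, ← hr]
      exact map_ratCast φ r
    have h7 : ((φ β) ^ 2).re = - ((φ β).im) ^ 2 := by
      rw [pow_two, Complex.mul_re, hre]
      ring
    rw [h6] at h7
    have h8 : ((r : ℂ)).re = (r : ℝ) := by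
      have : (r : ℂ) = ((r : ℝ) : ℂ) := by push_cast; rfl
      rw [this, Complex.ofReal_re]
    rw [h8] at h7
    have h9 : (φ β).im ≠ 0 := by
      intro h
      have h10 : φ β = 0 := Complex.ext hre h
      exact hα ((map_eq_zero φ).mp h10)
    have h10 : (r : ℝ) < 0 := by
      rw [h7]
      have := sq_pos_of_ne_zero h9
      linarith
    exact_mod_cast h10
  have hx2 : x₀ ^ 2 = (r : E) := by
    apply ψ₀.injective
    change ψ₀ (x₀ ^ 2) = ψ₀ (r : E)
    rw [map_pow, map_ratCast]
    have : ψ₀ x₀ = β := hx₀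
    rw [this, ← hr]
    exact (eq_ratCast (algebraMap ℚ K) r)
  have hnum : r.num < 0 := Rat.num_neg.mpr hneg
  refine ⟨(r.den : E) * x₀, r.den * r.num.natAbs, Nat.mul_pos r.den_pos (Int.natAbs_pos.mpr hnum.ne), ?_⟩
  have h3 : (r.num : E) = - ((r.num.natAbs : ℕ) : E) := by
    have h4 : (r.num : ℤ) = - ((r.num.natAbs : ℕ) : ℤ) := by omega
    rw [← Int.cast_natCast (R := E) r.num.natAbs, ← Int.cast_neg]
    exact congrArg (Int.cast : ℤ → E) h4
  have h4 : (r : E) * (r.den : E) = (r.num : E) := by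
    have h5 : r * r.den = r.num := Rat.mul_den_eq_num r
    have h6 := congrArg (fun z : ℚ => (z : E)) h5
    push_cast at h6
    exact h6
  rw [mul_pow, hx2]
  push_cast
  rw [← neg_eq_iff_eq_neg.mpr h3]
  linear_combination (r.den : E) * h4

end Pool.Agent.U157.CC
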