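import Pool.Agent.N770.CP.Sharp2

/-!
# Colmez's class functions of all CM types and the differences of the numbers of conjugates
-/

set_option autoImplicit false
set_option linter.unusedSectionVars false

open scoped Classical

namespace Pool.Agent.U157.CC

open Pool.Agent.Q11.CZ Pool.Agent.N770.CP

variable {G : Type} [Group G] [Fintype G] {X : Type} [Fintype X] [MulAction G X]
  {c : G} (hc : ∀ g, c * g = g * c) (hc2 : c * c = 1) (hcf : ∀ x : X, c • x ≠ x)

/-- the difference of the numbers of conjugates mapping `x` to `y` and to `c y` -/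
noncomputable def dq (c : G) (x y : X) (g : G) : ℚ := (cnt x y g : ℚ) - cnt x (c • y) g

include hc hc2 in
lemma a0_half (x : X) {Φ : Finset X} (hΦ : IsHalf c Φ) (g : G) :
    a0 x Φ g = 1 / 2 + (∑ y ∈ Φ, dq c x y g) / (2 * Fintype.card G) := by
  have hG0 : (Fintype.card G : ℚ) ≠ 0 := card_ne
  have h1 := a0_add hc x hΦ g
  have h2 : (a0 x Φ g : ℚ) - a0 x Φ (c * g) = (∑ y ∈ Φ, dq c x y g) / Fintype.card G := by
    rw [a0_cnt, a0_cnt, ← sub_div, ← Finset.sum_sub_distrib]
    congr 1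
    refine Finset.sum_congr rfl (fun y _ => ?_)
    unfold dq
    rw [cnt_c hc x y hc2]
  have h3 : (∑ y ∈ Φ, dq c x y g) / (2 * Fintype.card G) =
      ((∑ y ∈ Φ, dq c x y g) / Fintype.card G) / 2 := by
    rw [div_div, mul_comm]
  rw [h3, ← h2]
  linarith

include hc2 hcf in
lemma exists_half_mem (y : X) : ∃ Φ : Finset X, IsHalf c Φ ∧ y ∈ Φ := by
  obtain ⟨Φ₀, hΦ₀⟩ := exists_half (X := X) hc2 hcf
  rw [mem_halves] at hΦ₀
  by_cases hy : y ∈ Φ₀
  · exact ⟨Φ₀, hΦ₀, hy⟩
  · refine ⟨_, isHalf_toggle hc2 hΦ₀ y, ?_⟩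
    rw [Finset.mem_symmDiff]
    right
    exact ⟨Finset.mem_insert_self _ _, hy⟩

include hc2 in
lemma dq_replace (x : X) {Φ : Finset X} (hΦ : IsHalf c Φ) {y : X} (hy : y ∈ Φ) (g : G) :
    (a0 x Φ g : ℚ) - a0 x (insert (c • y) (Φ.erase y)) g = dq c x y g / Fintype.card G := by
  have hcy : c • y ∉ Φ := fun h => (hΦ y).mp h hy
  rw [a0_cnt, a0_cnt, ← sub_div]
  congr 1
  have e2 : c • y ∉ Φ.erase y := fun h => hcy (Finset.mem_of_mem_erase h)
  rw [Finset.sum_insert e2]
  have e3 := Finset.add_sum_erase Φ (fun u => (cnt x u g : ℚ)) hy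
  rw [← e3]
  unfold dq
  ring

include hc hc2 hcf in
/-- single embeddings -/
theorem span_one {V : Submodule ℚ (G → ℚ)} (h1 : (fun _ => 1 : G → ℚ) ∈ V) :
    (∀ Φ : Finset X, IsHalf c Φ → ∀ x : X, (a0 x Φ : G → ℚ) ∈ V) ↔
      ∀ x y : X, (dq c x y : G → ℚ) ∈ V := by
  have hG0 : (Fintype.card G : ℚ) ≠ 0 := card_ne
  constructor
  · intro h x y
    obtain ⟨Φ, hΦ, hy⟩ := exists_half_mem hc2 hcf y
    have h2 : (dq c x y : G → ℚ) = (Fintype.card G : ℚ) •
        ((a0 x Φ : G → ℚ) - a0 x (insert (c • y) (Φ.erase y))) := by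
      funext g
      rw [Pi.smul_apply, Pi.sub_apply, dq_replace hc2 x hΦ hy, smul_eq_mul, mul_div_cancel₀ _ hG0]
    rw [h2]
    exact V.smul_mem _ (V.sub_mem (h Φ hΦ x) (h _ (isHalf_replace hc2 hΦ hy) x))
  · intro h Φ hΦ x
    have h2 : (a0 x Φ : G → ℚ) = (1 / 2 : ℚ) • (fun _ => 1 : G → ℚ) +
        (1 / (2 * Fintype.card G) : ℚ) • ∑ y ∈ Φ, (dq c x y : G → ℚ) := by
      funext g
      rw [a0_half hc hc2 x hΦ, Pi.add_apply, Pi.smul_apply, Pi.smul_apply, Finset.sum_apply,
        smul_eq_mul, smul_eq_mul]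
      ring
    rw [h2]
    exact V.add_mem (V.smul_mem _ h1) (V.smul_mem _ (V.sum_mem fun y _ => h x y))

include hc hc2 hcf in
/-- sums over a CM type -/
theorem span_two {V : Submodule ℚ (G → ℚ)} (h1 : (fun _ => 1 : G → ℚ) ∈ V)
    (hd : ∀ x : X, (dq c x x : G → ℚ) ∈ V) :
    (∀ Φ : Finset X, IsHalf c Φ → (T Φ : G → ℚ) ∈ V) ↔
      ∀ x y : X, (dq c x y + dq c y x : G → ℚ) ∈ V := by
  have hG0 : (Fintype.card G : ℚ) ≠ 0 := card_ne
  have hcc : ∀ u : X, c • (c • u) = u := fun u => by rw [← mul_smul, hc2, one_smul]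
  constructor
  · intro h x y
    by_cases hyx : y = x
    · subst hyx
      exact V.add_mem (hd _) (hd _)
    by_cases hycx : y = c • x
    · subst hycx
      have e1 : (dq c x (c • x) + dq c (c • x) x : G → ℚ) = - (dq c x x + dq c x x) := by
        funext g
        rw [Pi.add_apply, Pi.neg_apply, Pi.add_apply]
        unfold dq
        rw [hcc, cnt_cc hc x x g]
        have q3 : cnt (c • x) x g = cnt x (c • x) g := by
          have := cnt_cc hc x (c • x) g
          rwa [hcc] at this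
        rw [q3]
        ring
      rw [e1]
      exact V.neg_mem (V.add_mem (hd _) (hd _))
    have hxcy : x ≠ c • y := fun h => hycx (by rw [h, hcc])
    obtain ⟨Φ₁, hΦ₁, hx₁⟩ := exists_half_mem hc2 hcf x
    obtain ⟨Φ, hΦ, hx, hy⟩ : ∃ Φ : Finset X, IsHalf c Φ ∧ x ∈ Φ ∧ y ∈ Φ := by
      by_cases hy : y ∈ Φ₁
      · exact ⟨Φ₁, hΦ₁, hx₁, hy⟩
      · refine ⟨_, isHalf_toggle hc2 hΦ₁ y, ?_, ?_⟩
        · rw [Finset.mem_symmDiff]
          left
          refine ⟨hx₁, ?_⟩
          rw [Finset.mem_insert, Finset.mem_singleton]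
          rintro (h | h)
          · exact hyx h.symm
          · exact hxcy h
        · rw [Finset.mem_symmDiff]
          right
          exact ⟨Finset.mem_insert_self _ _, hy⟩
    set Ψ := (Φ.erase x).erase y with hΨ
    have hcx : c • x ∉ Φ := fun h => (hΦ x).mp h hx
    have hcy : c • y ∉ Φ := fun h => (hΦ y).mp h hy
    have hy' : y ∈ Φ.erase x := Finset.mem_erase.mpr ⟨hyx, hy⟩
    have hsub : ∀ u, u ∈ Ψ → u ∈ Φ := fun u hu =>
      Finset.mem_of_mem_erase (Finset.mem_of_mem_erase hu)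
    have hxΨ : x ∉ Ψ := fun h => (Finset.notMem_erase x Φ) (Finset.mem_of_mem_erase h)
    have hyΨ : y ∉ Ψ := Finset.notMem_erase y _
    have hcxΨ : c • x ∉ Ψ := fun h => hcx (hsub _ h)
    have hcyΨ : c • y ∉ Ψ := fun h => hcy (hsub _ h)
    have e0 : Φ = insert x (insert y Ψ) := by
      rw [hΨ, Finset.insert_erase hy', Finset.insert_erase hx]
    have i1 : IsHalf c (insert (c • x) (insert y Ψ)) := by
      have h := isHalf_replace hc2 hΦ hx
      rwa [show Φ.erase x = insert y Ψ by rw [hΨ, Finset.insert_erase hy']] at h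
    have i2 : IsHalf c (insert x (insert (c • y) Ψ)) := by
      have h := isHalf_replace hc2 hΦ hy
      have e1 : Φ.erase y = insert x Ψ := by
        rw [hΨ, Finset.erase_right_comm, Finset.insert_erase]
        exact Finset.mem_erase.mpr ⟨fun h => hyx h.symm, hx⟩
      rw [e1, Finset.insert_comm] at h
      exact h
    have i3 : IsHalf c (insert (c • x) (insert (c • y) Ψ)) := by
      have h := isHalf_replace hc2 i1 (y := y)
        (Finset.mem_insert_of_mem (Finset.mem_insert_self _ _))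
      have e1 : (insert (c • x) (insert y Ψ)).erase y = insert (c • x) Ψ := by
        rw [Finset.erase_insert_of_ne (fun h => hycx h.symm), Finset.erase_insert hyΨ]
      rw [e1, Finset.insert_comm] at h
      exact h
    have i0 : IsHalf c (insert x (insert y Ψ)) := by rwa [← e0]
    have hT : ∀ (Φ : Finset X) (g : G), (T Φ g : ℚ) =
        (∑ u ∈ Φ, ∑ v ∈ Φ, (cnt u v g : ℚ)) / Fintype.card G := by
      intro Φ g
      unfold T
      rw [Finset.sum_div]
      exact Finset.sum_congr rfl (fun u _ => a0_cnt u Φ g)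
    have n1 : c • x ≠ y := fun h => hycx h.symm
    have n2 : c • x ≠ c • y := fun h => hyx ((MulAction.injective c) h).symm
    have key : (dq c x y + dq c y x : G → ℚ) = (Fintype.card G / 2 : ℚ) •
        ((T (insert x (insert y Ψ)) : G → ℚ) - T (insert (c • x) (insert y Ψ)) -
        T (insert x (insert (c • y) Ψ)) + T (insert (c • x) (insert (c • y) Ψ))) := by
      funext g
      rw [Pi.smul_apply, Pi.add_apply, Pi.add_apply, Pi.sub_apply, Pi.sub_apply, smul_eq_mul]
      simp only [hT]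
      rw [sum_two hxΨ hyΨ (Ne.symm hyx), sum_two hcxΨ hyΨ n1, sum_two hxΨ hcyΨ hxcy,
        sum_two hcxΨ hcyΨ n2]
      have q1 : cnt (c • x) (c • y) g = cnt x y g := cnt_cc hc x y g
      have q2 : cnt (c • y) (c • x) g = cnt y x g := cnt_cc hc y x g
      have q3 : cnt (c • x) y g = cnt x (c • y) g := by
        have := cnt_cc hc x (c • y) g
        rwa [hcc] at this
      have q4 : cnt (c • y) x g = cnt y (c • x) g := by
        have := cnt_cc hc y (c • x) g
        rwa [hcc] at this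
      rw [q1, q2, q3, q4]
      unfold dq
      field_simp
      ring
    rw [key]
    exact V.smul_mem _ (V.add_mem (V.sub_mem (V.sub_mem (h _ i0) (h _ i1)) (h _ i2)) (h _ i3))
  · intro h Φ hΦ
    have h2 : (T Φ : G → ℚ) = (Φ.card / 2 : ℚ) • (fun _ => 1 : G → ℚ) +
        (1 / (4 * Fintype.card G) : ℚ) •
          ∑ x ∈ Φ, ∑ y ∈ Φ, (dq c x y + dq c y x : G → ℚ) := by
      funext g
      unfold T
      rw [Finset.sum_congr rfl fun x _ => a0_half hc hc2 x hΦ g, Finset.sum_add_distrib,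
        Pi.add_apply, Pi.smul_apply, Pi.smul_apply, smul_eq_mul, smul_eq_mul]
      have h3 : (∑ x ∈ Φ, ∑ y ∈ Φ, (dq c x y + dq c y x : G → ℚ)) g =
          2 * ∑ x ∈ Φ, ∑ y ∈ Φ, dq c x y g := by
        rw [Finset.sum_apply]
        simp only [Finset.sum_apply, Pi.add_apply, Finset.sum_add_distrib]
        rw [Finset.sum_comm (f := fun x y => dq c y x g)]
        ring
      rw [h3, Finset.sum_const, nsmul_eq_mul, ← Finset.sum_div]
      ring
    rw [h2]
    exact V.add_mem (V.smul_mem _ h1) (V.smul_mem _ (V.sum_mem fun x _ => V.sum_mem fun y _ => h x y))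

end Pool.Agent.U157.CC
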