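import Pool.Agent.U157.CC.Fin

/-!
# Multiply transitive actions
-/

set_option autoImplicit false
set_option linter.unusedSectionVars false

open scoped Classical

namespace Pool.Agent.U157.CC

open Pool.Agent.N770.CP Pool.Agent.H541R3.ART Pool.Agent.W446.AS Pool.Agent.R389
  Pool.Agent.Helper606_LC

variable {G : Type} [Group G] [Fintype G] {X : Type} [Fintype X] [MulAction G X]
  {c : G} (hc : ∀ g, c * g = g * c) (hc2 : c * c = 1) (hc1 : c ≠ 1) (hcf : ∀ x : X, c • x ≠ x)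

/-- `y` is not `x` and not `c x` -/
def Far (c : G) (x y : X) : Prop := y ≠ x ∧ y ≠ c • x

/-- two-fold transitivity up to `c` -/
def Two (c : G) (X : Type) [MulAction G X] : Prop := ∀ x y x' y' : X, Far c x y → Far c x' y' →
  ∃ g : G, (g • x = x' ∨ g • x = c • x') ∧ (g • y = y' ∨ g • y = c • y')

/-- three-fold transitivity up to `c` -/
def Three (c : G) (X : Type) [MulAction G X] : Prop := ∀ x y z x' y' z' : X,
  Far c x y → Far c y z → Far c z x → Far c x' y' → Far c y' z' → Far c z' x' →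
  ∃ g : G, (g • x = x' ∨ g • x = c • x') ∧ (g • y = y' ∨ g • y = c • y') ∧
    (g • z = z' ∨ g • z = c • z')

/-- odd constituents -/
structure OC (c : G) (x : X) (χ : G → ℂ) : Prop where
  irr : χ ∈ Irr G
  odd : IsOdd c χ
  occ : S χ x x ≠ 0

section

include hc hc2 in
lemma S_cc {χ : G → ℂ} (ho : IsOdd c χ) (x y : X) : S χ x (c • y) = - S χ x y := by
  rw [S_c hc hc2]
  have h2 : (fun g => χ (c * g)) = fun g => - χ g := funext ho
  rw [h2]
  unfold S
  rw [← Finset.sum_neg_distrib]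
  refine Finset.sum_congr rfl fun g _ => ?_
  split_ifs <;> simp

/-- the coefficients of a combination of the sums -/
lemma coef {χ₁ χ₂ χ₃ : G → ℂ} {x : X} (h1 : χ₁ ∈ Irr G) (h2 : χ₂ ∈ Irr G) (h3 : χ₃ ∈ Irr G)
    (h0 : S χ₁ x x ≠ 0) (n2 : χ₁ ≠ χ₂) (n3 : χ₁ ≠ χ₃) {a₁ a₂ a₃ : ℂ}
    (h : ∀ y, a₁ * S χ₁ x y + a₂ * S χ₂ x y + a₃ * S χ₃ x y = 0) : a₁ = 0 := by
  obtain ⟨s₁, e1, -, f1⟩ := conv h1 h1
  obtain ⟨s₂, e2, f2, -⟩ := conv h1 h2
  obtain ⟨s₃, e3, f3, -⟩ := conv h1 h3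
  have k1 := S_conv h1 e1 x x
  have k2 := S_conv h2 e2 x x
  have k3 := S_conv h3 e3 x x
  rw [f2 n2, zero_mul] at k2
  rw [f3 n3, zero_mul] at k3
  have k4 : ∑ g : G, χ₁ g * (a₁ * S χ₁ x (g • x) + a₂ * S χ₂ x (g • x) + a₃ * S χ₃ x (g • x)) = 0 :=
    Finset.sum_eq_zero fun g _ => by rw [h, mul_zero]
  have k5 : ∑ g : G, χ₁ g * (a₁ * S χ₁ x (g • x) + a₂ * S χ₂ x (g • x) + a₃ * S χ₃ x (g • x)) =
      a₁ * (∑ g : G, χ₁ g * S χ₁ x (g • x)) + a₂ * (∑ g : G, χ₁ g * S χ₂ x (g • x)) +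
        a₃ * (∑ g : G, χ₁ g * S χ₃ x (g • x)) := by
    rw [Finset.mul_sum, Finset.mul_sum, Finset.mul_sum, ← Finset.sum_add_distrib,
      ← Finset.sum_add_distrib]
    exact Finset.sum_congr rfl fun g _ => by ring
  rw [k5, k1, k2, k3, mul_zero, mul_zero, add_zero, add_zero] at k4
  rcases mul_eq_zero.mp k4 with h4 | h4
  · exact h4
  · rcases mul_eq_zero.mp h4 with h5 | h5
    · exact absurd h5 (f1 rfl)
    · exact absurd h5 h0

include hc hc2 in
lemma two_fix (hT : Two c X) {x y y' : X} (hy : Far c x y) (hy' : Far c x y') :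
    ∃ g : G, g • x = x ∧ (g • y = y' ∨ g • y = c • y') := by
  have hcc : ∀ u : X, c • (c • u) = u := fun u => by rw [← mul_smul, hc2, one_smul]
  obtain ⟨g, h1, h2⟩ := hT x y x y' hy hy'
  rcases h1 with h1 | h1
  · exact ⟨g, h1, h2⟩
  · refine ⟨c * g, by rw [mul_smul, h1, hcc], ?_⟩
    rcases h2 with h2 | h2
    · right
      rw [mul_smul, h2]
    · left
      rw [mul_smul, h2, hcc]

include hc hc2 in
/-- an odd combination of the sums which vanishes at `x` and at one far point vanishes -/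
lemma vanish (hT : Two c X) {χ₁ χ₂ χ₃ : G → ℂ} {x : X} (h1 : OC c x χ₁) (h2 : OC c x χ₂)
    (h3 : OC c x χ₃) {a₁ a₂ a₃ : ℂ} (hx : a₁ * S χ₁ x x + a₂ * S χ₂ x x + a₃ * S χ₃ x x = 0)
    (hy : ∀ y, Far c x y → ∃ y', Far c x y' ∧ a₁ * S χ₁ x y' + a₂ * S χ₂ x y' + a₃ * S χ₃ x y' = 0)
    (y : X) : a₁ * S χ₁ x y + a₂ * S χ₂ x y + a₃ * S χ₃ x y = 0 := by
  have hF : ∀ y, a₁ * S χ₁ x (c • y) + a₂ * S χ₂ x (c • y) + a₃ * S χ₃ x (c • y) =
      - (a₁ * S χ₁ x y + a₂ * S χ₂ x y + a₃ * S χ₃ x y) := by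
    intro y
    rw [S_cc hc hc2 h1.odd, S_cc hc hc2 h2.odd, S_cc hc hc2 h3.odd]
    ring
  by_cases e1 : y = x
  · rw [e1, hx]
  by_cases e2 : y = c • x
  · rw [e2, hF, hx, neg_zero]
  obtain ⟨y', hy', h0⟩ := hy y ⟨e1, e2⟩
  obtain ⟨g, hg, hg2⟩ := two_fix hc hc2 hT hy' (⟨e1, e2⟩ : Far c x y)
  have hb : ∀ {χ : G → ℂ}, χ ∈ Irr G → S χ x (g • y') = S χ x y' := by
    intro χ hχ
    have := S_base hχ g x y'
    rwa [hg] at this
  rcases hg2 with h4 | h4
  · rw [← h4, hb h1.irr, hb h2.irr, hb h3.irr, h0]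
  · have h5 := hF y
    rw [← h4, hb h1.irr, hb h2.irr, hb h3.irr, h0] at h5
    exact neg_eq_zero.mp h5.symm

include hc hc2 in
/-- at most two odd constituents -/
lemma few (hT : Two c X) {χ₁ χ₂ χ₃ : G → ℂ} {x : X} (h1 : OC c x χ₁) (h2 : OC c x χ₂)
    (h3 : OC c x χ₃) (n12 : χ₁ ≠ χ₂) (n13 : χ₁ ≠ χ₃) (n23 : χ₂ ≠ χ₃) : False := by
  -- two combinations vanishing at `x`
  by_cases hfar : ∃ y, Far c x y
  · obtain ⟨y₀, hy₀⟩ := hfar
    set A := S χ₂ x x * S χ₁ x y₀ - S χ₁ x x * S χ₂ x y₀ with hA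
    set B := S χ₃ x x * S χ₁ x y₀ - S χ₁ x x * S χ₃ x y₀ with hB
    have hA0 : A ≠ 0 := by
      intro hA0
      have h4 := coef h2.irr h1.irr h3.irr h2.occ (Ne.symm n12) n23 (a₁ := - S χ₁ x x)
        (a₂ := S χ₂ x x) (a₃ := 0) (fun y => by
          have h5 := vanish hc hc2 hT h2 h1 h3 (a₁ := - S χ₁ x x) (a₂ := S χ₂ x x) (a₃ := 0)
            (by ring) (fun y _ => ⟨y₀, hy₀, by linear_combination hA0 - hA⟩) y
          exact h5)
      exact h1.occ (neg_eq_zero.mp h4)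
    have hB0 : B ≠ 0 := by
      intro hB0
      have h4 := coef h3.irr h1.irr h2.irr h3.occ (Ne.symm n13) (Ne.symm n23) (a₁ := - S χ₁ x x)
        (a₂ := S χ₃ x x) (a₃ := 0) (fun y => by
          have h5 := vanish hc hc2 hT h3 h1 h2 (a₁ := - S χ₁ x x) (a₂ := S χ₃ x x) (a₃ := 0)
            (by ring) (fun y _ => ⟨y₀, hy₀, by linear_combination hB0 - hB⟩) y
          exact h5)
      exact h1.occ (neg_eq_zero.mp h4)
    have h4 := coef h2.irr h1.irr h3.irr h2.occ (Ne.symm n12) n23 (a₁ := - (B * S χ₁ x x))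
      (a₂ := B * S χ₂ x x - A * S χ₃ x x) (a₃ := A * S χ₁ x x) (fun y => by
        refine vanish hc hc2 hT h2 h1 h3 (by ring) (fun y _ => ⟨y₀, hy₀, ?_⟩) y
        rw [hA, hB]
        ring)
    rcases mul_eq_zero.mp (neg_eq_zero.mp h4) with h5 | h5
    · exact hB0 h5
    · exact h1.occ h5
  · push Not at hfar
    have h4 := coef h2.irr h1.irr h3.irr h2.occ (Ne.symm n12) n23 (a₁ := - S χ₁ x x)
      (a₂ := S χ₂ x x) (a₃ := 0) (fun y => by
        exact vanish hc hc2 hT h2 h1 h3 (by ring) (fun y hy => absurd hy (hfar y)) y)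
    exact h1.occ (neg_eq_zero.mp h4)

/-- the value at the base point -/
lemma S_self {χ : G → ℂ} (hχ : χ ∈ Irr G) (x : X) :
    ∃ m : ℕ, S χ x x = (Nat.card (MulAction.stabilizer G x) : ℂ) * m := by
  obtain ⟨m, hm⟩ := exists_mult hχ (MulAction.stabilizer G x) 1
  refine ⟨m, ?_⟩
  rw [mul_comm, ← hm, finsum_eq_sum_of_fintype]
  unfold S
  rw [← Finset.sum_filter]
  simp only [MonoidHom.one_apply, inv_one, Units.val_one, mul_one]
  symm
  refine Finset.sum_bij (fun (h : MulAction.stabilizer G x) _ => (h : G)⁻¹) ?_ ?_ ?_ ?_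
  · intro h _
    simp only [Finset.mem_filter, Finset.mem_univ, true_and]
    exact MulAction.mem_stabilizer_iff.mp (inv_mem h.2)
  · intro a _ b _ h
    exact Subtype.ext (inv_injective h)
  · intro b hb
    simp only [Finset.mem_filter, Finset.mem_univ, true_and] at hb
    refine ⟨⟨b⁻¹, inv_mem (MulAction.mem_stabilizer_iff.mpr hb)⟩, Finset.mem_univ _, ?_⟩
    exact inv_inv b
  · intro h _
    rw [inv_inv]

end

section

variable [MulAction.IsPretransitive G X]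

include hc hc2 hcf in
/-- the value of the expansion at the identity -/
lemma sum_one (x z : X) :
    ∑ ψ ∈ irrF G, pr (dl c x z) ψ * ψ 1 =
      if z = x then (Nat.card G : ℂ) else if z = c • x then - (Nat.card G : ℂ) else 0 := by
  have hcc : ∀ u : X, c • (c • u) = u := fun u => by rw [← mul_smul, hc2, one_smul]
  rw [← class_expand (fun g u => dl_conj c x z g u) 1]
  have hcn : ∀ y : X, cn x y (1 : G) = if y = x then (Nat.card G : ℂ) else 0 := by
    intro y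
    unfold cn cnt
    by_cases h : y = x
    · rw [if_pos h, h]
      have : (Finset.univ.filter fun h : G => (h⁻¹ * 1 * h) • x = x) = Finset.univ := by
        ext h
        simp
      rw [this, Finset.card_univ, Nat.card_eq_fintype_card]
    · rw [if_neg h]
      have : (Finset.univ.filter fun h : G => (h⁻¹ * 1 * h) • x = y) = ∅ := by
        ext h'
        simp only [mul_one, inv_mul_cancel, one_smul, Finset.mem_filter, Finset.mem_univ, true_and,
          Finset.notMem_empty, iff_false]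
        exact fun e => h e.symm
      rw [this]
      simp
  unfold dl
  rw [hcn, hcn]
  by_cases h1 : z = x
  · rw [if_pos h1, if_pos h1, h1, if_neg (hcf x), sub_zero]
  · rw [if_neg h1, if_neg h1]
    by_cases h2 : z = c • x
    · rw [if_pos h2, h2, hcc, if_pos rfl, zero_sub]
    · rw [if_neg h2, if_neg, sub_zero]
      intro h3
      exact h2 (by rw [← h3, hcc])

include hc hc2 hcf in
/-- the expansion with two odd constituents of the same degree -/
lemma sum_pair (hT : Two c X) {χ χ' : G → ℂ} {x : X} (h : OC c x χ) (h' : OC c x χ') (hne : χ ≠ χ')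
    (hdeg : χ 1 = χ' 1) (z : X) :
    2 * χ 1 * (S χ x z + S χ' x z) =
      if z = x then (Nat.card G : ℂ) else if z = c • x then - (Nat.card G : ℂ) else 0 := by
  rw [← sum_one hc hc2 hcf x z]
  have h1 : ∀ ψ ∈ irrF G, ψ ≠ χ → ψ ≠ χ' → pr (dl c x z) ψ * ψ 1 = 0 := by
    intro ψ hψ n1 n2
    have hψ' := mem_irrF.mp hψ
    rcases even_or_odd hc hc2 hψ' with he | ho
    · rw [pr_dl_even hc hc2 hψ' he, zero_mul]
    · by_cases h0 : S ψ x x = 0
      · rw [pr_dl_odd hc hc2 hψ' ho, S_zero hψ' h0, mul_zero, zero_mul]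
      · exact (few hc hc2 hT ⟨hψ', ho, h0⟩ h h' n1 n2 hne).elim
  have h2 : ∑ ψ ∈ irrF G, pr (dl c x z) ψ * ψ 1 = ∑ ψ ∈ ({χ, χ'} : Finset (G → ℂ)),
      pr (dl c x z) ψ * ψ 1 := by
    symm
    refine Finset.sum_subset ?_ ?_
    · intro ψ hψ
      rw [Finset.mem_insert, Finset.mem_singleton] at hψ
      rcases hψ with rfl | rfl
      · exact mem_irrF.mpr h.irr
      · exact mem_irrF.mpr h'.irr
    · intro ψ hψ hn
      rw [Finset.mem_insert, Finset.mem_singleton, not_or] at hn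
      exact h1 ψ hψ hn.1 hn.2
  rw [h2, Finset.sum_pair hne, pr_dl_odd hc hc2 h.irr h.odd, pr_dl_odd hc hc2 h'.irr h'.odd, ← hdeg]
  ring

end

end Pool.Agent.U157.CC
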