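import Pool.Agent.U157.CC.Trans

/-!
# Two odd constituents of the same degree: conference matrices
-/

set_option autoImplicit false
set_option linter.unusedSectionVars false

open scoped Classical

namespace Pool.Agent.U157.CC

open Pool.Agent.N770.CP Pool.Agent.H541R3.ART Pool.Agent.W446.AS Pool.Agent.R389
  Pool.Agent.Helper606_LC

/-- a symmetric conference matrix has order `2` modulo `4` -/
lemma conf_mod {ι : Type} [Fintype ι] (C : ι → ι → ℤ) (h0 : ∀ i, C i i = 0)
    (h1 : ∀ i j, i ≠ j → C i j = 1 ∨ C i j = -1) (hs : ∀ i j, C i j = C j i)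
    (ho : ∀ i j, i ≠ j → ∑ k, C i k * C j k = 0) (h2 : 2 ≤ Fintype.card ι) :
    Fintype.card ι % 4 = 2 := by
  rcases Nat.lt_or_ge (Fintype.card ι) 3 with h | h
  · have : Fintype.card ι = 2 := by omega
    rw [this]
  have h3 : 2 < (Finset.univ : Finset ι).card := by rw [Finset.card_univ]; omega
  obtain ⟨x, y, z, hx, hy, hz, hxy, hxz, hyz⟩ := Finset.two_lt_card_iff.mp h3
  -- the sum of squares
  have hsq : ∀ i, ∑ k, C i k * C i k = (Fintype.card ι : ℤ) - 1 := by
    intro i
    have e1 : ∀ k, C i k * C i k = 1 - if k = i then 1 else 0 := by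
      intro k
      by_cases hk : k = i
      · rw [if_pos hk, hk, h0]; norm_num
      · rw [if_neg hk]
        rcases h1 i k (Ne.symm hk) with h4 | h4 <;> rw [h4] <;> norm_num
    rw [Finset.sum_congr rfl fun k _ => e1 k, Finset.sum_sub_distrib]
    simp
  have hsum : ∑ w, (C x w + C y w) * (C x w + C z w) = (Fintype.card ι : ℤ) - 1 := by
    have e1 : ∀ w, (C x w + C y w) * (C x w + C z w) =
        C x w * C x w + C x w * C z w + C y w * C x w + C y w * C z w := fun w => by ring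
    rw [Finset.sum_congr rfl fun w _ => e1 w, Finset.sum_add_distrib, Finset.sum_add_distrib,
      Finset.sum_add_distrib, hsq, ho x z hxz, ho y x (Ne.symm hxy), ho y z hyz]
    ring
  have hsplit : ∑ w, (C x w + C y w) * (C x w + C z w) =
      ∑ w ∈ Finset.univ \ {x, y, z}, (C x w + C y w) * (C x w + C z w) +
        ∑ w ∈ ({x, y, z} : Finset ι), (C x w + C y w) * (C x w + C z w) :=
    (Finset.sum_sdiff (Finset.subset_univ _)).symm
  have hdiv : (4 : ℤ) ∣ ∑ w ∈ Finset.univ \ {x, y, z}, (C x w + C y w) * (C x w + C z w) := by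
    refine Finset.dvd_sum fun w hw => ?_
    simp only [Finset.mem_sdiff, Finset.mem_univ, true_and, Finset.mem_insert,
      Finset.mem_singleton, not_or] at hw
    obtain ⟨w1, w2, w3⟩ := hw
    rcases h1 x w (Ne.symm w1) with a | a <;> rcases h1 y w (Ne.symm w2) with b | b <;>
      rcases h1 z w (Ne.symm w3) with d | d <;> rw [a, b, d] <;> norm_num
  have hthree : ∑ w ∈ ({x, y, z} : Finset ι), (C x w + C y w) * (C x w + C z w) =
      (C x x + C y x) * (C x x + C z x) + (C x y + C y y) * (C x y + C z y) +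
        (C x z + C y z) * (C x z + C z z) := by
    rw [Finset.sum_insert, Finset.sum_insert, Finset.sum_singleton]
    · ring
    · simp [hyz]
    · simp [hxy, hxz]
  obtain ⟨q, hq⟩ := hdiv
  rw [hsplit, hq, hthree, h0 x, h0 y, h0 z, hs y x, hs z x, hs z y] at hsum
  rcases h1 x y hxy with a | a <;> rcases h1 y z hyz with b | b <;>
    rcases h1 x z hxz with d | d <;> rw [a, b, d] at hsum <;> omega

variable {G : Type} [Group G] [Fintype G] {X : Type} [Fintype X] [MulAction G X]
  {c : G} (hc : ∀ g, c * g = g * c) (hc2 : c * c = 1) (hc1 : c ≠ 1) (hcf : ∀ x : X, c • x ≠ x)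

lemma irr_one_ne {χ : G → ℂ} (hχ : χ ∈ Irr G) : χ 1 ≠ 0 := by
  obtain ⟨d, hd, hd1⟩ := irr_deg_pos hχ
  rw [hd1]
  exact_mod_cast hd.ne'

section

variable [MulAction.IsPretransitive G X]

lemma card_orbit (x : X) :
    (Nat.card G : ℂ) = Fintype.card X * Nat.card (MulAction.stabilizer G x) := by
  have h1 := MulAction.card_orbit_mul_card_stabilizer_eq_card_group G x
  have h2 : Fintype.card (MulAction.orbit G x) = Fintype.card X := by
    rw [← Nat.card_eq_fintype_card, ← Nat.card_eq_fintype_card, MulAction.orbit_eq_univ]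
    exact Nat.card_congr (Equiv.Set.univ X)
  rw [h2] at h1
  rw [Nat.card_eq_fintype_card, ← h1, Nat.card_eq_fintype_card]
  push_cast
  rfl

include hc hc2 hcf in
/-- the number of points is divisible by four -/
lemma four_dvd (hT : Two c X) {χ χ' : G → ℂ} {x : X} (h : OC c x χ) (h' : OC c x χ') (hne : χ ≠ χ')
    (hdeg : χ 1 = χ' 1) (hS : S χ x x = S χ' x x) :
    ∃ m d : ℕ, χ 1 = d ∧ S χ x x = (Nat.card (MulAction.stabilizer G x) : ℂ) * m ∧
      Fintype.card X = 4 * (m * d) := by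
  obtain ⟨m, hm⟩ := S_self h.irr x
  obtain ⟨d, hd, hd1⟩ := irr_deg_pos h.irr
  refine ⟨m, d, hd1, hm, ?_⟩
  have h1 := sum_pair hc hc2 hcf hT h h' hne hdeg x
  rw [if_pos rfl, ← hS, hm, hd1, card_orbit (G := G) x] at h1
  have h0 : (Nat.card (MulAction.stabilizer G x) : ℂ) ≠ 0 := by exact_mod_cast Nat.card_pos.ne'
  have h2 : ((4 * (m * d) : ℕ) : ℂ) = (Fintype.card X : ℂ) := by
    apply mul_right_cancel₀ h0
    rw [← h1]
    push_cast
    ring
  exact_mod_cast h2.symm

lemma S_mul {χ χ' : G → ℂ} {s : ℂ}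
    (hs : ∀ w, ∑ g : G, χ g * χ' (g⁻¹ * w) = s * χ' w) (x z : X) :
    (∑ y : X, S χ x y * S χ' y z) = s * S χ' x z := by
  have h1 : ∀ y : X, S χ x y * S χ' y z =
      ∑ g : G, if g • x = y then χ g⁻¹ * S χ' (g • x) z else 0 := by
    intro y
    unfold S
    rw [Finset.sum_mul]
    refine Finset.sum_congr rfl fun g _ => ?_
    by_cases h : g • x = y
    · rw [if_pos h, if_pos h, h]
    · rw [if_neg h, if_neg h, zero_mul]
  rw [Finset.sum_congr rfl fun y _ => h1 y, Finset.sum_comm]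
  have h2 : ∀ g : G, (∑ y : X, if g • x = y then χ g⁻¹ * S χ' (g • x) z else 0) =
      χ g⁻¹ * S χ' (g • x) z := by
    intro g
    rw [Finset.sum_ite_eq]
    simp
  rw [Finset.sum_congr rfl fun g _ => h2 g]
  have h3 : ∀ g : G, S χ' (g • x) z = ∑ k : G, if k • x = z then χ' (g * k⁻¹) else 0 := by
    intro g
    unfold S
    rw [← Equiv.sum_comp (Equiv.mulRight g⁻¹)]
    refine Finset.sum_congr rfl fun k _ => ?_
    change (if (k * g⁻¹) • (g • x) = z then χ' (k * g⁻¹)⁻¹ else 0) = _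
    have e1 : (k * g⁻¹) • (g • x) = k • x := by
      rw [← mul_smul, inv_mul_cancel_right]
    rw [e1, mul_inv_rev, inv_inv]
  have h4 : ∀ g : G, χ g⁻¹ * S χ' (g • x) z =
      ∑ k : G, if k • x = z then χ g⁻¹ * χ' (g * k⁻¹) else 0 := by
    intro g
    rw [h3, Finset.mul_sum]
    refine Finset.sum_congr rfl fun k _ => ?_
    split_ifs <;> simp
  rw [Finset.sum_congr rfl fun g _ => h4 g, Finset.sum_comm]
  unfold S
  rw [Finset.mul_sum]
  refine Finset.sum_congr rfl fun k _ => ?_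
  by_cases h : k • x = z
  · simp only [if_pos h]
    rw [← hs, ← Equiv.sum_comp (Equiv.inv G)]
    refine Finset.sum_congr rfl fun g _ => ?_
    change χ g⁻¹⁻¹ * χ' (g⁻¹ * k⁻¹) = _
    rw [inv_inv]
  · simp [if_neg h]

/-- the scalar of the convolution -/
lemma conv_val {χ : G → ℂ} (hχ : χ ∈ Irr G) :
    ∀ w, ∑ g : G, χ g * χ (g⁻¹ * w) = (Nat.card G / χ 1) * χ w := by
  obtain ⟨s, hs, -, -⟩ := conv hχ hχ
  have h1 := hs 1
  simp only [mul_one] at h1
  rw [pair_self hχ] at h1
  intro w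
  rw [hs w, h1, mul_div_cancel_right₀ _ (irr_one_ne hχ)]

/-- the difference matrix -/
noncomputable def DD (χ χ' : G → ℂ) (x y : X) : ℂ := S χ x y - S χ' x y

lemma DD_sum {χ χ' : G → ℂ} {x₀ : X} (h : OC c x₀ χ) (h' : OC c x₀ χ')
    (hne : χ ≠ χ') (hdeg : χ 1 = χ' 1) (x z : X) :
    ∑ y : X, DD χ χ' x y * DD χ χ' y z =
      (Nat.card G / χ 1) * (S χ x z + S χ' x z) := by
  have e1 := S_mul (X := X) (conv_val h.irr) x z
  have e2 := S_mul (X := X) (conv_val h'.irr) x z
  obtain ⟨s, hs, hs0, -⟩ := conv h.irr h'.irr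
  obtain ⟨t, ht, ht0, -⟩ := conv h'.irr h.irr
  have e3 := S_mul (X := X) hs x z
  have e4 := S_mul (X := X) ht x z
  rw [hs0 hne, zero_mul] at e3
  rw [ht0 (Ne.symm hne), zero_mul] at e4
  have e5 : ∀ y : X, DD χ χ' x y * DD χ χ' y z = S χ x y * S χ y z - S χ x y * S χ' y z -
      S χ' x y * S χ y z + S χ' x y * S χ' y z := by
    intro y
    unfold DD
    ring
  rw [Finset.sum_congr rfl fun y _ => e5 y, Finset.sum_add_distrib, Finset.sum_sub_distrib,
    Finset.sum_sub_distrib, e1, e2, e3, e4, ← hdeg]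
  ring

lemma OC.base {χ : G → ℂ} {x : X} (h : OC c x χ) (y : X) : OC c y χ := by
  obtain ⟨u, rfl⟩ := MulAction.exists_smul_eq G x y
  exact ⟨h.irr, h.odd, by rw [S_base h.irr]; exact h.occ⟩

/-- the situation of two odd constituents with the same degree and the same multiplicity -/
structure Pair (c : G) (X : Type) [MulAction G X] (χ χ' : G → ℂ) : Prop where
  two : Two c X
  fst : ∀ x : X, OC c x χ
  snd : ∀ x : X, OC c x χ'
  ne : χ ≠ χ'
  deg : χ 1 = χ' 1
  self : ∀ x : X, S χ x x = S χ' x x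

section pair

variable {χ χ' : G → ℂ} (P : Pair c X χ χ')

include P in
lemma DD_smul (g : G) (x y : X) : DD χ χ' (g • x) (g • y) = DD χ χ' x y := by
  by_cases hX : Nonempty X
  · obtain ⟨x₀⟩ := hX
    unfold DD
    rw [S_base (P.fst x₀).irr, S_base (P.snd x₀).irr]
  · exact absurd ⟨x⟩ hX

include P in
lemma DD_self (x : X) : DD χ χ' x x = 0 := by
  unfold DD
  rw [P.self, sub_self]

include hc hc2 P in
lemma DD_c (x y : X) : DD χ χ' x (c • y) = - DD χ χ' x y := by
  unfold DD
  rw [S_cc hc hc2 (P.fst x).odd, S_cc hc hc2 (P.snd x).odd]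
  ring

include hc hc2 P in
lemma DD_c' (x y : X) : DD χ χ' (c • x) y = - DD χ χ' x y := by
  have hcc : c • (c • y) = y := by rw [← mul_smul, hc2, one_smul]
  have h1 := DD_smul P c x (c • y)
  rw [hcc] at h1
  rw [h1, DD_c hc hc2 P]

include hc hc2 P in
lemma DD_ne {x y : X} (hy : Far c x y) : DD χ χ' x y ≠ 0 := by
  intro h0
  apply P.ne
  refine indep (P.fst x).irr (P.snd x).irr x (P.fst x).occ (fun u => ?_)
  have h1 := vanish hc hc2 P.two (P.fst x) (P.snd x) (P.snd x) (a₁ := 1) (a₂ := -1) (a₃ := 0)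
    (by rw [P.self x]; ring) (fun y' hy' => ⟨y, hy, by
      have : S χ x y - S χ' x y = 0 := h0
      linear_combination this⟩) u
  linear_combination h1

include hc hc2 P in
/-- the squares of the entries are constant -/
lemma DD_sq {x y x' y' : X} (hy : Far c x y) (hy' : Far c x' y') :
    DD χ χ' x y ^ 2 = DD χ χ' x' y' ^ 2 := by
  obtain ⟨g, h1, h2⟩ := P.two x y x' y' hy hy'
  rw [← DD_smul P g x y]
  rcases h1 with h1 | h1 <;> rcases h2 with h2 | h2 <;> rw [h1, h2]
  · rw [DD_c hc hc2 P, neg_sq]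
  · rw [DD_c' hc hc2 P, neg_sq]
  · rw [DD_c hc hc2 P, DD_c' hc hc2 P, neg_neg]

include hc hc2 hcf P in
lemma DD_orth {x z : X} (hz : Far c x z) : ∑ y : X, DD χ χ' x y * DD χ χ' y z = 0 := by
  rw [DD_sum (P.fst x) (P.snd x) P.ne P.deg]
  have h1 := sum_pair hc hc2 hcf P.two (P.fst x) (P.snd x) P.ne P.deg z
  rw [if_neg hz.1, if_neg hz.2] at h1
  rcases mul_eq_zero.mp h1 with h2 | h2
  · rcases mul_eq_zero.mp h2 with h3 | h3
    · norm_num at h3
    · exact absurd h3 (irr_one_ne (P.fst x).irr)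
  · rw [h2, mul_zero]

include hc2 in
lemma far_symm {x y : X} (h : Far c x y) : Far c y x := by
  refine ⟨Ne.symm h.1, fun e => h.2 ?_⟩
  rw [e, ← mul_smul, hc2, one_smul]

include hc hc2 hcf P in
/-- three-fold transitivity is impossible -/
lemma no_three (h3 : Three c X) (hn : 6 ≤ Fintype.card X) : False := by
  have hcc : ∀ u : X, c • (c • u) = u := fun u => by rw [← mul_smul, hc2, one_smul]
  -- a point and a far point
  have hfar : ∀ s : Finset X, s.card ≤ 4 → ∃ y, y ∉ s := by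
    intro s hs
    by_contra hcon
    push Not at hcon
    have : (Finset.univ : Finset X).card ≤ s.card := Finset.card_le_card fun y _ => hcon y
    rw [Finset.card_univ] at this
    omega
  obtain ⟨x, -⟩ := hfar ∅ (by simp)
  obtain ⟨z, hz⟩ := hfar {x, c • x} ((Finset.card_le_two).trans (by norm_num))
  simp only [Finset.mem_insert, Finset.mem_singleton, not_or] at hz
  have hxz : Far c x z := hz
  have hzx := far_symm hc2 hxz
  obtain ⟨y₀, hy₀⟩ := hfar {x, c • x, z, c • z} Finset.card_le_four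
  simp only [Finset.mem_insert, Finset.mem_singleton, not_or] at hy₀
  have hxy₀ : Far c x y₀ := ⟨hy₀.1, hy₀.2.1⟩
  have hzy₀ : Far c z y₀ := ⟨hy₀.2.2.1, hy₀.2.2.2⟩
  have hyz₀ := far_symm hc2 hzy₀
  set ε := DD χ χ' x y₀ * DD χ χ' y₀ z * DD χ χ' z x with hε
  have hε0 : ε ≠ 0 := mul_ne_zero (mul_ne_zero (DD_ne hc hc2 P hxy₀) (DD_ne hc hc2 P hyz₀))
    (DD_ne hc hc2 P hzx)
  have hterm : ∀ y : X, DD χ χ' x y * DD χ χ' y z * DD χ χ' z x =
      if y ∈ ({x, c • x, z, c • z} : Finset X) then 0 else ε := by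
    intro y
    by_cases hy : y ∈ ({x, c • x, z, c • z} : Finset X)
    · rw [if_pos hy]
      simp only [Finset.mem_insert, Finset.mem_singleton] at hy
      rcases hy with h | h | h | h
      · rw [h, DD_self P, zero_mul, zero_mul]
      · rw [h, DD_c hc hc2 P, DD_self P, neg_zero, zero_mul, zero_mul]
      · rw [h, DD_self P, mul_zero, zero_mul]
      · rw [h, DD_c' hc hc2 P z z, DD_self P, neg_zero, mul_zero, zero_mul]
    · rw [if_neg hy]
      simp only [Finset.mem_insert, Finset.mem_singleton, not_or] at hy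
      have hxy : Far c x y := ⟨hy.1, hy.2.1⟩
      have hzy : Far c z y := ⟨hy.2.2.1, hy.2.2.2⟩
      obtain ⟨g, g1, g2, g3⟩ := h3 x y z x y₀ z hxy (far_symm hc2 hzy) hzx hxy₀ hyz₀ hzx
      rw [← DD_smul P g x y, ← DD_smul P g y z, ← DD_smul P g z x, hε]
      rcases g1 with g1 | g1 <;> rcases g2 with g2 | g2 <;> rcases g3 with g3 | g3 <;>
        rw [g1, g2, g3] <;> simp only [DD_c hc hc2 P, DD_c' hc hc2 P] <;> ring
  have hsum : ∑ y : X, DD χ χ' x y * DD χ χ' y z * DD χ χ' z x = 0 := by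
    rw [← Finset.sum_mul, DD_orth hc hc2 hcf P hxz, zero_mul]
  rw [Finset.sum_congr rfl fun y _ => hterm y, Finset.sum_ite, Finset.sum_const_zero, zero_add,
    Finset.sum_const, nsmul_eq_mul] at hsum
  rcases mul_eq_zero.mp hsum with h4 | h4
  · have h5 : (Finset.univ.filter fun y : X => y ∉ ({x, c • x, z, c • z} : Finset X)).card = 0 := by
      exact_mod_cast h4
    rw [Finset.card_eq_zero] at h5
    have h6 : y₀ ∈ (Finset.univ.filter fun y : X => y ∉ ({x, c • x, z, c • z} : Finset X)) := by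
      simp only [Finset.mem_filter, Finset.mem_univ, true_and, Finset.mem_insert,
        Finset.mem_singleton, not_or]
      exact hy₀
    rw [h5] at h6
    exact absurd h6 (Finset.notMem_empty _)
  · exact hε0 h4

include hc2 hcf in
/-- sums over a half-system -/
lemma sum_half {Φ : Finset X} (hΦ : Pool.Agent.Q11.CZ.IsHalf c Φ) (f : X → ℂ)
    (hf : ∀ y, f (c • y) = f y) : ∑ y : X, f y = 2 * ∑ y ∈ Φ, f y := by
  have hcc : ∀ u : X, c • (c • u) = u := fun u => by rw [← mul_smul, hc2, one_smul]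
  rw [← Finset.sum_add_sum_compl Φ f, two_mul]
  congr 1
  refine Finset.sum_bij (fun y _ => c • y) ?_ ?_ ?_ ?_
  · intro y hy
    rw [Finset.mem_compl] at hy
    exact (hΦ y).mpr hy
  · intro a _ b _ h
    exact MulAction.injective c h
  · intro b hb
    refine ⟨c • b, ?_, hcc b⟩
    rw [Finset.mem_compl, hΦ b, not_not]
    exact hb
  · intro y _
    exact (hf y).symm

include hc2 hcf in
lemma card_half {Φ : Finset X} (hΦ : Pool.Agent.Q11.CZ.IsHalf c Φ) :
    Fintype.card X = 2 * Φ.card := by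
  have h1 := sum_half hc2 hcf hΦ (fun _ => 1) (fun _ => rfl)
  rw [Finset.sum_const, Finset.sum_const, nsmul_eq_mul, nsmul_eq_mul, mul_one, mul_one,
    Finset.card_univ] at h1
  exact_mod_cast h1

include hc hc2 hcf P in
/-- the symmetric case -/
lemma sym_mod (hsym : ∀ x y : X, DD χ χ' x y = DD χ χ' y x) {n : ℕ} (hn : Fintype.card X = 2 * n)
    (hn2 : 2 ≤ n) : n % 4 = 2 := by
  obtain ⟨Φ, hΦ⟩ : ∃ Φ : Finset X, Pool.Agent.Q11.CZ.IsHalf c Φ := by
    obtain ⟨Φ, hΦ⟩ := Pool.Agent.Q11.CZ.exists_half (X := X) hc2 hcf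
    rw [Pool.Agent.Q11.CZ.mem_halves] at hΦ
    exact ⟨Φ, hΦ⟩
  have hcard : Φ.card = n := by
    have := card_half hc2 hcf hΦ
    omega
  have hfar : ∀ i ∈ Φ, ∀ j ∈ Φ, i ≠ j → Far c i j := by
    intro i hi j hj hij
    refine ⟨Ne.symm hij, fun h => ?_⟩
    rw [h, hΦ] at hj
    exact hj hi
  have hex : ∃ x y : X, Far c x y := by
    obtain ⟨i, hi, j, hj, hij⟩ := Finset.one_lt_card.mp (by omega : 1 < Φ.card)
    exact ⟨i, j, hfar i hi j hj hij⟩
  obtain ⟨x₀, y₀, h0⟩ := hex
  set t := DD χ χ' x₀ y₀ with ht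
  have ht0 : t ≠ 0 := DD_ne hc hc2 P h0
  have hpm : ∀ {i j : X}, Far c i j → DD χ χ' i j = t ∨ DD χ χ' i j = -t := fun hij =>
    sq_eq_sq_iff_eq_or_eq_neg.mp (DD_sq hc hc2 P hij h0)
  have htt : t ≠ -t := by
    intro h
    apply ht0
    have h1 : (2 : ℂ) * t = 0 := by linear_combination h
    rcases mul_eq_zero.mp h1 with h2 | h2
    · norm_num at h2
    · exact h2
  let C : Φ → Φ → ℤ := fun i j => if DD (X := X) χ χ' (i : X) (j : X) = t then 1 else
    if DD (X := X) χ χ' (i : X) (j : X) = -t then -1 else 0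
  have hC : ∀ i j : Φ, DD (X := X) χ χ' (i : X) (j : X) = t * C i j := by
    intro i j
    simp only [C]
    by_cases hij : i = j
    · rw [hij, DD_self P, if_neg (Ne.symm ht0), if_neg]
      · simp
      · intro h
        exact ht0 (neg_eq_zero.mp h.symm)
    · rcases hpm (hfar i i.2 j j.2 (fun h => hij (Subtype.ext h))) with h | h
      · rw [if_pos h, h]; simp
      · rw [h, if_neg (Ne.symm htt), if_pos rfl]; simp
  have h1 := conf_mod C ?_ ?_ ?_ ?_ ?_
  · rw [← hcard, ← Fintype.card_coe]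
    exact h1
  · intro i
    have h2 := hC i i
    rw [DD_self P] at h2
    rcases mul_eq_zero.mp h2.symm with h3 | h3
    · exact absurd h3 ht0
    · exact_mod_cast h3
  · intro i j hij
    simp only [C]
    rcases hpm (hfar i i.2 j j.2 (fun h => hij (Subtype.ext h))) with h | h
    · rw [if_pos h]; exact Or.inl rfl
    · rw [h, if_neg (Ne.symm htt), if_pos rfl]; exact Or.inr rfl
  · intro i j
    simp only [C, hsym (i : X) (j : X)]
  · intro i j hij
    have h2 := DD_orth hc hc2 hcf P (hfar i i.2 j j.2 (fun h => hij (Subtype.ext h)))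
    rw [sum_half hc2 hcf hΦ _ (fun y => by rw [DD_c hc hc2 P, DD_c' hc hc2 P, neg_mul_neg])] at h2
    have h3 : ∑ y ∈ Φ, DD (X := X) χ χ' (i : X) y * DD (X := X) χ χ' y (j : X) = 0 := by
      rcases mul_eq_zero.mp h2 with h4 | h4
      · norm_num at h4
      · exact h4
    rw [← Finset.sum_coe_sort] at h3
    have h5 : ∀ k : Φ, DD (X := X) χ χ' (i : X) (k : X) * DD (X := X) χ χ' (k : X) (j : X) =
        t ^ 2 * ((C i k * C j k : ℤ) : ℂ) := by
      intro k
      rw [hsym (k : X) (j : X), hC, hC]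
      push_cast
      ring
    rw [Finset.sum_congr rfl fun k _ => h5 k, ← Finset.mul_sum] at h3
    rcases mul_eq_zero.mp h3 with h4 | h4
    · exact absurd h4 (pow_ne_zero 2 ht0)
    · exact_mod_cast h4
  · rw [Fintype.card_coe, hcard]
    exact hn2

include hc hc2 hcf P in
/-- the size of the entries in the symmetric case -/
lemma sym_sq (hsym : ∀ x y : X, DD χ χ' x y = DD χ χ' y x) {n : ℕ} (hn : Fintype.card X = 2 * n)
    {x y : X} (hxy : Far c x y) : ∃ r : ℕ, DD χ χ' x y ^ 2 * ((n : ℂ) - 1) = (r : ℂ) ^ 2 := by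
  obtain ⟨m, d, hd, hm, hX⟩ := four_dvd hc hc2 hcf P.two (P.fst x) (P.snd x) P.ne P.deg (P.self x)
  have h1 := DD_sum (X := X) (P.fst x) (P.snd x) P.ne P.deg x x
  have h2 : ∀ z : X, DD χ χ' x z * DD χ χ' z x =
      if z ∈ ({x, c • x} : Finset X) then 0 else DD χ χ' x y ^ 2 := by
    intro z
    by_cases hz : z ∈ ({x, c • x} : Finset X)
    · rw [if_pos hz]
      rw [Finset.mem_insert, Finset.mem_singleton] at hz
      rcases hz with h | h
      · rw [h, DD_self P, zero_mul]
      · rw [h, DD_c hc hc2 P, DD_self P, neg_zero, zero_mul]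
    · rw [if_neg hz]
      rw [Finset.mem_insert, Finset.mem_singleton, not_or] at hz
      rw [hsym z x, ← pow_two]
      exact DD_sq hc hc2 P hz hxy
  rw [Finset.sum_congr rfl fun z _ => h2 z, Finset.sum_ite, Finset.sum_const_zero, zero_add,
    Finset.sum_const, nsmul_eq_mul] at h1
  have h3 : ((Finset.univ.filter fun z : X => z ∉ ({x, c • x} : Finset X)).card : ℂ) =
      2 * n - 2 := by
    have h4 : (Finset.univ.filter fun z : X => z ∉ ({x, c • x} : Finset X)) =
        Finset.univ \ {x, c • x} := by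
      ext z
      simp
    have h5 : ({x, c • x} : Finset X).card = 2 := Finset.card_pair (Ne.symm (hcf x))
    have h6 := Finset.card_sdiff_add_card_eq_card (Finset.subset_univ ({x, c • x} : Finset X))
    rw [h5, Finset.card_univ, hn] at h6
    rw [h4]
    have h7 : (((Finset.univ \ {x, c • x} : Finset X).card + 2 : ℕ) : ℂ) = ((2 * n : ℕ) : ℂ) := by
      rw [h6]
    push_cast at h7
    linear_combination h7
  refine ⟨2 * m * Nat.card (MulAction.stabilizer G x), ?_⟩
  have hd0 : (d : ℂ) ≠ 0 := by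
    rw [← hd]
    exact irr_one_ne (P.fst x).irr
  rw [h3, ← P.self x, hm, card_orbit (G := G) x, hd, hX] at h1
  push_cast at h1 ⊢
  have h8 : 4 * ((m : ℂ) * d) * (Nat.card (MulAction.stabilizer G x) : ℂ) / d =
      4 * m * Nat.card (MulAction.stabilizer G x) := by
    field_simp
  rw [h8] at h1
  linear_combination (1 / 2 : ℂ) * h1

end pair

end

end Pool.Agent.U157.CC
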