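import Pool.Agent.U157.CC.Trans2

/-!
# The odd constituents of a multiply transitive action
-/

set_option autoImplicit false
set_option linter.unusedSectionVars false

open scoped Classical

namespace Pool.Agent.U157.CC

open Pool.Agent.N770.CP Pool.Agent.H541R3.ART Pool.Agent.W446.AS Pool.Agent.R389
  Pool.Agent.Helper606_LC

variable {G : Type} [Group G] [Fintype G] {X : Type} [Fintype X] [MulAction G X]
  {c : G} (hc : ∀ g, c * g = g * c) (hc2 : c * c = 1) (hc1 : c ≠ 1) (hcf : ∀ x : X, c • x ≠ x)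

lemma pw_at_one (k : (ZMod (Nat.card G))ˣ) (χ : G → ℂ) : pw k χ 1 = χ 1 := by
  unfold pw
  rw [one_pow]

section

include hc hc2 hc1 in
lemma OC_pw {χ : G → ℂ} {x : X} (h : OC c x χ) (k : (ZMod (Nat.card G))ˣ) : OC c x (pw k χ) :=
  ⟨irr_pw (G := G) hN0 (dvd_refl _) k h.irr, pw_odd hc hc2 hc1 h.odd k, by
    rw [S_pw]; exact h.occ⟩

include hc hc2 in
lemma OC_bar {χ : G → ℂ} {x : X} (h : OC c x χ) : OC c x (fun g => χ g⁻¹) := by
  refine ⟨inv_mem_irr h.irr, fun g => ?_, ?_⟩
  · have h1 : (c * g)⁻¹ = c * g⁻¹ := by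
      rw [mul_inv_rev, inv_eq_of_mul_eq_one_left hc2, hc]
    change χ (c * g)⁻¹ = - χ g⁻¹
    rw [h1, h.odd]
  · rw [← S_swap]
    exact h.occ

variable [MulAction.IsPretransitive G X]

include hc hc2 hc1 in
lemma mkPair (hT : Two c X) {χ : G → ℂ} {x : X} (h : OC c x χ) (k : (ZMod (Nat.card G))ˣ)
    (hne : pw k χ ≠ χ) : Pair c X χ (pw k χ) where
  two := hT
  fst := fun y => h.base y
  snd := fun y => (OC_pw hc hc2 hc1 h k).base y
  ne := Ne.symm hne
  deg := (pw_at_one k χ).symm
  self := fun y => (S_pw χ k y).symm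

include hc hc2 hc1 hcf in
/-- two-fold transitivity and an odd number of pairs -/
theorem trans_a (hT : Two c X) {n : ℕ} (hn : Fintype.card X = 2 * n) (hodd : Odd n) {χ : G → ℂ}
    {x : X} (h : OC c x χ) (k : (ZMod (Nat.card G))ˣ) : pw k χ = χ := by
  by_contra hne
  have P := mkPair hc hc2 hc1 hT h k hne
  obtain ⟨m, d, -, -, hX⟩ := four_dvd hc hc2 hcf hT (P.fst x) (P.snd x) P.ne P.deg (P.self x)
  obtain ⟨j, hj⟩ := hodd
  omega

include hc hc2 hc1 hcf in
/-- three-fold transitivity -/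
theorem trans_b (hT : Two c X) (h3 : Three c X) (hn : 6 ≤ Fintype.card X) {χ : G → ℂ}
    {x : X} (h : OC c x χ) (k : (ZMod (Nat.card G))ˣ) : pw k χ = χ := by
  by_contra hne
  exact no_three hc hc2 hcf (mkPair hc hc2 hc1 hT h k hne) h3 hn

include hc hc2 hc1 hcf in
/-- two-fold transitivity, the general case -/
theorem trans_c (hT : Two c X) {n : ℕ} (hn : Fintype.card X = 2 * n)
    (hcond : n % 4 ≠ 2 ∨ ∃ s : ℕ, n = s ^ 2 + 1) {χ : G → ℂ}
    {x : X} (h : OC c x χ) (k : (ZMod (Nat.card G))ˣ) :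
    pw k χ = χ ∨ pw k χ = fun g => χ g⁻¹ := by
  by_contra hne'
  rw [not_or] at hne'
  obtain ⟨hne, hbar⟩ := hne'
  have P := mkPair hc hc2 hc1 hT h k hne
  have hb := OC_bar hc hc2 h
  have hreal : (fun g => χ g⁻¹) = χ := by
    by_contra hr
    exact few hc hc2 hT h (P.snd x) hb P.ne (Ne.symm hr) hbar
  have hreal' : (fun g => pw k χ g⁻¹) = pw k χ := by
    funext g
    unfold pw
    rw [inv_pow]
    exact congrFun hreal _
  have hsym : ∀ x y : X, DD χ (pw k χ) x y = DD χ (pw k χ) y x := by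
    intro x y
    unfold DD
    rw [S_swap χ x y, S_swap (pw k χ) x y, hreal, hreal']
  obtain ⟨m, d, -, -, hX⟩ := four_dvd hc hc2 hcf hT (P.fst x) (P.snd x) P.ne P.deg (P.self x)
  have hX0 : 0 < Fintype.card X := Fintype.card_pos_iff.mpr ⟨x⟩
  have hn2 : 2 ≤ n := by
    have h1 : n = 2 * (m * d) := by omega
    have h2 : m * d ≠ 0 := by
      intro h2
      rw [h2] at hX
      omega
    omega
  rcases hcond with h4 | ⟨s, hs⟩
  · exact h4 (sym_mod hc hc2 hcf P hsym hn hn2)
  · obtain ⟨y, hy⟩ : ∃ y : X, Far c x y := by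
      by_contra hcon
      push Not at hcon
      have h5 : (Finset.univ : Finset X) ⊆ {x, c • x} := by
        intro y _
        have h6 := hcon y
        unfold Far at h6
        rw [Finset.mem_insert, Finset.mem_singleton]
        by_contra h7
        rw [not_or] at h7
        exact h6 h7
      have h6 := Finset.card_le_card h5
      rw [Finset.card_univ] at h6
      have h7 : ({x, c • x} : Finset X).card ≤ 2 := Finset.card_le_two
      omega
    obtain ⟨r, hr⟩ := sym_sq hc hc2 hcf P hsym hn hy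
    have hs0 : (s : ℂ) ≠ 0 := by
      intro h5
      have h6 : s = 0 := by exact_mod_cast h5
      rw [h6] at hs
      omega
    have hD0 := DD_ne hc hc2 P hy
    have h5 : (n : ℂ) - 1 = (s : ℂ) ^ 2 := by
      rw [hs]
      push_cast
      ring
    rw [h5, ← mul_pow] at hr
    have h6 : ∃ q : ℚ, DD χ (pw k χ) x y = q := by
      rcases sq_eq_sq_iff_eq_or_eq_neg.mp hr with h7 | h7
      · refine ⟨(r : ℚ) / s, ?_⟩
        push_cast
        rw [← h7, mul_div_cancel_right₀ _ hs0]
      · refine ⟨-((r : ℚ) / s), ?_⟩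
        push_cast
        rw [← neg_div, ← h7, mul_div_cancel_right₀ _ hs0]
    obtain ⟨q, hq⟩ := h6
    obtain ⟨σ, hσ⟩ := pw_aut (G := G) k
    have hS : ∀ ψ ∈ Irr G, σ (S ψ x y) = S (pw k ψ) x y := by
      intro ψ hψ
      unfold S
      rw [map_sum]
      refine Finset.sum_congr rfl fun g _ => ?_
      split_ifs
      · exact hσ ψ hψ _
      · exact map_zero σ
    have h2 := OC_pw hc hc2 hc1 (P.snd x) k
    have hback : pw k (pw k χ) = χ := by
      by_contra hb2
      refine few hc hc2 hT h (P.snd x) h2 P.ne (Ne.symm hb2) ?_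
      intro h8
      apply P.ne
      have hinj := congrArg (pw k⁻¹) h8
      rw [← pw_mul hN0 (dvd_refl _), ← pw_mul hN0 (dvd_refl _), inv_mul_cancel,
        pw_one hN0 (dvd_refl _), pw_one hN0 (dvd_refl _)] at hinj
      exact hinj
    have h8 : σ (DD χ (pw k χ) x y) = - DD χ (pw k χ) x y := by
      unfold DD
      rw [map_sub, hS χ h.irr, hS _ (P.snd x).irr, hback]
      ring
    rw [hq, map_ratCast] at h8
    apply hD0
    rw [hq]
    have h9 : (2 : ℂ) * (q : ℂ) = 0 := by linear_combination h8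
    rcases mul_eq_zero.mp h9 with h10 | h10
    · norm_num at h10
    · exact h10

end

end Pool.Agent.U157.CC
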